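import Mathlib

set_option linter.style.haveILetI false
set_option linter.unusedSectionVars false

open MeasureTheory Filter Set Topology

namespace Pool.Agent.R333.CF

variable {H : Type*} [NormedAddCommGroup H] [InnerProductSpace ℂ H] [FiniteDimensional ℂ H]

lemma pow_apply_eigen (T : H →L[ℂ] H) (y : H) (lam : ℂ) (h : T y = lam • y) (n : ℕ) :
    (T ^ n) y = lam ^ n • y := by
  induction n with
  | zero => simp
  | succ n ih =>
    rw [pow_succ', mul_apply_eq_comp, ih, map_smul, h, smul_smul, pow_succ]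

lemma exp_apply_eigen (T : H →L[ℂ] H) (y : H) (lam : ℂ) (h : T y = lam • y) :
    (NormedSpace.exp T) y = Complex.exp lam • y := by
  haveI : CompleteSpace H := FiniteDimensional.complete ℂ H
  have h1 : HasSum (fun n : ℕ => ((n.factorial : ℂ)⁻¹) • T ^ n) (NormedSpace.exp T) :=
    NormedSpace.exp_series_hasSum_exp' (𝕂 := ℂ) T
  have h2 : HasSum (fun n : ℕ => (((n.factorial : ℂ)⁻¹) • T ^ n) y) ((NormedSpace.exp T) y) :=
    h1.mapL (ContinuousLinearMap.apply ℂ H y)
  have h3 : HasSum (fun n : ℕ => ((n.factorial : ℂ)⁻¹) • lam ^ n) (NormedSpace.exp lam) :=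
    NormedSpace.exp_series_hasSum_exp' (𝕂 := ℂ) lam
  have h4 : HasSum (fun n : ℕ => (((n.factorial : ℂ)⁻¹) • lam ^ n) • y)
      ((NormedSpace.exp lam) • y) := h3.smul_const y
  have h5 : (fun n : ℕ => (((n.factorial : ℂ)⁻¹) • T ^ n) y) =
      fun n : ℕ => (((n.factorial : ℂ)⁻¹) • lam ^ n) • y := by
    ext n
    rw [smul_apply, pow_apply_eigen T y lam h n, smul_smul, smul_eq_mul]
  rw [h5] at h2
  rw [h2.unique h4, Complex.exp_eq_exp_ℂ]

lemma coe_pow_apply (E : H →L[ℂ] H) (i : ℕ) (v : H) :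
    (E ^ i) v = ((E : Module.End ℂ H) ^ i) v := by
  induction i generalizing v with
  | zero => simp
  | succ i ih =>
    rw [pow_succ, pow_succ, mul_apply_eq_comp, ih]
    rfl

/-- Spectral mapping for the exponential of an operator in finite dimension. -/
lemma spec_exp (T : H →L[ℂ] H) (c : ℂ) (mu : ℂ)
    (h : mu ∈ spectrum ℂ (NormedSpace.exp (c • T))) :
    ∃ lam ∈ spectrum ℂ T, mu = Complex.exp (c * lam) := by
  haveI : CompleteSpace H := FiniteDimensional.complete ℂ H
  set E : H →L[ℂ] H := NormedSpace.exp (c • T) with hE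
  have hcomm : Commute T E := ((Commute.refl T).smul_right c).exp_right
  have hcomm' : Commute (E : Module.End ℂ H) (T : Module.End ℂ H) := by
    have := hcomm.symm
    have h2 := congrArg ContinuousLinearMap.toLinearMapRingHom this.eq
    simp only [map_mul] at h2
    exact h2
  rw [ContinuousLinearMap.spectrum_eq] at h
  have hev : Module.End.HasEigenvalue (E : Module.End ℂ H) mu :=
    Module.End.hasEigenvalue_iff_mem_spectrum.2 h
  have hmaps : MapsTo (T : Module.End ℂ H) (Module.End.eigenspace (E : Module.End ℂ H) mu)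
      (Module.End.eigenspace (E : Module.End ℂ H) mu) :=
    Module.End.mapsTo_genEigenspace_of_comm hcomm' mu 1
  haveI : Nontrivial (Module.End.eigenspace (E : Module.End ℂ H) mu) :=
    Submodule.nontrivial_iff_ne_bot.2 hev
  obtain ⟨lam, hlam⟩ := Module.End.exists_eigenvalue
    ((T : Module.End ℂ H).restrict hmaps)
  obtain ⟨⟨y, hy⟩, hv⟩ := hlam.exists_hasEigenvector
  have hy0 : y ≠ 0 := by
    intro h0
    apply hv.2
    ext
    exact h0
  have hTy : T y = lam • y := by
    have := hv.apply_eq_smul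
    have h3 := congrArg Subtype.val this
    exact h3
  have hEy : E y = mu • y := by
    have := Module.End.mem_eigenspace_iff.1 hy
    simpa using this
  have hEy2 : E y = Complex.exp (c * lam) • y := by
    apply exp_apply_eigen
    rw [smul_apply, hTy, smul_smul]
  refine ⟨lam, ?_, ?_⟩
  · rw [ContinuousLinearMap.spectrum_eq]
    apply Module.End.hasEigenvalue_iff_mem_spectrum.1
    apply Module.End.hasEigenvalue_of_hasEigenvector (x := y)
    exact ⟨Module.End.mem_eigenspace_iff.2 (by simpa using hTy), hy0⟩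
  · rw [hEy] at hEy2
    exact smul_left_injective ℂ hy0 hEy2

lemma exp_add_smul (T : H →L[ℂ] H) (s t : ℂ) :
    NormedSpace.exp ((s + t) • T) = NormedSpace.exp (s • T) * NormedSpace.exp (t • T) := by
  haveI : CompleteSpace H := FiniteDimensional.complete ℂ H
  letI : NormedAlgebra ℚ (H →L[ℂ] H) := NormedAlgebra.restrictScalars ℚ ℂ _
  rw [add_smul]
  exact NormedSpace.exp_add_of_commute (((Commute.refl T).smul_left s).smul_right t)

lemma exp_nat_smul (T : H →L[ℂ] H) (k : ℕ) (t : ℂ) :
    NormedSpace.exp (((k : ℂ) * t) • T) = NormedSpace.exp (t • T) ^ k := by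
  induction k with
  | zero => simp
  | succ k ih =>
    rw [pow_succ, ← ih, ← exp_add_smul]
    congr 2
    push_cast
    ring

/-- The exponential of a stable operator has a power of norm less than one. -/
lemma exists_pow_lt [Nontrivial H] (T : H →L[ℂ] H) (hT : ∀ z ∈ spectrum ℂ T, z.re < 0) :
    ∃ N : ℕ, 0 < N ∧ ‖NormedSpace.exp ((N : ℂ) • T)‖ < 1 := by
  haveI : CompleteSpace H := FiniteDimensional.complete ℂ H
  have h1 : spectralRadius ℂ (NormedSpace.exp ((1 : ℂ) • T)) < (1 : NNReal) := by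
    apply spectrum.spectralRadius_lt_of_forall_lt
    intro z hz
    obtain ⟨lam, hlam, rfl⟩ := spec_exp T 1 z hz
    rw [← NNReal.coe_lt_coe, coe_nnnorm, Complex.norm_exp]
    simpa using hT lam hlam
  have h2 := spectrum.pow_norm_pow_one_div_tendsto_nhds_spectralRadius
    (NormedSpace.exp ((1 : ℂ) • T))
  have h3 := (h2.eventually (gt_mem_nhds h1)).and (eventually_gt_atTop 0)
  obtain ⟨N, hN, hN0⟩ := h3.exists
  refine ⟨N, hN0, ?_⟩
  have h4 : NormedSpace.exp ((N : ℂ) • T) = NormedSpace.exp ((1 : ℂ) • T) ^ N := by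
    rw [← exp_nat_smul, mul_one]
  rw [h4]
  by_contra hcon
  rw [not_lt] at hcon
  have h5 : (1 : ℝ) ≤ ‖NormedSpace.exp ((1 : ℂ) • T) ^ N‖ ^ (1 / N : ℝ) :=
    Real.one_le_rpow hcon (by positivity)
  have h6 : (1 : ENNReal) ≤ ENNReal.ofReal (‖NormedSpace.exp ((1 : ℂ) • T) ^ N‖ ^ (1 / N : ℝ)) := by
    rw [← ENNReal.ofReal_one]
    exact ENNReal.ofReal_le_ofReal h5
  exact absurd hN (not_lt.2 (by simpa using h6))

lemma continuous_exp_smul (T : H →L[ℂ] H) :
    Continuous fun t : ℝ => NormedSpace.exp ((t : ℂ) • T) := by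
  haveI : CompleteSpace H := FiniteDimensional.complete ℂ H
  letI : NormedAlgebra ℚ (H →L[ℂ] H) := NormedAlgebra.restrictScalars ℚ ℂ _
  have : Continuous (NormedSpace.exp : (H →L[ℂ] H) → (H →L[ℂ] H)) := NormedSpace.exp_continuous
  exact this.comp (by fun_prop)

/-- Exponential decay of the exponential of a stable operator. -/
lemma exists_exp_bound [Nontrivial H] (T : H →L[ℂ] H) (hT : ∀ z ∈ spectrum ℂ T, z.re < 0) :
    ∃ C c : ℝ, 0 < c ∧ ∀ t : ℝ, 0 ≤ t → ‖NormedSpace.exp ((t : ℂ) • T)‖ ≤ C * Real.exp (-c * t) := by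
  haveI : CompleteSpace H := FiniteDimensional.complete ℂ H
  obtain ⟨N, hN0, hN⟩ := exists_pow_lt T hT
  have hNpos : (0 : ℝ) < N := by exact_mod_cast hN0
  set r : ℝ := max (‖NormedSpace.exp ((N : ℂ) • T)‖) (1 / 2) with hr
  have hr0 : 0 < r := lt_of_lt_of_le (by norm_num) (le_max_right _ _)
  have hr1 : r < 1 := max_lt hN (by norm_num)
  have hcomp : IsCompact (Icc (0 : ℝ) N) := isCompact_Icc
  obtain ⟨D, hD⟩ := hcomp.exists_bound_of_continuousOn
    ((continuous_exp_smul T).continuousOn (s := Icc (0 : ℝ) N))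
  have hD0 : 0 ≤ D := (norm_nonneg _).trans (hD 0 ⟨le_rfl, hNpos.le⟩)
  have hlog : Real.log r < 0 := Real.log_neg hr0 hr1
  refine ⟨D * r⁻¹, -Real.log r / N, by apply div_pos (by linarith) hNpos, fun t ht => ?_⟩
  set k : ℕ := ⌊t / N⌋₊ with hk
  have hk1 : (k : ℝ) ≤ t / N := Nat.floor_le (by positivity)
  have hk2 : t / N < k + 1 := Nat.lt_floor_add_one _
  have hs0 : 0 ≤ t - k * N := by
    have := (le_div_iff₀ hNpos).1 hk1
    linarith
  have hs1 : t - k * N ≤ N := by
    have := (div_lt_iff₀ hNpos).1 hk2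
    linarith
  have h1 : NormedSpace.exp ((t : ℂ) • T) =
      NormedSpace.exp ((N : ℂ) • T) ^ k * NormedSpace.exp (((t - k * N : ℝ) : ℂ) • T) := by
    rw [← exp_nat_smul, ← exp_add_smul]
    congr 2
    push_cast
    ring
  have h2 : ‖NormedSpace.exp ((N : ℂ) • T) ^ k‖ ≤ r ^ k := by
    refine (norm_pow_le _ _).trans (pow_le_pow_left₀ (norm_nonneg _) (le_max_left _ _) k)
  have h3 : r ^ k ≤ r⁻¹ * Real.exp (-(-Real.log r / N) * t) := by
    have e1 : r ^ k = Real.exp (Real.log r * k) := by
      rw [← Real.rpow_natCast, Real.rpow_def_of_pos hr0]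
    have e2 : r⁻¹ = Real.exp (-Real.log r) := by
      rw [Real.exp_neg, Real.exp_log hr0]
    rw [e1, e2, ← Real.exp_add]
    apply Real.exp_le_exp.2
    have e3 : -(-Real.log r / N) * t = Real.log r * (t / N) := by ring
    rw [e3]
    nlinarith
  rw [h1]
  calc _ ≤ ‖NormedSpace.exp ((N : ℂ) • T) ^ k‖ * ‖NormedSpace.exp (((t - k * N : ℝ) : ℂ) • T)‖ :=
        norm_mul_le _ _
    _ ≤ (r⁻¹ * Real.exp (-(-Real.log r / N) * t)) * D := by
        apply mul_le_mul (h2.trans h3) (hD _ ⟨hs0, hs1⟩) (norm_nonneg _) (by positivity)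
    _ = _ := by ring

/-- Cayley-Hamilton recursion with small coefficients for the exponential of an operator. -/
lemma exists_recursion [Nontrivial H] (T : H →L[ℂ] H) (g : ℝ) (hg : 0 ≤ g)
    (hT : ∀ z ∈ spectrum ℂ T, z.re ≤ -g) (h : ℝ) (hh : 0 ≤ h) :
    ∃ c : ℕ → ℂ, (∑ j ∈ Finset.range (Module.finrank ℂ H), ‖c j‖ ≤
        2 ^ (Module.finrank ℂ H) * Real.exp (-(g * h))) ∧
      ∀ t : ℝ, NormedSpace.exp (((t + Module.finrank ℂ H * h : ℝ) : ℂ) • T) =
        ∑ j ∈ Finset.range (Module.finrank ℂ H),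
          c j • NormedSpace.exp (((t + j * h : ℝ) : ℂ) • T) := by
  haveI : CompleteSpace H := FiniteDimensional.complete ℂ H
  set n := Module.finrank ℂ H with hn
  set E : H →L[ℂ] H := NormedSpace.exp ((h : ℂ) • T) with hE
  set P : Polynomial ℂ := LinearMap.charpoly (E : Module.End ℂ H) with hP
  have hPm : P.Monic := LinearMap.charpoly_monic _
  have hPn : P.natDegree = n := LinearMap.charpoly_natDegree _
  set ρ : ℝ := Real.exp (-(g * h)) with hρ
  have hρ1 : ρ ≤ 1 := Real.exp_le_one_iff.2 (by nlinarith)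
  have hρ0 : 0 < ρ := Real.exp_pos _
  have hroots : ∀ z ∈ (P.map (RingHom.id ℂ)).roots, ‖z‖ ≤ ρ := by
    intro z hz
    rw [Polynomial.map_id] at hz
    have hz1 : P.IsRoot z := (Polynomial.mem_roots'.1 hz).2
    have hz2 : Module.End.HasEigenvalue (E : Module.End ℂ H) z :=
      (Module.End.hasEigenvalue_iff_isRoot_charpoly _ _).2 hz1
    have hz3 : z ∈ spectrum ℂ E := by
      rw [ContinuousLinearMap.spectrum_eq]
      exact Module.End.hasEigenvalue_iff_mem_spectrum.1 hz2
    obtain ⟨lam, hlam, rfl⟩ := spec_exp T h z hz3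
    rw [Complex.norm_exp, hρ]
    apply Real.exp_le_exp.2
    have := hT lam hlam
    simp only [Complex.re_ofReal_mul]
    nlinarith
  have hcoef : ∀ j, ‖P.coeff j‖ ≤ ρ ^ (n - j) * n.choose j := by
    intro j
    have := Polynomial.coeff_le_of_roots_le (f := RingHom.id ℂ) (B := ρ) j hPm
      (IsAlgClosed.splits _) hroots
    rw [Polynomial.map_id, hPn] at this
    exact this
  refine ⟨fun j => -P.coeff j, ?_, ?_⟩
  · have h1 : ∀ j ∈ Finset.range n, ‖-P.coeff j‖ ≤ (n.choose j : ℝ) * ρ := by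
      intro j hj
      rw [norm_neg]
      refine (hcoef j).trans ?_
      rw [mul_comm]
      apply mul_le_mul_of_nonneg_left _ (by positivity)
      have hj' : 1 ≤ n - j := by
        have := Finset.mem_range.1 hj
        omega
      calc ρ ^ (n - j) ≤ ρ ^ 1 := pow_le_pow_of_le_one hρ0.le hρ1 hj'
        _ = ρ := pow_one _
    refine (Finset.sum_le_sum h1).trans ?_
    rw [← Finset.sum_mul]
    apply mul_le_mul_of_nonneg_right _ hρ0.le
    have h2 : (∑ j ∈ Finset.range (n + 1), (n.choose j : ℝ)) = 2 ^ n := by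
      exact_mod_cast Nat.sum_range_choose n
    rw [← h2]
    apply Finset.sum_le_sum_of_subset_of_nonneg
    · intro x hx
      simp only [Finset.mem_range] at *
      omega
    · intros
      positivity
  · intro t
    have hCH : Polynomial.aeval (E : Module.End ℂ H) P = 0 := LinearMap.aeval_self_charpoly _
    have hCH2 : Polynomial.aeval E P = 0 := by
      have key : (ContinuousLinearMap.toLinearMapRingHom (Polynomial.aeval E P) : H →ₗ[ℂ] H) =
          Polynomial.aeval (E : Module.End ℂ H) P := by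
        rw [Polynomial.aeval_eq_sum_range, Polynomial.aeval_eq_sum_range, map_sum]
        refine Finset.sum_congr rfl fun i _ => ?_
        ext v
        simp only [ContinuousLinearMap.toLinearMapRingHom_apply, ContinuousLinearMap.coe_coe,
          smul_apply, LinearMap.smul_apply]
        congr 1
        exact coe_pow_apply E i v
      rw [hCH] at key
      ext v
      have := congrArg (fun f : H →ₗ[ℂ] H => f v) key
      simpa using this
    rw [Polynomial.aeval_eq_sum_range, hPn, Finset.sum_range_succ] at hCH2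
    have hlead : P.coeff n = 1 := by
      rw [← hPn]
      exact hPm
    rw [hlead, one_smul] at hCH2
    have hEn : E ^ n = ∑ j ∈ Finset.range n, (-P.coeff j) • E ^ j := by
      rw [eq_comm, ← sub_eq_zero]
      simp only [neg_smul, Finset.sum_neg_distrib]
      rw [← neg_eq_zero]
      rw [← hCH2]
      abel
    have h3 : ∀ j : ℕ, NormedSpace.exp (((t + j * h : ℝ) : ℂ) • T) =
        NormedSpace.exp ((t : ℂ) • T) * E ^ j := by
      intro j
      rw [hE, ← exp_nat_smul, ← exp_add_smul]
      congr 2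
      push_cast
      ring
    rw [h3 n, hEn, Finset.mul_sum]
    refine Finset.sum_congr rfl fun j _ => ?_
    rw [h3 j, mul_smul_comm]

end Pool.Agent.R333.CF
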