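import Mathlib
import Pool.Agent.R333.CF1

set_option linter.style.haveILetI false
set_option linter.unusedSectionVars false

open MeasureTheory Filter Set Topology

namespace Pool.Agent.R333.CF

variable {H : Type*} [NormedAddCommGroup H] [InnerProductSpace ℂ H] [FiniteDimensional ℂ H]

/-- Cauchy-Schwarz for a function whose square has integral at most `K` on the half line. -/
lemma cs_interval (φ : ℝ → ℝ) (hφ : Continuous φ) (K : ℝ)
    (hint : IntegrableOn (fun t => φ t ^ 2) (Ioi 0)) (hK : ∫ t in Ioi (0 : ℝ), φ t ^ 2 ≤ K)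
    (u v : ℝ) (hu : 0 ≤ u) (huv : u ≤ v) :
    ∫ t in u..v, φ t ≤ Real.sqrt ((v - u) * K) := by
  have h1 : ∫ t in u..v, φ t ^ 2 ≤ K := by
    rw [intervalIntegral.integral_of_le huv]
    refine (setIntegral_mono_set hint ?_ ?_).trans hK
    · exact Eventually.of_forall fun t => sq_nonneg _
    · exact Eventually.of_forall fun t ht => lt_of_le_of_lt hu ht.1
  apply Real.le_sqrt_of_sq_le
  rcases huv.eq_or_lt with rfl | huv'
  · simp
  set I := ∫ t in u..v, φ t with hI
  have h2 : 0 ≤ ∫ t in u..v, (φ t - I / (v - u)) ^ 2 :=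
    intervalIntegral.integral_nonneg huv fun t _ => sq_nonneg _
  have h3 : ∫ t in u..v, (φ t - I / (v - u)) ^ 2 =
      (∫ t in u..v, φ t ^ 2) - 2 * (I / (v - u)) * I + (I / (v - u)) ^ 2 * (v - u) := by
    have e : (fun t => (φ t - I / (v - u)) ^ 2) =
        fun t => φ t ^ 2 - 2 * (I / (v - u)) * φ t + (I / (v - u)) ^ 2 := by
      ext t; ring
    have i1 : IntervalIntegrable (fun t => φ t ^ 2) volume u v :=
      (hφ.pow 2).intervalIntegrable _ _
    have i2 : IntervalIntegrable (fun t => 2 * (I / (v - u)) * φ t) volume u v :=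
      (continuous_const.mul hφ).intervalIntegrable _ _
    have i3 : IntervalIntegrable (fun _ : ℝ => (I / (v - u)) ^ 2) volume u v :=
      continuous_const.intervalIntegrable _ _
    rw [e, intervalIntegral.integral_add (i1.sub i2) i3, intervalIntegral.integral_sub i1 i2,
      intervalIntegral.integral_const_mul, intervalIntegral.integral_const, ← hI]
    simp only [smul_eq_mul]
    ring
  rw [h3] at h2
  have hpos : 0 < v - u := by linarith
  have h4 : 2 * (I / (v - u)) * I - (I / (v - u)) ^ 2 * (v - u) = I ^ 2 / (v - u) := by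
    field_simp
    ring
  have h5 : I ^ 2 / (v - u) ≤ K := by linarith
  rw [div_le_iff₀ hpos] at h5
  linarith [mul_comm K (v - u)]

lemma hasDerivAt_exp (T : H →L[ℂ] H) (w : H) (t : ℝ) :
    HasDerivAt (fun s : ℝ => (inner ℂ w (NormedSpace.exp ((s : ℂ) • T) w) : ℂ))
      (inner ℂ w (T (NormedSpace.exp ((t : ℂ) • T) w))) t := by
  haveI : CompleteSpace H := FiniteDimensional.complete ℂ H
  have h1 : HasDerivAt (fun u : ℂ => NormedSpace.exp (u • T))
      (T * NormedSpace.exp ((t : ℂ) • T)) (t : ℂ) := hasDerivAt_exp_smul_const' T (t : ℂ)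
  have h2 : HasDerivAt (fun s : ℝ => NormedSpace.exp ((s : ℂ) • T))
      (T * NormedSpace.exp ((t : ℂ) • T)) t := by
    have h2' := HasDerivAt.scomp t h1 Complex.ofRealCLM.hasDerivAt
    simp only [Complex.ofRealCLM_apply, Complex.ofReal_one, one_smul] at h2'
    exact h2'
  have h3 : HasDerivAt (fun s : ℝ => NormedSpace.exp ((s : ℂ) • T) w)
      ((T * NormedSpace.exp ((t : ℂ) • T)) w) t := by
    have := (ContinuousLinearMap.apply ℂ H w).hasFDerivAt.restrictScalars ℝ
      |>.comp_hasDerivAt t h2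
    exact this
  have h4 := ((innerSL ℂ w).hasFDerivAt.restrictScalars ℝ).comp_hasDerivAt t h3
  exact h4

/-- The main inequality. -/
lemma main_ineq [Nontrivial H] (T : H →L[ℂ] H) (g : ℝ) (hg : 0 ≤ g)
    (hT : ∀ z ∈ spectrum ℂ T, z.re ≤ -g) (w : H) (hw : ‖w‖ = 1) (a : ℝ) (ha0 : 0 ≤ a)
    (ha : ∀ y, ‖(inner ℂ w (T y) : ℂ)‖ ≤ a * ‖y‖) (K : ℝ)
    (hint : IntegrableOn (fun t : ℝ => ‖NormedSpace.exp ((t : ℂ) • T) w‖ ^ 2) (Ioi 0))
    (hK : ∫ t in Ioi (0 : ℝ), ‖NormedSpace.exp ((t : ℂ) • T) w‖ ^ 2 ≤ K)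
    (h : ℝ) (hh : 0 < h) :
    h ≤ 2 ^ (Module.finrank ℂ H) * Real.exp (-(g * h)) * Real.sqrt (h * K) +
      h * (a * Real.sqrt ((Module.finrank ℂ H + 1) * h * K)) := by
  haveI : CompleteSpace H := FiniteDimensional.complete ℂ H
  set n := Module.finrank ℂ H with hn
  obtain ⟨c, hc, hrec⟩ := exists_recursion T g hg hT h hh.le
  rw [← hn] at hc hrec
  set φ : ℝ → ℝ := fun t => ‖NormedSpace.exp ((t : ℂ) • T) w‖ with hφ
  have hφc : Continuous φ := by
    have := (ContinuousLinearMap.apply ℂ H w).continuous.comp (continuous_exp_smul T)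
    exact this.norm
  have hcs := cs_interval φ hφc K hint hK
  have hK0 : 0 ≤ K := le_trans (by positivity) hK
  -- pointwise inequality
  have hpt : ∀ τ : ℝ, 0 ≤ τ → 1 ≤ φ τ + a * Real.sqrt (τ * K) := by
    intro τ hτ
    have h1 : ∫ t in (0 : ℝ)..τ, (inner ℂ w (T (NormedSpace.exp ((t : ℂ) • T) w)) : ℂ) =
        inner ℂ w (NormedSpace.exp ((τ : ℂ) • T) w) -
          inner ℂ w (NormedSpace.exp (((0 : ℝ) : ℂ) • T) w) := by
      apply intervalIntegral.integral_eq_sub_of_hasDerivAt
      · intro t _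
        exact hasDerivAt_exp T w t
      · apply Continuous.intervalIntegrable
        have := (ContinuousLinearMap.apply ℂ H w).continuous.comp (continuous_exp_smul T)
        exact (innerSL ℂ w).continuous.comp (T.continuous.comp this)
    have h2 : ‖∫ t in (0 : ℝ)..τ, (inner ℂ w (T (NormedSpace.exp ((t : ℂ) • T) w)) : ℂ)‖ ≤
        a * Real.sqrt (τ * K) := by
      refine (intervalIntegral.norm_integral_le_integral_norm hτ).trans ?_
      have h3 : ∫ t in (0 : ℝ)..τ, ‖(inner ℂ w (T (NormedSpace.exp ((t : ℂ) • T) w)) : ℂ)‖ ≤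
          ∫ t in (0 : ℝ)..τ, a * φ t := by
        apply intervalIntegral.integral_mono_on hτ
        · apply Continuous.intervalIntegrable
          have := (ContinuousLinearMap.apply ℂ H w).continuous.comp (continuous_exp_smul T)
          exact ((innerSL ℂ w).continuous.comp (T.continuous.comp this)).norm
        · exact (continuous_const.mul hφc).intervalIntegrable _ _
        · intro t _
          exact ha _
      refine h3.trans ?_
      rw [intervalIntegral.integral_const_mul]
      apply mul_le_mul_of_nonneg_left _ ha0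
      have := hcs 0 τ le_rfl hτ
      simpa using this
    have h4 : (inner ℂ w (NormedSpace.exp (((0 : ℝ) : ℂ) • T) w) : ℂ) = 1 := by
      simp [inner_self_eq_norm_sq_to_K, hw]
    rw [h4] at h1
    have h5 : ‖(inner ℂ w (NormedSpace.exp ((τ : ℂ) • T) w) : ℂ)‖ ≤ φ τ := by
      refine (norm_inner_le_norm _ _).trans ?_
      rw [hw, one_mul]
    have h6 : (1 : ℂ) = inner ℂ w (NormedSpace.exp ((τ : ℂ) • T) w) -
        ∫ t in (0 : ℝ)..τ, (inner ℂ w (T (NormedSpace.exp ((t : ℂ) • T) w)) : ℂ) := by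
      rw [h1]; ring
    have h7 : (1 : ℝ) ≤ ‖(inner ℂ w (NormedSpace.exp ((τ : ℂ) • T) w) : ℂ)‖ +
        ‖∫ t in (0 : ℝ)..τ, (inner ℂ w (T (NormedSpace.exp ((t : ℂ) • T) w)) : ℂ)‖ := by
      have := norm_sub_le (inner ℂ w (NormedSpace.exp ((τ : ℂ) • T) w) : ℂ)
        (∫ t in (0 : ℝ)..τ, (inner ℂ w (T (NormedSpace.exp ((t : ℂ) • T) w)) : ℂ))
      rw [← h6, norm_one] at this
      exact this
    linarith
  -- the window estimate
  have hwin : ∫ t in (n * h : ℝ)..(n * h + h), φ t ≤
      2 ^ n * Real.exp (-(g * h)) * Real.sqrt (h * K) := by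
    have e1 : ∫ t in (n * h : ℝ)..(n * h + h), φ t = ∫ t in (0 : ℝ)..h, φ (t + n * h) := by
      rw [intervalIntegral.integral_comp_add_right]
      congr 1 <;> ring
    have e2 : ∫ t in (0 : ℝ)..h, φ (t + n * h) ≤
        ∫ t in (0 : ℝ)..h, ∑ j ∈ Finset.range n, ‖c j‖ * φ (t + j * h) := by
      apply intervalIntegral.integral_mono_on hh.le
      · exact (hφc.comp (by fun_prop)).intervalIntegrable _ _
      · apply Continuous.intervalIntegrable
        apply continuous_finsetSum
        intro j _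
        exact continuous_const.mul (hφc.comp (by fun_prop))
      · intro t _
        simp only [hφ]
        rw [hrec t]
        rw [sum_apply]
        refine (norm_sum_le _ _).trans ?_
        apply Finset.sum_le_sum
        intro j _
        rw [smul_apply, norm_smul]
    rw [e1]
    refine e2.trans ?_
    rw [intervalIntegral.integral_finsetSum]
    · have e3 : ∀ j ∈ Finset.range n, ∫ t in (0 : ℝ)..h, ‖c j‖ * φ (t + j * h) ≤
          ‖c j‖ * Real.sqrt (h * K) := by
        intro j _
        rw [intervalIntegral.integral_const_mul]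
        apply mul_le_mul_of_nonneg_left _ (norm_nonneg _)
        rw [intervalIntegral.integral_comp_add_right]
        have := hcs (0 + j * h) (h + j * h) (by positivity) (by linarith)
        refine this.trans (le_of_eq ?_)
        congr 2
        ring
      refine (Finset.sum_le_sum e3).trans ?_
      rw [← Finset.sum_mul]
      exact mul_le_mul_of_nonneg_right hc (Real.sqrt_nonneg _)
    · intro j _
      exact (continuous_const.mul (hφc.comp (by fun_prop))).intervalIntegrable _ _
  -- integrate the pointwise inequality over the window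
  have hfin : ∫ t in (n * h : ℝ)..(n * h + h), (1 : ℝ) ≤
      ∫ t in (n * h : ℝ)..(n * h + h), (φ t + a * Real.sqrt ((n + 1) * h * K)) := by
    apply intervalIntegral.integral_mono_on (by linarith)
    · exact continuous_const.intervalIntegrable _ _
    · exact (hφc.add continuous_const).intervalIntegrable _ _
    · intro t ht
      have ht0 : 0 ≤ t := le_trans (by positivity) ht.1
      refine (hpt t ht0).trans ?_
      have : Real.sqrt (t * K) ≤ Real.sqrt ((n + 1) * h * K) := by
        apply Real.sqrt_le_sqrt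
        apply mul_le_mul_of_nonneg_right _ hK0
        have := ht.2
        linarith
      have := mul_le_mul_of_nonneg_left this ha0
      linarith
  rw [intervalIntegral.integral_add (hφc.intervalIntegrable _ _)
    (continuous_const.intervalIntegrable _ _), intervalIntegral.integral_const,
    intervalIntegral.integral_const] at hfin
  simp only [smul_eq_mul, add_sub_cancel_left, mul_one] at hfin
  linarith

/-- Solved form of the main inequality. -/
lemma solved_ineq (n : ℕ) (g a K h : ℝ) (hh : 0 < h) (ha : 0 ≤ a) (hK : 0 ≤ K)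
    (hyp : h ≤ 2 ^ n * Real.exp (-(g * h)) * Real.sqrt (h * K) +
      h * (a * Real.sqrt ((n + 1) * h * K))) :
    h ≤ K * (2 * 4 ^ n * Real.exp (-(g * h)) ^ 2 + 2 * a ^ 2 * (n + 1) * h ^ 2) := by
  set ρ := Real.exp (-(g * h)) with hρ
  have hρ0 : 0 < ρ := Real.exp_pos _
  set S1 := Real.sqrt (h * K) with hS1
  set S2 := Real.sqrt ((n + 1) * h * K) with hS2
  have s1 : S1 ^ 2 = h * K := Real.sq_sqrt (by positivity)
  have s2 : S2 ^ 2 = (n + 1) * h * K := Real.sq_sqrt (by positivity)
  have h1 : h ^ 2 ≤ 2 * (2 ^ n * ρ * S1) ^ 2 + 2 * (h * (a * S2)) ^ 2 := by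
    have hb : 0 ≤ 2 ^ n * ρ * S1 + h * (a * S2) := by positivity
    have := pow_le_pow_left₀ hh.le hyp 2
    nlinarith [sq_nonneg (2 ^ n * ρ * S1 - h * (a * S2))]
  have h2 : (2 ^ n * ρ * S1) ^ 2 = 4 ^ n * ρ ^ 2 * (h * K) := by
    rw [mul_pow, mul_pow, s1, ← pow_mul, mul_comm n 2, pow_mul]
    norm_num
  have h3 : (h * (a * S2)) ^ 2 = h ^ 2 * a ^ 2 * ((n + 1) * h * K) := by
    rw [mul_pow, mul_pow, s2]
    ring
  rw [h2, h3] at h1
  have h4 : h * h ≤ h * (K * (2 * 4 ^ n * ρ ^ 2 + 2 * a ^ 2 * (n + 1) * h ^ 2)) := by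
    nlinarith
  exact le_of_mul_le_mul_left h4 hh

end Pool.Agent.R333.CF
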