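import Mathlib
import Pool.Agent.Helper256.KM.Mertens

/-!
# A second moment estimate for residue classes modulo primes

`turan`: if `P` is a finite set of primes and `v p` a residue for each `p ∈ P`, then the number of
`p ∈ P` with `m ≡ v p (mod p)` is close to `∑ p ∈ P, 1 / p` for most `m ≤ M`.
-/

set_option autoImplicit false

namespace Pool.Agent.R333.Turan

open Finset

/-- number of `m` in `(0, M]` in a residue class -/
lemma card_mod (M r v : ℕ) (hr : 0 < r) :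
    |(((Ioc 0 M).filter (fun m => m ≡ v [MOD r])).card : ℝ) - (M : ℝ) / r| ≤ 1 := by
  have h := Nat.Ioc_filter_modEq_card 0 M hr v
  have h1 : ((((Ioc 0 M).filter (fun m => m ≡ v [MOD r])).card : ℤ) : ℝ) =
      ((max (⌊((M : ℚ) - v) / r⌋ - ⌊(((0 : ℕ) : ℚ) - v) / r⌋) 0 : ℤ) : ℝ) := by
    rw [h]
  have hrq : (0 : ℚ) < r := by exact_mod_cast hr
  have e : ((M : ℚ) - v) / r = (M : ℚ) / r + (((0 : ℕ) : ℚ) - v) / r := by
    field_simp
    push_cast
    ring
  have hM : (0 : ℚ) ≤ (M : ℚ) / r := by positivity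
  set a : ℚ := ((M : ℚ) - v) / r with ha
  set b : ℚ := (((0 : ℕ) : ℚ) - v) / r with hb
  have f1 := Int.floor_le a
  have f2 := Int.lt_floor_add_one a
  have f3 := Int.floor_le b
  have f4 := Int.lt_floor_add_one b
  have hab : b ≤ a := by linarith
  have hfl : ⌊b⌋ ≤ ⌊a⌋ := Int.floor_le_floor hab
  rw [max_eq_left (by linarith)] at h1
  have h2 : (((Ioc 0 M).filter (fun m => m ≡ v [MOD r])).card : ℝ) = ((⌊a⌋ - ⌊b⌋ : ℤ) : ℝ) := by
    rw [← h1]; norm_cast
  rw [h2]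
  have e2 : (M : ℝ) / r = ((a - b : ℚ) : ℝ) := by
    rw [e]; push_cast; ring
  rw [e2]
  have g1 : ((⌊a⌋ - ⌊b⌋ : ℤ) : ℚ) - (a - b) ≤ 1 := by push_cast; linarith
  have g2 : -1 ≤ ((⌊a⌋ - ⌊b⌋ : ℤ) : ℚ) - (a - b) := by push_cast; linarith
  rw [abs_le]
  constructor
  · exact_mod_cast g2
  · exact_mod_cast g1

/-- number of `p ∈ P` with `m ≡ v p (mod p)` -/
noncomputable def A (P : Finset ℕ) (v : ℕ → ℕ) (m : ℕ) : ℝ :=
  ∑ p ∈ P, if m ≡ v p [MOD p] then (1 : ℝ) else 0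

lemma turan (P : Finset ℕ) (hP : ∀ p ∈ P, p.Prime) (v : ℕ → ℕ) (M : ℕ) :
    ∑ m ∈ Ioc 0 M, (A P v m - ∑ p ∈ P, (1 : ℝ) / p) ^ 2 ≤
      M * (∑ p ∈ P, (1 : ℝ) / p) + 4 * (P.card : ℝ) ^ 2 := by
  set S : ℝ := ∑ p ∈ P, (1 : ℝ) / p with hS
  have hSn : 0 ≤ S := Finset.sum_nonneg fun p _ => by positivity
  have hSc : S ≤ P.card := by
    have : S ≤ ∑ p ∈ P, (1 : ℝ) := Finset.sum_le_sum fun p hp => by
      have := (hP p hp).one_lt
      have h1 : (1 : ℝ) ≤ p := by exact_mod_cast this.le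
      rw [div_le_one (by linarith)]
      exact h1
    simpa using this
  have hM0 : (0 : ℝ) ≤ M := Nat.cast_nonneg M
  -- first moment
  have h1 : (M : ℝ) * S - P.card ≤ ∑ m ∈ Ioc 0 M, A P v m := by
    unfold A
    rw [Finset.sum_comm]
    have : ∀ p ∈ P, (M : ℝ) * (1 / p) - 1 ≤ ∑ m ∈ Ioc 0 M, if m ≡ v p [MOD p] then (1 : ℝ) else 0 := by
      intro p hp
      rw [← Finset.sum_filter, Finset.sum_const, nsmul_eq_mul, mul_one]
      have := card_mod M p (v p) (hP p hp).pos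
      rw [abs_le] at this
      have h2 : (M : ℝ) * (1 / p) = (M : ℝ) / p := by ring
      linarith [this.1]
    calc (M : ℝ) * S - P.card = ∑ p ∈ P, ((M : ℝ) * (1 / p) - 1) := by
          rw [Finset.sum_sub_distrib, ← Finset.mul_sum]; simp [hS]
      _ ≤ _ := Finset.sum_le_sum this
  -- second moment
  have h2 : ∑ m ∈ Ioc 0 M, A P v m ^ 2 ≤ M * S + M * S ^ 2 + (P.card : ℝ) ^ 2 + P.card := by
    have hexp : ∀ m, A P v m ^ 2 = ∑ p ∈ P, ∑ p' ∈ P,
        if (m ≡ v p [MOD p] ∧ m ≡ v p' [MOD p']) then (1 : ℝ) else 0 := by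
      intro m
      unfold A
      rw [sq, Finset.sum_mul_sum]
      refine Finset.sum_congr rfl fun p _ => Finset.sum_congr rfl fun p' _ => ?_
      by_cases a : m ≡ v p [MOD p] <;> by_cases b : m ≡ v p' [MOD p'] <;> simp [a, b]
    simp_rw [hexp]
    rw [Finset.sum_comm]
    have hterm : ∀ p ∈ P, ∀ p' ∈ P, (∑ m ∈ Ioc 0 M,
        if (m ≡ v p [MOD p] ∧ m ≡ v p' [MOD p']) then (1 : ℝ) else 0) ≤
        (if p = p' then (M : ℝ) * (1 / p) + 1 else 0) + ((M : ℝ) * ((1 / p) * (1 / p')) + 1) := by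
      intro p hp p' hp'
      rw [← Finset.sum_filter, Finset.sum_const, nsmul_eq_mul, mul_one]
      have hpos := (hP p hp).pos
      have hpos' := (hP p' hp').pos
      by_cases h : p = p'
      · subst h
        rw [if_pos rfl]
        have hc := card_mod M p (v p) hpos
        rw [abs_le] at hc
        have hsub : (((Ioc 0 M).filter (fun m => m ≡ v p [MOD p] ∧ m ≡ v p [MOD p])).card : ℝ) ≤
            ((Ioc 0 M).filter (fun m => m ≡ v p [MOD p])).card := by
          exact_mod_cast Finset.card_le_card (fun m hm => by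
            rw [Finset.mem_filter] at hm ⊢
            exact ⟨hm.1, hm.2.1⟩)
        have e : (M : ℝ) * (1 / p) = (M : ℝ) / p := by ring
        have : (0 : ℝ) ≤ (M : ℝ) * ((1 / p) * (1 / p)) + 1 := by positivity
        linarith [hc.2]
      · rw [if_neg h, zero_add]
        have hcop : Nat.Coprime p p' := (Nat.coprime_primes (hP p hp) (hP p' hp')).2 h
        obtain ⟨w, hw1, hw2⟩ := Nat.chineseRemainder hcop (v p) (v p')
        have hc := card_mod M (p * p') w (Nat.mul_pos hpos hpos')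
        rw [abs_le] at hc
        have hsub : (((Ioc 0 M).filter (fun m => m ≡ v p [MOD p] ∧ m ≡ v p' [MOD p'])).card : ℝ) ≤
            ((Ioc 0 M).filter (fun m => m ≡ w [MOD (p * p')])).card := by
          exact_mod_cast Finset.card_le_card (fun m hm => by
            rw [Finset.mem_filter] at hm ⊢
            refine ⟨hm.1, ?_⟩
            rw [← Nat.modEq_and_modEq_iff_modEq_mul hcop]
            exact ⟨hm.2.1.trans hw1.symm, hm.2.2.trans hw2.symm⟩)
        have e : (M : ℝ) * ((1 / p) * (1 / p')) = (M : ℝ) / ((p * p' : ℕ) : ℝ) := by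
          push_cast
          field_simp
        linarith [hc.2]
    calc ∑ p ∈ P, ∑ m ∈ Ioc 0 M, ∑ p' ∈ P,
          (if (m ≡ v p [MOD p] ∧ m ≡ v p' [MOD p']) then (1 : ℝ) else 0)
        = ∑ p ∈ P, ∑ p' ∈ P, ∑ m ∈ Ioc 0 M,
          (if (m ≡ v p [MOD p] ∧ m ≡ v p' [MOD p']) then (1 : ℝ) else 0) :=
          Finset.sum_congr rfl fun p _ => Finset.sum_comm
      _ ≤ ∑ p ∈ P, ∑ p' ∈ P, ((if p = p' then (M : ℝ) * (1 / p) + 1 else 0) +
            ((M : ℝ) * ((1 / p) * (1 / p')) + 1)) :=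
          Finset.sum_le_sum fun p hp => Finset.sum_le_sum fun p' hp' => hterm p hp p' hp'
      _ = M * S + M * S ^ 2 + (P.card : ℝ) ^ 2 + P.card := by
          simp_rw [Finset.sum_add_distrib, Finset.sum_ite_eq]
          have e1 : ∑ p ∈ P, (if p ∈ P then ((M : ℝ) * (1 / p) + 1) else 0) = M * S + P.card := by
            rw [Finset.sum_congr rfl (fun p hp => if_pos hp), Finset.sum_add_distrib, ← Finset.mul_sum]
            simp [hS]
          have e2 : ∑ p ∈ P, ∑ p' ∈ P, (M : ℝ) * ((1 / p) * (1 / p')) = M * S ^ 2 := by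
            simp_rw [← Finset.mul_sum]
            rw [sq, ← Finset.sum_mul]
          rw [e1, e2]
          simp
          ring
  have h3 : ∑ m ∈ Ioc 0 M, (A P v m - S) ^ 2 =
      ∑ m ∈ Ioc 0 M, A P v m ^ 2 - 2 * S * ∑ m ∈ Ioc 0 M, A P v m + M * S ^ 2 := by
    have : ∀ m ∈ Ioc 0 M, (A P v m - S) ^ 2 = A P v m ^ 2 - 2 * S * A P v m + S ^ 2 := by
      intro m _; ring
    rw [Finset.sum_congr rfl this, Finset.sum_add_distrib, Finset.sum_sub_distrib, ← Finset.mul_sum]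
    simp
  rw [h3]
  have h4 : 2 * S * ((M : ℝ) * S - P.card) ≤ 2 * S * ∑ m ∈ Ioc 0 M, A P v m :=
    mul_le_mul_of_nonneg_left h1 (by positivity)
  have hc1 : (P.card : ℝ) ≤ (P.card : ℝ) ^ 2 := by
    have : P.card ≤ P.card ^ 2 := Nat.le_self_pow (by norm_num) _
    exact_mod_cast this
  have hc2 : S * P.card ≤ (P.card : ℝ) ^ 2 := by
    rw [sq]
    exact mul_le_mul_of_nonneg_right hSc (Nat.cast_nonneg _)
  nlinarith

/-- Chebyshev: most `m` have `A P v m ≥ (7 / 8) S` -/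
lemma few (P : Finset ℕ) (hP : ∀ p ∈ P, p.Prime) (v : ℕ → ℕ) (M : ℕ) (S : ℝ)
    (hS : S = ∑ p ∈ P, (1 : ℝ) / p) (hS0 : 0 < S) (hcard : (P.card : ℝ) ^ 2 ≤ M) :
    (((Ioc 0 M).filter (fun m => A P v m < 7 / 8 * S)).card : ℝ) ≤ 64 * (S + 4) / S ^ 2 * M := by
  have h := turan P hP v M
  rw [← hS] at h
  have h1 : (((Ioc 0 M).filter (fun m => A P v m < 7 / 8 * S)).card : ℝ) * (S / 8) ^ 2 ≤
      ∑ m ∈ Ioc 0 M, (A P v m - S) ^ 2 := by
    calc (((Ioc 0 M).filter (fun m => A P v m < 7 / 8 * S)).card : ℝ) * (S / 8) ^ 2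
        = ∑ m ∈ (Ioc 0 M).filter (fun m => A P v m < 7 / 8 * S), (S / 8) ^ 2 := by simp
      _ ≤ ∑ m ∈ (Ioc 0 M).filter (fun m => A P v m < 7 / 8 * S), (A P v m - S) ^ 2 := by
          refine Finset.sum_le_sum fun m hm => ?_
          rw [Finset.mem_filter] at hm
          have := hm.2
          have h2 : S / 8 ≤ S - A P v m := by linarith
          calc (S / 8) ^ 2 ≤ (S - A P v m) ^ 2 := pow_le_pow_left₀ (by positivity) h2 2
            _ = (A P v m - S) ^ 2 := by ring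
      _ ≤ _ := Finset.sum_le_sum_of_subset_of_nonneg (Finset.filter_subset _ _)
          fun m _ _ => sq_nonneg _
  have hS2 : 0 < S ^ 2 := by positivity
  rw [show 64 * (S + 4) / S ^ 2 * M = (64 * (S + 4) * M) / S ^ 2 by ring, le_div_iff₀ hS2]
  nlinarith

end Pool.Agent.R333.Turan
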