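import Mathlib
import Pool.Agent.R333.Turan

/-!
# Many prime factors of `a m (q m - 1)`
-/

set_option autoImplicit false

namespace Pool.Agent.R333.EKCore

open Finset Filter Topology Pool.Agent.R333.Turan

/-- the primes in `(q, √M]` -/
noncomputable def P (q M : ℕ) : Finset ℕ := (Ioc q (Nat.sqrt M)).filter Nat.Prime

lemma S_lower (q : ℕ) (hq : 1 ≤ q) : ∃ C : ℝ, ∀ᶠ M : ℕ in atTop,
    Real.log (Real.log ((q * M : ℕ) : ℝ)) - C ≤ ∑ p ∈ P q M, (1 : ℝ) / p := by
  obtain ⟨C, hC⟩ := Pool.Agent.Helper256.KM.mertens_inv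
  refine ⟨C + q + Real.log 4, ?_⟩
  filter_upwards [eventually_ge_atTop ((q + 3) ^ 2 + 16 * q)] with M hM
  set s := Nat.sqrt M with hs
  have hs1 : q + 3 ≤ s := by
    rw [hs, Nat.le_sqrt']
    omega
  have h1 := hC s (by omega)
  have hsplit : ∑ p ∈ (Icc 1 s).filter Nat.Prime, (1 : ℝ) / p =
      ∑ p ∈ (Icc 1 q).filter Nat.Prime, (1 : ℝ) / p + ∑ p ∈ P q M, (1 : ℝ) / p := by
    unfold P
    rw [← hs, ← Finset.sum_union]
    · congr 1
      ext p
      simp only [Finset.mem_filter, Finset.mem_Icc, Finset.mem_union, Finset.mem_Ioc]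
      constructor
      · rintro ⟨⟨h1, h2⟩, h3⟩
        by_cases h : p ≤ q
        · exact Or.inl ⟨⟨h1, h⟩, h3⟩
        · exact Or.inr ⟨⟨by omega, h2⟩, h3⟩
      · rintro (⟨⟨h1, h2⟩, h3⟩ | ⟨⟨h1, h2⟩, h3⟩)
        · exact ⟨⟨h1, by omega⟩, h3⟩
        · exact ⟨⟨by omega, h2⟩, h3⟩
    · rw [Finset.disjoint_left]
      intro p hp hp'
      simp only [Finset.mem_filter, Finset.mem_Icc, Finset.mem_Ioc] at hp hp'
      omega
  have hsmall : ∑ p ∈ (Icc 1 q).filter Nat.Prime, (1 : ℝ) / p ≤ q := by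
    calc ∑ p ∈ (Icc 1 q).filter Nat.Prime, (1 : ℝ) / p
        ≤ ∑ p ∈ (Icc 1 q).filter Nat.Prime, (1 : ℝ) := by
          refine Finset.sum_le_sum fun p hp => ?_
          rw [Finset.mem_filter, Finset.mem_Icc] at hp
          have : (1 : ℝ) ≤ p := by exact_mod_cast hp.1.1
          rw [div_le_one (by linarith)]
          exact this
      _ = (((Icc 1 q).filter Nat.Prime).card : ℝ) := by simp
      _ ≤ ((Icc 1 q).card : ℝ) := by exact_mod_cast Finset.card_filter_le _ _
      _ = q := by simp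
  -- `log s ≥ log (q M) / 4`
  have hlog : Real.log ((q * M : ℕ) : ℝ) ≤ 4 * Real.log s := by
    have h2 : M < (s + 1) * (s + 1) := Nat.lt_succ_sqrt M
    have h3 : q * M ≤ s ^ 4 := by
      have h4 : M ≤ 4 * s ^ 2 := by nlinarith
      have h5 : s ^ 2 ≤ M := by rw [hs]; exact Nat.sqrt_le' M
      have h6 : 4 * q ≤ s ^ 2 := by nlinarith
      calc q * M ≤ q * (4 * s ^ 2) := Nat.mul_le_mul_left _ h4
        _ = (4 * q) * s ^ 2 := by ring
        _ ≤ s ^ 2 * s ^ 2 := Nat.mul_le_mul_right _ h6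
        _ = s ^ 4 := by ring
    have h7 : (0 : ℝ) < ((q * M : ℕ) : ℝ) := by
      have : 0 < q * M := Nat.mul_pos (by omega) (by omega)
      exact_mod_cast this
    calc Real.log ((q * M : ℕ) : ℝ) ≤ Real.log ((s ^ 4 : ℕ) : ℝ) :=
          Real.log_le_log h7 (by exact_mod_cast h3)
      _ = 4 * Real.log s := by push_cast; rw [Real.log_pow]; norm_num
  have hqM : (3 : ℝ) ≤ ((q * M : ℕ) : ℝ) := by
    have : 3 ≤ q * M := by nlinarith
    exact_mod_cast this
  have hl0 : 0 < Real.log ((q * M : ℕ) : ℝ) := Real.log_pos (by linarith)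
  have hls0 : 0 < Real.log (s : ℝ) := by linarith
  have hll : Real.log (Real.log ((q * M : ℕ) : ℝ)) ≤ Real.log 4 + Real.log (Real.log s) := by
    rw [← Real.log_mul (by norm_num) hls0.ne']
    exact Real.log_le_log hl0 hlog
  rw [abs_le] at h1
  rw [hsplit] at h1
  linarith [h1.1]

lemma tendsto_loglog (q : ℕ) (hq : 1 ≤ q) :
    Tendsto (fun M : ℕ => Real.log (Real.log ((q * M : ℕ) : ℝ))) atTop atTop := by
  refine Real.tendsto_log_atTop.comp (Real.tendsto_log_atTop.comp ?_)
  refine tendsto_natCast_atTop_atTop.comp ?_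
  exact Filter.tendsto_id.const_mul_atTop' (by omega)

/-- For most `m ≤ M` the number `a m (q m - 1)` has at least `(3/2) log log (q M)` prime factors. -/
lemma count_good (a q : ℕ) (ha : 1 ≤ a) (hq : 2 ≤ q) : ∀ᶠ M : ℕ in atTop,
    (3 / 4 : ℝ) * M ≤ (((Ioc 0 M).filter (fun m =>
      3 / 2 * Real.log (Real.log ((q * M : ℕ) : ℝ)) ≤
        ((a * (m * (q * m - 1))).primeFactors.card : ℝ))).card : ℝ) := by
  obtain ⟨C, hC⟩ := S_lower q (by omega)
  have ht := tendsto_loglog q (by omega)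
  filter_upwards [hC, ht.eventually_ge_atTop (516 + 7 * |C|), eventually_ge_atTop 1] with M hM hL hM1
  set L := Real.log (Real.log ((q * M : ℕ) : ℝ)) with hLdef
  set S := ∑ p ∈ P q M, (1 : ℝ) / p with hS
  have hCabs := le_abs_self C
  have hCn := abs_nonneg C
  have hS516 : 516 ≤ S := by linarith
  have hS0 : 0 < S := by linarith
  have h74 : 3 / 2 * L ≤ 7 / 4 * S := by linarith
  have hPprime : ∀ p ∈ P q M, p.Prime := fun p hp => (Finset.mem_filter.1 hp).2
  have hPq : ∀ p ∈ P q M, q < p := fun p hp => (Finset.mem_Ioc.1 (Finset.mem_filter.1 hp).1).1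
  have hPcard : ((P q M).card : ℝ) ^ 2 ≤ M := by
    have h1 : (P q M).card ≤ Nat.sqrt M := by
      calc (P q M).card ≤ (Ioc q (Nat.sqrt M)).card := Finset.card_filter_le _ _
        _ ≤ Nat.sqrt M := by rw [Nat.card_Ioc]; omega
    have h2 : (P q M).card ^ 2 ≤ M := (Nat.pow_le_pow_left h1 2).trans (Nat.sqrt_le' M)
    exact_mod_cast h2
  -- the inverse of `q`
  have hinv : ∀ p : ℕ, ∃ v : ℕ, p ∈ P q M → q * v ≡ 1 [MOD p] := by
    intro p
    by_cases hp : p ∈ P q M
    · have hcop : Nat.Coprime q p := by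
        rw [Nat.coprime_comm, Nat.Prime.coprime_iff_not_dvd (hPprime p hp)]
        intro hd
        have := Nat.le_of_dvd (by omega) hd
        have := hPq p hp
        omega
      obtain ⟨v, _, hv⟩ := Nat.exists_mul_mod_eq_one_of_coprime hcop (hPprime p hp).one_lt
      refine ⟨v, fun _ => ?_⟩
      unfold Nat.ModEq
      rw [hv, Nat.mod_eq_of_lt (hPprime p hp).one_lt]
    · exact ⟨0, fun h => absurd h hp⟩
  choose v hv using hinv
  have hb1 := few (P q M) hPprime (fun _ => 0) M S hS hS0 hPcard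
  have hb2 := few (P q M) hPprime v M S hS hS0 hPcard
  have h8 : 64 * (S + 4) / S ^ 2 ≤ 1 / 8 := by
    rw [div_le_iff₀ (by positivity)]
    nlinarith
  have hM0 : (0 : ℝ) ≤ M := Nat.cast_nonneg M
  set B1 := (Ioc 0 M).filter (fun m => A (P q M) (fun _ => 0) m < 7 / 8 * S) with hB1
  set B2 := (Ioc 0 M).filter (fun m => A (P q M) v m < 7 / 8 * S) with hB2
  have hb1' : (B1.card : ℝ) ≤ 1 / 8 * M := hb1.trans (mul_le_mul_of_nonneg_right h8 hM0)
  have hb2' : (B2.card : ℝ) ≤ 1 / 8 * M := hb2.trans (mul_le_mul_of_nonneg_right h8 hM0)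
  set G := (Ioc 0 M).filter (fun m =>
      3 / 2 * L ≤ ((a * (m * (q * m - 1))).primeFactors.card : ℝ)) with hG
  have hcover : Ioc 0 M ⊆ G ∪ (B1 ∪ B2) := by
    intro m hm
    by_contra hcon
    rw [Finset.mem_union, Finset.mem_union, not_or, not_or] at hcon
    obtain ⟨h1, h2, h3⟩ := hcon
    have hm' := Finset.mem_Ioc.1 hm
    rw [hB1, Finset.mem_filter, not_and, not_lt] at h2
    rw [hB2, Finset.mem_filter, not_and, not_lt] at h3
    have h2' := h2 hm
    have h3' := h3 hm
    apply h1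
    rw [hG, Finset.mem_filter]
    refine ⟨hm, ?_⟩
    have hqm : 2 ≤ q * m := by nlinarith [hm'.1]
    have hne : a * (m * (q * m - 1)) ≠ 0 := by
      refine Nat.mul_ne_zero (by omega) (Nat.mul_ne_zero (by omega) (by omega))
    set T1 := (P q M).filter (fun p => m ≡ 0 [MOD p]) with hT1
    set T2 := (P q M).filter (fun p => m ≡ v p [MOD p]) with hT2
    have hA1 : A (P q M) (fun _ => 0) m = T1.card := by
      unfold A; rw [← Finset.sum_filter]; simp [hT1]
    have hA2 : A (P q M) v m = T2.card := by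
      unfold A; rw [← Finset.sum_filter]; simp [hT2]
    have hd1 : ∀ p ∈ T1, p ∣ m := by
      intro p hp
      rw [hT1, Finset.mem_filter] at hp
      exact (Nat.modEq_zero_iff_dvd).1 hp.2
    have hd2 : ∀ p ∈ T2, p ∣ q * m - 1 := by
      intro p hp
      rw [hT2, Finset.mem_filter] at hp
      have h4 : q * m ≡ 1 [MOD p] := (hp.2.mul_left q).trans (hv p hp.1)
      exact (Nat.modEq_iff_dvd' (by omega)).1 h4.symm
    have hdisj : Disjoint T1 T2 := by
      rw [Finset.disjoint_left]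
      intro p hp hp'
      have hpp := hPprime p (Finset.mem_filter.1 hp).1
      have h5 := (hd1 p hp).mul_left q
      have h6 := hd2 p hp'
      have h7 : p ∣ 1 := by
        have := (Nat.dvd_sub h5 h6)
        rwa [show q * m - (q * m - 1) = 1 by omega] at this
      exact hpp.one_lt.ne' (Nat.dvd_one.1 h7)
    have hsub : T1 ∪ T2 ⊆ (a * (m * (q * m - 1))).primeFactors := by
      intro p hp
      rw [Finset.mem_union] at hp
      rw [Nat.mem_primeFactors]
      rcases hp with hp | hp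
      · exact ⟨hPprime p (Finset.mem_filter.1 hp).1,
          ((hd1 p hp).mul_right _).mul_left _, hne⟩
      · exact ⟨hPprime p (Finset.mem_filter.1 hp).1,
          ((hd2 p hp).mul_left _).mul_left _, hne⟩
    have hc := Finset.card_le_card hsub
    rw [Finset.card_union_of_disjoint hdisj] at hc
    have hc' : (T1.card : ℝ) + T2.card ≤ ((a * (m * (q * m - 1))).primeFactors.card : ℝ) := by
      exact_mod_cast hc
    rw [hA1] at h2'
    rw [hA2] at h3'
    linarith
  have hcard := Finset.card_le_card hcover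
  have hcard2 : (Ioc 0 M).card ≤ G.card + (B1.card + B2.card) :=
    hcard.trans ((Finset.card_union_le _ _).trans (Nat.add_le_add_left (Finset.card_union_le _ _) _))
  rw [Nat.card_Ioc, Nat.sub_zero] at hcard2
  have hcard3 : (M : ℝ) ≤ G.card + (B1.card + B2.card) := by exact_mod_cast hcard2
  linarith

end Pool.Agent.R333.EKCore
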