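import Mathlib

set_option linter.style.haveILetI false
set_option linter.unusedSectionVars false

open Finset Matrix Polynomial

namespace Pool.Agent.R333.LQ

variable {n : ℕ}

/-- The determinant of a matrix of polynomials of degree at most two has degree at most `2 n`. -/
lemma natDegree_det_le (P : Matrix (Fin n) (Fin n) ℂ[X]) (hP : ∀ i j, (P i j).natDegree ≤ 2) :
    P.det.natDegree ≤ 2 * n := by
  rw [det_apply]
  apply natDegree_sum_le_of_forall_le
  intro g _
  calc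
    natDegree (Equiv.Perm.sign g • ∏ i : Fin n, P (g i) i) ≤ natDegree (∏ i : Fin n, P (g i) i) := by
      rcases Int.units_eq_one_or (Equiv.Perm.sign g) with sg | sg
      · rw [sg, one_smul]
      · rw [sg, Units.neg_smul, one_smul, natDegree_neg]
    _ ≤ ∑ i : Fin n, natDegree (P (g i) i) := natDegree_prod_le _ _
    _ ≤ Finset.univ.card • 2 := Finset.sum_le_card_nsmul _ _ 2 fun i _ => hP _ _
    _ = 2 * n := by simp [mul_comm]

lemma natDegree_adjugate_le (P : Matrix (Fin n) (Fin n) ℂ[X]) (hP : ∀ i j, (P i j).natDegree ≤ 2)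
    (i j : Fin n) : (P.adjugate i j).natDegree ≤ 2 * n := by
  rw [adjugate_apply]
  apply natDegree_det_le
  intro a b
  by_cases h : a = j
  · subst h
    rw [updateRow_self]
    by_cases h2 : i = b
    · subst h2
      simp
    · rw [Pi.single_eq_of_ne (Ne.symm h2)]
      simp
  · rw [updateRow_ne h]
    exact hP a b

/-- A polynomial of degree less than `N` has vanishing `N`-th differences. -/
lemma finite_diff (Q : ℂ[X]) (N : ℕ) (hQ : Q.natDegree < N) (τ L : ℂ) :
    ∑ k ∈ range (N + 1), ((-1 : ℤ) ^ (N - k) * N.choose k) • Q.eval (τ + k * L) = 0 := by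
  set R : ℂ[X] := Q.comp (C τ + X * C L) with hR
  have hRd : R.natDegree < N := by
    refine lt_of_le_of_lt (natDegree_comp_le) ?_
    have : (C τ + X * C L : ℂ[X]).natDegree ≤ 1 := by compute_degree
    nlinarith
  have h1 := Polynomial.fwdDiff_iter_eq_zero_of_degree_lt hRd
  have h2 := congrFun h1 0
  rw [fwdDiff_iter_eq_sum_shift] at h2
  rw [Pi.zero_apply] at h2
  rw [← h2]
  refine Finset.sum_congr rfl fun k _ => ?_
  congr 1
  rw [hR, eval_comp]
  congr 1
  simp only [eval_add, eval_C, eval_mul, eval_X, zero_add, nsmul_eq_mul, mul_one]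

/-- Consequence: an upper bound for one value by the others. -/
lemma finite_diff_bound (Q : ℂ[X]) (N : ℕ) (hQ : Q.natDegree < N) (τ L : ℂ) (b : ℝ)
    (hb : ∀ k : ℕ, 1 ≤ k → k ≤ N → ‖Q.eval (τ + k * L)‖ ≤ b) :
    ‖Q.eval τ‖ ≤ 2 ^ N * b := by
  have h1 := finite_diff Q N hQ τ L
  rw [Finset.sum_range_succ'] at h1
  have h2 : ((-1 : ℤ) ^ (N - 0) * N.choose 0) • Q.eval (τ + (0 : ℕ) * L) =
      - ∑ k ∈ range N, ((-1 : ℤ) ^ (N - (k + 1)) * N.choose (k + 1)) •
        Q.eval (τ + ((k + 1 : ℕ) : ℂ) * L) := by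
    linear_combination h1
  have h3 : ‖Q.eval τ‖ = ‖((-1 : ℤ) ^ (N - 0) * N.choose 0) • Q.eval (τ + (0 : ℕ) * L)‖ := by
    simp [zsmul_eq_mul]
  rw [h3, h2, norm_neg]
  refine (norm_sum_le _ _).trans ?_
  have h4 : ∀ k ∈ range N, ‖((-1 : ℤ) ^ (N - (k + 1)) * N.choose (k + 1)) •
        Q.eval (τ + ((k + 1 : ℕ) : ℂ) * L)‖ ≤ (N.choose (k + 1) : ℝ) * b := by
    intro k hk
    have hk' := Finset.mem_range.1 hk
    rw [zsmul_eq_mul, norm_mul]
    have : ‖(((-1 : ℤ) ^ (N - (k + 1)) * N.choose (k + 1) : ℤ) : ℂ)‖ = (N.choose (k + 1) : ℝ) := by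
      push_cast
      rw [norm_mul, norm_pow]
      simp
    rw [this]
    exact mul_le_mul_of_nonneg_left (hb (k + 1) (by omega) (by omega)) (by positivity)
  refine (Finset.sum_le_sum h4).trans ?_
  rw [← Finset.sum_mul]
  rcases Nat.eq_zero_or_pos N with rfl | hN
  · omega
  have hb0 : 0 ≤ b := (norm_nonneg _).trans (hb 1 le_rfl hN)
  apply mul_le_mul_of_nonneg_right _ hb0
  have h5 : (∑ k ∈ range (N + 1), (N.choose k : ℝ)) = 2 ^ N := by
    exact_mod_cast Nat.sum_range_choose N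
  rw [Finset.sum_range_succ'] at h5
  have : (0 : ℝ) ≤ (N.choose 0 : ℝ) := by positivity
  linarith

/-- The factorisation of the determinant. -/
lemma det_factor (A K X : Matrix (Fin n) (Fin n) ℂ) (hA : Aᴴ = -A) (hX : Xᴴ = X)
    (hXd : X.det ≠ 0) (hR : -A * X + X * A - X * K * X + 1 = 0) (s : ℂ) :
    ((s • (1 : Matrix (Fin n) (Fin n) ℂ) - A) * (s • 1 - A) - K).det =
      (s • (1 : Matrix (Fin n) (Fin n) ℂ) - (A - K * X)).det *
        (s • (1 : Matrix (Fin n) (Fin n) ℂ) + (A - K * X)ᴴ).det := by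
  set Acl := A - K * X with hAcl
  set S : Matrix (Fin n) (Fin n) ℂ := s • 1 with hS
  have hSX : ∀ Y : Matrix (Fin n) (Fin n) ℂ, Y * S = S * Y := by
    intro Y
    rw [hS, mul_smul_comm, smul_mul_assoc, mul_one, one_mul]
  have e1 : X * Acl = A * X - 1 := by
    rw [hAcl, mul_sub, ← mul_assoc]
    rw [← sub_eq_zero, ← hR]
    noncomm_ring
  have e2 : Aclᴴ * X = -(X * A) - 1 := by
    have h := congrArg conjTranspose e1
    rw [conjTranspose_mul, hX] at h
    rw [h, conjTranspose_sub (A * X) 1, conjTranspose_mul, hX, hA, conjTranspose_one]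
    noncomm_ring
  have f1 : ((S - A) * (S - A) - K) * X = ((S - A) * X - 1) * (S - Acl) := by
    have g1 : X * (S - Acl) = (S - A) * X + 1 := by
      rw [mul_sub, e1, hSX, sub_mul]
      abel
    have g2 : K * X = A - Acl := by rw [hAcl]; abel
    calc ((S - A) * (S - A) - K) * X = (S - A) * ((S - A) * X) - K * X := by noncomm_ring
      _ = (S - A) * (X * (S - Acl) - 1) - (A - Acl) := by rw [g1, g2, add_sub_cancel_right]
      _ = ((S - A) * X - 1) * (S - Acl) := by noncomm_ring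
  have f2 : X * ((S - A) * X - 1) = (S + Aclᴴ) * X * X := by
    have g1 : (S + Aclᴴ) * X = X * (S - A) - 1 := by
      rw [add_mul, e2, mul_sub, hSX]
      abel
    rw [g1]
    noncomm_ring
  have d1 := congrArg Matrix.det f1
  have d2 := congrArg Matrix.det f2
  simp only [det_mul] at d1 d2
  have d3 : ((S - A) * X - 1).det = (S + Aclᴴ).det * X.det := by
    apply mul_left_cancel₀ hXd
    rw [d2]
    ring
  have d4 : ((S - A) * (S - A) - K).det * X.det = ((S - Acl).det * (S + Aclᴴ).det) * X.det := by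
    rw [d1, d3]
    ring
  exact mul_right_cancel₀ hXd d4

/-- On the imaginary axis the determinant is a squared modulus. -/
lemma det_axis (A K X : Matrix (Fin n) (Fin n) ℂ) (hA : Aᴴ = -A) (hX : Xᴴ = X)
    (hXd : X.det ≠ 0) (hR : -A * X + X * A - X * K * X + 1 = 0) (t : ℝ) :
    (K - ((Complex.I * t) • (1 : Matrix (Fin n) (Fin n) ℂ) - A) *
      ((Complex.I * t) • 1 - A)).det =
      ((‖((Complex.I * t) • (1 : Matrix (Fin n) (Fin n) ℂ) - (A - K * X)).det‖ ^ 2 : ℝ) : ℂ) := by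
  set s : ℂ := Complex.I * t with hs
  have h1 := det_factor A K X hA hX hXd hR s
  have h2 : K - (s • (1 : Matrix (Fin n) (Fin n) ℂ) - A) * (s • 1 - A) =
      -((s • (1 : Matrix (Fin n) (Fin n) ℂ) - A) * (s • 1 - A) - K) := by abel
  have h3 : s • (1 : Matrix (Fin n) (Fin n) ℂ) + (A - K * X)ᴴ =
      -(s • (1 : Matrix (Fin n) (Fin n) ℂ) - (A - K * X))ᴴ := by
    have h3' : (s • (1 : Matrix (Fin n) (Fin n) ℂ) - (A - K * X))ᴴ =
        star s • (1 : Matrix (Fin n) (Fin n) ℂ) - (A - K * X)ᴴ := by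
      rw [conjTranspose_sub (s • (1 : Matrix (Fin n) (Fin n) ℂ)), conjTranspose_smul,
        conjTranspose_one]
    have : star s = -s := by
      rw [hs]
      simp
    rw [h3', this, neg_smul]
    abel
  rw [h2, det_neg, h1, h3, det_neg, det_conjTranspose]
  set z := (s • (1 : Matrix (Fin n) (Fin n) ℂ) - (A - K * X)).det with hz
  have h4 : z * star z = ((‖z‖ ^ 2 : ℝ) : ℂ) := by
    have := Complex.mul_conj z
    rw [← Complex.normSq_eq_norm_sq]
    exact this
  rw [← h4]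
  have h5 : ((-1 : ℂ) ^ Fintype.card (Fin n)) * (-1) ^ Fintype.card (Fin n) = 1 := by
    rw [← mul_pow]
    simp
  calc (-1 : ℂ) ^ Fintype.card (Fin n) * (z * ((-1) ^ Fintype.card (Fin n) * star z)) =
      ((-1 : ℂ) ^ Fintype.card (Fin n) * (-1) ^ Fintype.card (Fin n)) * (z * star z) := by ring
    _ = z * star z := by rw [h5, one_mul]

lemma norm_prod_le (s : Multiset ℂ) (G t : ℝ) (hG : 0 < G) (ht : 0 ≤ t) (z : ℂ) (hz : ‖z‖ ≤ t)
    (h : ∀ μ ∈ s, G ≤ ‖μ‖) :
    ‖(s.map (fun μ => z - μ)).prod‖ ≤ ‖(s.map (fun μ => 0 - μ)).prod‖ * (1 + t / G) ^ s.card := by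
  induction s using Multiset.induction with
  | empty => simp
  | cons a s ih =>
    rw [Multiset.map_cons, Multiset.map_cons, Multiset.prod_cons, Multiset.prod_cons, norm_mul,
      norm_mul, Multiset.card_cons, pow_succ]
    have ha := h a (Multiset.mem_cons_self a s)
    have ih' := ih (fun μ hμ => h μ (Multiset.mem_cons_of_mem hμ))
    have h1 : ‖z - a‖ ≤ ‖0 - a‖ * (1 + t / G) := by
      rw [zero_sub, norm_neg]
      have e1 : ‖z - a‖ ≤ ‖z‖ + ‖a‖ := norm_sub_le _ _
      have e2 : t ≤ ‖a‖ * (t / G) := by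
        rw [mul_div_assoc', le_div_iff₀ hG]
        nlinarith
      nlinarith
    calc ‖z - a‖ * ‖(s.map (fun μ => z - μ)).prod‖ ≤
        (‖0 - a‖ * (1 + t / G)) * (‖(s.map (fun μ => 0 - μ)).prod‖ * (1 + t / G) ^ s.card) := by
          apply mul_le_mul h1 ih' (norm_nonneg _) (by positivity)
      _ = _ := by ring

lemma norm_prod_ge (s : Multiset ℂ) (G t : ℝ) (hG : 0 < G) (ht : 0 ≤ t) (htG : t ≤ G) (z : ℂ)
    (hz : ‖z‖ ≤ t) (h : ∀ μ ∈ s, G ≤ ‖μ‖) :
    ‖(s.map (fun μ => 0 - μ)).prod‖ * (1 - t / G) ^ s.card ≤ ‖(s.map (fun μ => z - μ)).prod‖ := by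
  have hpos : 0 ≤ 1 - t / G := by
    rw [sub_nonneg, div_le_one hG]
    exact htG
  induction s using Multiset.induction with
  | empty => simp
  | cons a s ih =>
    rw [Multiset.map_cons, Multiset.map_cons, Multiset.prod_cons, Multiset.prod_cons, norm_mul,
      norm_mul, Multiset.card_cons, pow_succ]
    have ha := h a (Multiset.mem_cons_self a s)
    have ih' := ih (fun μ hμ => h μ (Multiset.mem_cons_of_mem hμ))
    have h1 : ‖0 - a‖ * (1 - t / G) ≤ ‖z - a‖ := by
      rw [zero_sub, norm_neg]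
      have e1 : ‖a‖ ≤ ‖z - a‖ + ‖z‖ := by
        have := norm_sub_norm_le a z
        rw [norm_sub_rev] at this
        linarith
      have e2 : t ≤ ‖a‖ * (t / G) := by
        rw [mul_div_assoc', le_div_iff₀ hG]
        nlinarith
      nlinarith
    calc ‖0 - a‖ * ‖(s.map (fun μ => 0 - μ)).prod‖ * ((1 - t / G) ^ s.card * (1 - t / G)) =
        (‖0 - a‖ * (1 - t / G)) * (‖(s.map (fun μ => 0 - μ)).prod‖ * (1 - t / G) ^ s.card) := by ring
      _ ≤ ‖z - a‖ * ‖(s.map (fun μ => z - μ)).prod‖ := by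
          apply mul_le_mul h1 ih' (by positivity) (norm_nonneg _)

/-- Comparison of values of the characteristic determinant. -/
lemma det_compare (M : Matrix (Fin n) (Fin n) ℂ) (G : ℝ) (hG : 0 < G)
    (hM : ∀ μ ∈ spectrum ℂ M, G ≤ ‖μ‖) (t : ℝ) (ht : 0 ≤ t) (htG : t ≤ G) :
    ‖((0 : ℂ) • (1 : Matrix (Fin n) (Fin n) ℂ) - M).det‖ * (1 - t / G) ^ n ≤
      ‖((Complex.I * t) • (1 : Matrix (Fin n) (Fin n) ℂ) - M).det‖ ∧
    ‖((Complex.I * t) • (1 : Matrix (Fin n) (Fin n) ℂ) - M).det‖ ≤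
      ‖((0 : ℂ) • (1 : Matrix (Fin n) (Fin n) ℂ) - M).det‖ * (1 + t / G) ^ n := by
  have hev : ∀ z : ℂ, (z • (1 : Matrix (Fin n) (Fin n) ℂ) - M).det =
      (M.charpoly.roots.map (fun μ => z - μ)).prod := by
    intro z
    have h1 := (IsAlgClosed.splits M.charpoly).eval_eq_prod_roots_of_monic M.charpoly_monic z
    rw [← h1, Matrix.eval_charpoly, Matrix.scalar_apply, ← Matrix.smul_one_eq_diagonal]
  have hroots : ∀ μ ∈ M.charpoly.roots, G ≤ ‖μ‖ := by
    intro μ hμ
    apply hM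
    rw [Matrix.mem_spectrum_iff_isRoot_charpoly]
    exact (Polynomial.mem_roots'.1 hμ).2
  have hcard : M.charpoly.roots.card = n := by
    rw [← (IsAlgClosed.splits M.charpoly).natDegree_eq_card_roots, charpoly_natDegree_eq_dim]
    simp
  have hz : ‖(Complex.I * t : ℂ)‖ ≤ t := by
    rw [norm_mul, Complex.norm_I, one_mul, Complex.norm_real, Real.norm_of_nonneg ht]
  rw [hev, hev]
  have a1 := norm_prod_ge M.charpoly.roots G t hG ht htG _ hz hroots
  have a2 := norm_prod_le M.charpoly.roots G t hG ht _ hz hroots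
  rw [hcard] at a1 a2
  exact ⟨a1, a2⟩

end Pool.Agent.R333.LQ
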