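import Mathlib
import Pool.Agent.R333.LQ1

set_option linter.style.haveILetI false
set_option linter.unusedSectionVars false

open Finset Matrix Polynomial
open scoped Matrix.Norms.L2Operator

namespace Pool.Agent.R333.LQ

variable {n m : ℕ}

/-- Euclidean operators. -/
noncomputable abbrev op (M : Matrix (Fin n) (Fin n) ℂ) :
    EuclideanSpace ℂ (Fin n) →L[ℂ] EuclideanSpace ℂ (Fin n) :=
  Matrix.toEuclideanCLM (n := Fin n) (𝕜 := ℂ) M

lemma op_apply (M : Matrix (Fin n) (Fin n) ℂ) (x : EuclideanSpace ℂ (Fin n)) :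
    (op M x).ofLp = M *ᵥ x.ofLp := rfl

lemma op_adj (M : Matrix (Fin n) (Fin n) ℂ) (x y : EuclideanSpace ℂ (Fin n)) :
    (inner ℂ (op M x) y : ℂ) = inner ℂ x (op Mᴴ y) := by
  have h1 : op Mᴴ = star (op M) := by
    rw [← Matrix.star_eq_conjTranspose]
    exact map_star (Matrix.toEuclideanCLM (n := Fin n) (𝕜 := ℂ)) M
  rw [h1, ContinuousLinearMap.star_eq_adjoint, ContinuousLinearMap.adjoint_inner_right]

/-- The Hermitian matrix `Yᴴ Y + B Bᴴ`, with `Y = i t - A`, `Yᴴ = - Y`. -/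
lemma quad_form (Y : Matrix (Fin n) (Fin n) ℂ) (B : Matrix (Fin n) (Fin m) ℂ) (hY : Yᴴ = -Y)
    (v u : EuclideanSpace ℂ (Fin n)) :
    (inner ℂ v (op (B * Bᴴ - Y * Y) u) : ℂ) =
      inner ℂ (op Y v) (op Y u) +
        inner ℂ (WithLp.toLp 2 (Bᴴ *ᵥ v.ofLp) : EuclideanSpace ℂ (Fin m))
          (WithLp.toLp 2 (Bᴴ *ᵥ u.ofLp)) := by
  have h1 : op (B * Bᴴ - Y * Y) u = op (B * Bᴴ) u + op Yᴴ (op Y u) := by
    rw [hY]
    apply (WithLp.ofLp_injective 2)
    rw [WithLp.ofLp_add, op_apply, op_apply, op_apply, op_apply, Matrix.sub_mulVec,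
      Matrix.neg_mulVec, Matrix.mulVec_mulVec, sub_eq_add_neg]
  rw [h1, inner_add_right, add_comm, ← op_adj]
  congr 1
  rw [EuclideanSpace.inner_eq_star_dotProduct, EuclideanSpace.inner_eq_star_dotProduct, op_apply]
  rw [← Matrix.mulVec_mulVec, Matrix.star_mulVec, Matrix.conjTranspose_conjTranspose,
    dotProduct_comm, Matrix.dotProduct_mulVec, dotProduct_comm]

/-- The two-sided bound for `⟪v, u⟫` where `M u = v`. -/
lemma resolvent_bound (A : Matrix (Fin n) (Fin n) ℂ) (B : Matrix (Fin n) (Fin m) ℂ)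
    (hA : Aᴴ = -A) (d : ℝ) (hd : ‖A‖ ≤ d) (t : ℝ) (ht : d < t)
    (v u : EuclideanSpace ℂ (Fin n)) (hv : ‖v‖ = 1) (hBv : Bᴴ *ᵥ v.ofLp = 0)
    (hu : op (B * Bᴴ - ((Complex.I * t) • (1 : Matrix (Fin n) (Fin n) ℂ) - A) *
      ((Complex.I * t) • 1 - A)) u = v) :
    ∃ r : ℝ, (inner ℂ v u : ℂ) = r ∧ 1 / (t + d) ^ 2 ≤ r ∧ r ≤ 1 / (t - d) ^ 2 := by
  set Y : Matrix (Fin n) (Fin n) ℂ := (Complex.I * t) • 1 - A with hYdef
  have hd0 : 0 ≤ d := (norm_nonneg _).trans hd
  have ht0 : 0 < t := lt_of_le_of_lt hd0 ht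
  have hY : Yᴴ = -Y := by
    rw [hYdef, conjTranspose_sub ((Complex.I * t) • (1 : Matrix (Fin n) (Fin n) ℂ)),
      conjTranspose_smul, conjTranspose_one, hA]
    have : star (Complex.I * (t : ℂ)) = -(Complex.I * t) := by simp
    rw [this, neg_smul]
    abel
  have hopY : ∀ x, op Y x = (Complex.I * t : ℂ) • x - op A x := by
    intro x
    apply (WithLp.ofLp_injective 2)
    rw [WithLp.ofLp_sub, WithLp.ofLp_smul, op_apply, op_apply, hYdef, Matrix.sub_mulVec,
      Matrix.smul_mulVec, Matrix.one_mulVec]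
  have hAx : ∀ x, ‖op A x‖ ≤ d * ‖x‖ := by
    intro x
    have h1 := (op A).le_opNorm x
    rw [Matrix.l2_opNorm_toEuclideanCLM] at h1
    exact h1.trans (mul_le_mul_of_nonneg_right hd (norm_nonneg _))
  have hnI : ∀ x : EuclideanSpace ℂ (Fin n), ‖(Complex.I * t : ℂ) • x‖ = t * ‖x‖ := by
    intro x
    rw [norm_smul, norm_mul, Complex.norm_I, one_mul, Complex.norm_real,
      Real.norm_of_nonneg ht0.le]
  have hup : ∀ x, ‖op Y x‖ ≤ (t + d) * ‖x‖ := by
    intro x
    rw [hopY]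
    have := norm_sub_le ((Complex.I * t : ℂ) • x) (op A x)
    rw [hnI] at this
    have := hAx x
    linarith
  have hlo : ∀ x, (t - d) * ‖x‖ ≤ ‖op Y x‖ := by
    intro x
    rw [hopY]
    have := norm_sub_norm_le ((Complex.I * t : ℂ) • x) (op A x)
    rw [hnI] at this
    have := hAx x
    linarith
  -- `⟪u, M u⟫`
  set b : EuclideanSpace ℂ (Fin m) := WithLp.toLp 2 (Bᴴ *ᵥ u.ofLp) with hb
  have q1 : (inner ℂ u v : ℂ) = ((‖op Y u‖ ^ 2 + ‖b‖ ^ 2 : ℝ) : ℂ) := by
    have := quad_form Y B hY u u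
    rw [hu, inner_self_eq_norm_sq_to_K, inner_self_eq_norm_sq_to_K] at this
    rw [this]
    norm_cast
  set r : ℝ := ‖op Y u‖ ^ 2 + ‖b‖ ^ 2 with hr
  have q2 : (inner ℂ v u : ℂ) = r := by
    rw [← inner_conj_symm, q1, Complex.conj_ofReal]
  have q3 : (1 : ℂ) = inner ℂ (op Y v) (op Y u) := by
    have := quad_form Y B hY v u
    rw [hu, inner_self_eq_norm_sq_to_K, hv, hBv] at this
    simpa using this
  refine ⟨r, q2, ?_, ?_⟩
  · have h1 : (1 : ℝ) ≤ ‖op Y v‖ * ‖op Y u‖ := by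
      have := norm_inner_le_norm (𝕜 := ℂ) (op Y v) (op Y u)
      rwa [← q3, norm_one] at this
    have h2 := hup v
    rw [hv, mul_one] at h2
    have h3 : 1 ≤ (t + d) * ‖op Y u‖ :=
      h1.trans (mul_le_mul_of_nonneg_right h2 (norm_nonneg _))
    rw [div_le_iff₀ (by positivity)]
    have h4 : 1 ≤ ((t + d) * ‖op Y u‖) ^ 2 := by nlinarith
    have h5 : 0 ≤ ‖b‖ ^ 2 := sq_nonneg _
    have h6 : 0 ≤ (t + d) ^ 2 := sq_nonneg _
    nlinarith
  · have htd : 0 < t - d := by linarith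
    have h1 : (t - d) ^ 2 * ‖u‖ ^ 2 ≤ r := by
      have := pow_le_pow_left₀ (by positivity) (hlo u) 2
      rw [mul_pow] at this
      have h5 : 0 ≤ ‖b‖ ^ 2 := sq_nonneg _
      linarith
    have h2 : r ≤ ‖u‖ := by
      have := norm_inner_le_norm (𝕜 := ℂ) v u
      rw [q2, hv, one_mul, Complex.norm_real] at this
      exact (le_abs_self _).trans this
    have hr0 : 0 ≤ r := by positivity
    rw [le_div_iff₀ (by positivity)]
    rcases hr0.eq_or_lt with h0 | h0
    · rw [← h0]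
      simp
    · have h3 : r ^ 2 * (t - d) ^ 2 ≤ r := by
        have := pow_le_pow_left₀ hr0 h2 2
        nlinarith [sq_nonneg (t - d)]
      have h4 : r * (r * (t - d) ^ 2) ≤ r * 1 := by
        rw [mul_one]
        calc r * (r * (t - d) ^ 2) = r ^ 2 * (t - d) ^ 2 := by ring
          _ ≤ r := h3
      exact le_of_mul_le_mul_left h4 h0

/-- The polynomial matrix. -/
noncomputable def PM (A K : Matrix (Fin n) (Fin n) ℂ) : Matrix (Fin n) (Fin n) ℂ[X] :=
  K.map C - ((C Complex.I * X : ℂ[X]) • (1 : Matrix (Fin n) (Fin n) ℂ[X]) - A.map C) *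
    ((C Complex.I * X : ℂ[X]) • 1 - A.map C)

lemma PM_natDegree (A K : Matrix (Fin n) (Fin n) ℂ) (i j : Fin n) :
    (PM A K i j).natDegree ≤ 2 := by
  unfold PM
  rw [Matrix.sub_apply, Matrix.mul_apply]
  have h1 : ∀ a b, (((C Complex.I * X : ℂ[X]) • (1 : Matrix (Fin n) (Fin n) ℂ[X]) -
      A.map C) a b).natDegree ≤ 1 := by
    intro a b
    rw [Matrix.sub_apply, Matrix.smul_apply, Matrix.map_apply, smul_eq_mul]
    by_cases hab : a = b
    · subst hab
      rw [Matrix.one_apply_eq]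
      compute_degree
    · rw [Matrix.one_apply_ne hab, mul_zero, zero_sub, natDegree_neg, natDegree_C]
      exact Nat.zero_le _
  refine (natDegree_sub_le _ _).trans (max_le ?_ ?_)
  · rw [Matrix.map_apply, natDegree_C]
    omega
  · apply natDegree_sum_le_of_forall_le
    intro c _
    refine natDegree_mul_le.trans ?_
    have := h1 i c
    have := h1 c j
    omega

lemma PM_eval (A K : Matrix (Fin n) (Fin n) ℂ) (t : ℂ) :
    (PM A K).map (Polynomial.evalRingHom t) =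
      K - ((Complex.I * t) • (1 : Matrix (Fin n) (Fin n) ℂ) - A) * ((Complex.I * t) • 1 - A) := by
  have hK : (K.map C).map (Polynomial.evalRingHom t) = K := by
    ext i j
    simp
  have hS : (((C Complex.I * X : ℂ[X]) • (1 : Matrix (Fin n) (Fin n) ℂ[X]) - A.map C)).map
      (Polynomial.evalRingHom t) = (Complex.I * t) • (1 : Matrix (Fin n) (Fin n) ℂ) - A := by
    ext i j
    rw [Matrix.map_apply, Matrix.sub_apply, Matrix.smul_apply, Matrix.map_apply, Matrix.sub_apply,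
      Matrix.smul_apply, map_sub, smul_eq_mul, map_mul, Matrix.one_apply, Matrix.one_apply]
    split_ifs <;> simp
  unfold PM
  rw [Matrix.map_sub (Polynomial.evalRingHom t) (by intros; simp), Matrix.map_mul, hK, hS]

end Pool.Agent.R333.LQ
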