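import Mathlib
import Pool.Agent.R333.LQ2

set_option linter.style.haveILetI false
set_option linter.unusedSectionVars false

open Finset Matrix Polynomial
open scoped Matrix.Norms.L2Operator

namespace Pool.Agent.R333.LQ

variable {n m : ℕ}

/-- The quadratic form of the adjugate as a polynomial. -/
noncomputable def QP (A K : Matrix (Fin n) (Fin n) ℂ) (v : EuclideanSpace ℂ (Fin n)) : ℂ[X] :=
  ∑ i, ∑ j, C (star (v.ofLp i)) * (PM A K).adjugate i j * C (v.ofLp j)

lemma QP_natDegree (A K : Matrix (Fin n) (Fin n) ℂ) (v : EuclideanSpace ℂ (Fin n)) :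
    (QP A K v).natDegree ≤ 2 * n := by
  unfold QP
  apply natDegree_sum_le_of_forall_le
  intro i _
  apply natDegree_sum_le_of_forall_le
  intro j _
  refine natDegree_mul_le.trans ?_
  rw [natDegree_C, add_zero]
  refine natDegree_mul_le.trans ?_
  rw [natDegree_C, zero_add]
  exact natDegree_adjugate_le _ (PM_natDegree A K) i j

lemma QP_eval (A K : Matrix (Fin n) (Fin n) ℂ) (v : EuclideanSpace ℂ (Fin n)) (t : ℂ) :
    (QP A K v).eval t = inner ℂ v (op (K - ((Complex.I * t) • (1 : Matrix (Fin n) (Fin n) ℂ) - A) *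
      ((Complex.I * t) • 1 - A)).adjugate v) := by
  rw [← PM_eval A K t]
  have h1 : ((PM A K).map (Polynomial.evalRingHom t)).adjugate =
      (PM A K).adjugate.map (Polynomial.evalRingHom t) := by
    have := RingHom.map_adjugate (Polynomial.evalRingHom t) (PM A K)
    simpa using this.symm
  rw [h1, EuclideanSpace.inner_eq_star_dotProduct, op_apply]
  unfold QP
  rw [eval_finsetSum]
  unfold dotProduct
  refine Finset.sum_congr rfl fun i _ => ?_
  rw [eval_finsetSum, Matrix.mulVec]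
  unfold dotProduct
  rw [Finset.sum_mul]
  refine Finset.sum_congr rfl fun j _ => ?_
  simp only [eval_mul, eval_C, Matrix.map_apply, Polynomial.coe_evalRingHom, Pi.star_apply]
  ring

/-- The constant. -/
noncomputable def cst (n : ℕ) : ℝ := 8 * n * (1 + 6 * (2 * n + 1) * 2 ^ n)

/-- Core estimate. -/
lemma core (A X : Matrix (Fin n) (Fin n) ℂ) (B : Matrix (Fin n) (Fin m) ℂ) (hA : Aᴴ = -A)
    (hX : Xᴴ = X) (hXd : X.det ≠ 0)
    (hR : -A * X + X * A - X * (B * Bᴴ) * X + 1 = 0) (d : ℝ) (hd0 : 0 < d) (hd : ‖A‖ ≤ d)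
    (v : EuclideanSpace ℂ (Fin n)) (hv : ‖v‖ = 1) (hBv : Bᴴ *ᵥ v.ofLp = 0) :
    ∃ μ ∈ spectrum ℂ (A - B * Bᴴ * X), -μ.re ≤ cst n * d := by
  by_contra hcon
  push Not at hcon
  have hn : 0 < n := by
    rcases Nat.eq_zero_or_pos n with h0 | h0
    · subst h0
      have : v = 0 := Subsingleton.elim _ _
      rw [this, norm_zero] at hv
      norm_num at hv
    · exact h0
  have hn1 : (1 : ℝ) ≤ n := by exact_mod_cast hn
  set K := B * Bᴴ with hK
  set Acl := A - K * X with hAcl
  set L : ℝ := 12 * 2 ^ n * d with hL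
  set T : ℝ := 2 * d + (2 * n + 1) * L with hT
  set G : ℝ := 4 * n * T with hG
  have hLpos : 0 < L := by positivity
  have hTpos : 0 < T := by positivity
  have hGpos : 0 < G := by positivity
  have hGc : G = cst n * d := by
    rw [hG, hT, hL, cst]
    ring
  have hspec : ∀ μ ∈ spectrum ℂ Acl, G ≤ ‖μ‖ := by
    intro μ hμ
    have h1 := hcon μ hμ
    rw [← hGc] at h1
    have h2 := Complex.abs_re_le_norm μ
    have h3 := neg_le_abs μ.re
    linarith
  -- the determinant at zero
  set D : ℝ → ℝ := fun t => ‖((Complex.I * t) • (1 : Matrix (Fin n) (Fin n) ℂ) - Acl).det‖ with hD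
  set D0 : ℝ := ‖((0 : ℂ) • (1 : Matrix (Fin n) (Fin n) ℂ) - Acl).det‖ with hD0
  have hD0pos : 0 < D0 := by
    rw [hD0, norm_pos_iff]
    intro h0
    have h1 : (0 : ℂ) ∈ spectrum ℂ Acl := by
      rw [Matrix.mem_spectrum_iff_isRoot_charpoly]
      unfold Polynomial.IsRoot
      rw [Matrix.eval_charpoly, Matrix.scalar_apply, ← Matrix.smul_one_eq_diagonal]
      exact h0
    have h2 := hspec 0 h1
    rw [norm_zero] at h2
    linarith
  have hcomp : ∀ t : ℝ, 0 ≤ t → t ≤ G → D0 * (1 - t / G) ^ n ≤ D t ∧ D t ≤ D0 * (1 + t / G) ^ n :=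
    fun t h1 h2 => det_compare Acl G hGpos hspec t h1 h2
  have hTG : T ≤ G := by
    rw [hG]
    nlinarith
  -- the value of the polynomial
  have hval : ∀ t : ℝ, d < t → t ≤ T → ∃ r : ℝ, ‖(QP A K v).eval (t : ℂ)‖ = D t ^ 2 * r ∧
      1 / (t + d) ^ 2 ≤ r ∧ r ≤ 1 / (t - d) ^ 2 := by
    intro t htd htT
    have ht0 : 0 < t := hd0.trans htd
    set M := K - ((Complex.I * t) • (1 : Matrix (Fin n) (Fin n) ℂ) - A) *
      ((Complex.I * t) • 1 - A) with hM
    have hdet : M.det = ((D t ^ 2 : ℝ) : ℂ) := by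
      have := det_axis A K X hA hX hXd hR t
      exact this
    have hDt : 0 < D t := by
      refine lt_of_lt_of_le ?_ (hcomp t ht0.le (htT.trans hTG)).1
      have : 0 < 1 - t / G := by
        rw [sub_pos, div_lt_one hGpos]
        have : G = 4 * n * T := hG
        nlinarith
      positivity
    have hdet0 : M.det ≠ 0 := by
      rw [hdet]
      exact_mod_cast (pow_pos hDt 2).ne'
    set u : EuclideanSpace ℂ (Fin n) := (M.det)⁻¹ • op M.adjugate v with hu
    have hMu : op M u = v := by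
      rw [hu, map_smul]
      have : op M (op M.adjugate v) = M.det • v := by
        apply (WithLp.ofLp_injective 2)
        rw [op_apply, op_apply, Matrix.mulVec_mulVec, Matrix.mul_adjugate, Matrix.smul_mulVec,
          Matrix.one_mulVec, WithLp.ofLp_smul]
      rw [this, smul_smul, inv_mul_cancel₀ hdet0, one_smul]
    obtain ⟨r, hr1, hr2, hr3⟩ := resolvent_bound A B hA d hd t htd v u hv hBv hMu
    refine ⟨r, ?_, hr2, hr3⟩
    have hr0 : 0 ≤ r := le_trans (by positivity) hr2
    have h1 : (QP A K v).eval (t : ℂ) = M.det * r := by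
      rw [QP_eval, ← hM, ← hr1, hu, inner_smul_right, ← mul_assoc, mul_inv_cancel₀ hdet0, one_mul]
    rw [h1, hdet, ← Complex.ofReal_mul, Complex.norm_real, Real.norm_of_nonneg]
    positivity
  -- the finite difference inequality
  have hup : ∀ k : ℕ, 1 ≤ k → k ≤ 2 * n + 1 →
      ‖(QP A K v).eval (((2 * d : ℝ) : ℂ) + k * (L : ℂ))‖ ≤ D0 ^ 2 * 2 / L ^ 2 := by
    intro k hk1 hk2
    have hk1' : (1 : ℝ) ≤ k := by exact_mod_cast hk1
    have hk2' : (k : ℝ) ≤ 2 * n + 1 := by exact_mod_cast hk2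
    set t : ℝ := 2 * d + k * L with ht
    have htd : d < t := by
      have : 0 < k * L := by positivity
      linarith
    have htT : t ≤ T := by
      rw [ht, hT]
      have := mul_le_mul_of_nonneg_right hk2' hLpos.le
      linarith
    have hcast : ((2 * d : ℝ) : ℂ) + k * (L : ℂ) = ((t : ℝ) : ℂ) := by
      rw [ht]; push_cast; ring
    rw [hcast]
    obtain ⟨r, hr1, hr2, hr3⟩ := hval t htd htT
    have hr0 : 0 ≤ r := le_trans (by positivity) hr2
    rw [hr1]
    have h1 : r ≤ 1 / L ^ 2 := by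
      refine hr3.trans ?_
      apply one_div_le_one_div_of_le (by positivity)
      apply pow_le_pow_left₀ hLpos.le
      have : L ≤ k * L := by nlinarith
      linarith
    have h2 : D t ^ 2 ≤ D0 ^ 2 * 2 := by
      have h3 := (hcomp t (by linarith) (htT.trans hTG)).2
      have h4 : 1 + t / G ≤ Real.exp (1 / (4 * n)) := by
        have h5 : t / G ≤ 1 / (4 * n) := by
          rw [div_le_div_iff₀ hGpos (by positivity), hG]
          nlinarith
        have := Real.add_one_le_exp (1 / (4 * n) : ℝ)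
        linarith
      have h5 : (1 + t / G) ^ n ≤ Real.exp (1 / 4) := by
        have h6 : 0 ≤ 1 + t / G := by
          have : 0 ≤ t / G := div_nonneg (by linarith) hGpos.le
          linarith
        refine (pow_le_pow_left₀ h6 h4 n).trans ?_
        rw [← Real.exp_nat_mul]
        apply Real.exp_le_exp.2
        have : (n : ℝ) * (1 / (4 * n)) = 1 / 4 := by
          field_simp
        rw [this]
      have h6 : D t ≤ D0 * Real.exp (1 / 4) := h3.trans (mul_le_mul_of_nonneg_left h5 hD0pos.le)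
      have h7 : D t ^ 2 ≤ (D0 * Real.exp (1 / 4)) ^ 2 := pow_le_pow_left₀ (norm_nonneg _) h6 2
      refine h7.trans ?_
      rw [mul_pow, ← Real.exp_nat_mul]
      apply mul_le_mul_of_nonneg_left _ (by positivity)
      have h8 : ((2 : ℕ) : ℝ) * (1 / 4) = 1 / 2 := by norm_num
      rw [h8]
      have h9 : Real.exp (1 / 2) ^ 2 ≤ 2 ^ 2 := by
        rw [← Real.exp_nat_mul]
        have : ((2 : ℕ) : ℝ) * (1 / 2) = 1 := by norm_num
        rw [this]
        have := Real.exp_one_lt_d9
        linarith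
      exact le_of_not_gt fun hgt => by nlinarith [Real.exp_pos (1 / 2)]
    calc D t ^ 2 * r ≤ (D0 ^ 2 * 2) * (1 / L ^ 2) := by
          apply mul_le_mul h2 h1 hr0 (by positivity)
      _ = D0 ^ 2 * 2 / L ^ 2 := by ring
  have hfd := finite_diff_bound (QP A K v) (2 * n + 1)
    (lt_of_le_of_lt (QP_natDegree A K v) (by omega)) ((2 * d : ℝ) : ℂ) (L : ℂ) _ hup
  -- lower bound
  obtain ⟨r, hr1, hr2, hr3⟩ := hval (2 * d) (by linarith) (by rw [hT]; nlinarith)
  rw [hr1] at hfd
  have hlow : D0 ^ 2 * (1 / 2) ≤ D (2 * d) ^ 2 := by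
    have h1 := (hcomp (2 * d) (by linarith) (by
      have : 2 * d ≤ T := by rw [hT]; nlinarith
      linarith)).1
    have h2 : 2 * d / G ≤ 1 / (4 * n) := by
      rw [div_le_div_iff₀ hGpos (by positivity), hG]
      have : 2 * d ≤ T := by rw [hT]; nlinarith
      nlinarith
    have h4n : (1 : ℝ) / (4 * n) ≤ 1 / 4 := by
      apply one_div_le_one_div_of_le (by norm_num)
      linarith
    have h3 : 1 - 2 * n * (1 / (4 * n)) ≤ (1 - 2 * d / G) ^ (2 * n) := by
      have hb : -2 ≤ -(2 * d / G) := by linarith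
      have h5 := one_add_mul_le_pow hb (2 * n)
      have h6 : 1 - 2 * (n : ℝ) * (1 / (4 * n)) ≤ 1 + ((2 * n : ℕ) : ℝ) * -(2 * d / G) := by
        push_cast
        have := mul_le_mul_of_nonneg_left h2 (by positivity : (0 : ℝ) ≤ 2 * n)
        linarith
      refine h6.trans (h5.trans (le_of_eq ?_))
      ring
    have h4 : 1 - 2 * (n : ℝ) * (1 / (4 * n)) = 1 / 2 := by
      field_simp
      norm_num
    rw [h4] at h3
    have h5 : (D0 * (1 - 2 * d / G) ^ n) ^ 2 ≤ D (2 * d) ^ 2 := by
      apply pow_le_pow_left₀ _ h1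
      have : 0 ≤ 1 - 2 * d / G := by linarith
      positivity
    refine le_trans ?_ h5
    rw [mul_pow, ← pow_mul, mul_comm n 2]
    exact mul_le_mul_of_nonneg_left h3 (by positivity)
  have h9 : D0 ^ 2 * (1 / 2) * (1 / (9 * d ^ 2)) ≤ D (2 * d) ^ 2 * r := by
    apply mul_le_mul hlow _ (by positivity) (by positivity)
    refine le_trans (le_of_eq ?_) hr2
    ring
  have h10 := h9.trans hfd
  have h11 : (2 : ℝ) ^ (2 * n + 1) * (D0 ^ 2 * 2 / L ^ 2) = D0 ^ 2 * (1 / (36 * d ^ 2)) := by
    rw [hL]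
    have : (2 : ℝ) ^ (2 * n + 1) = 2 * (2 ^ n) ^ 2 := by
      rw [pow_succ, mul_comm 2 n, pow_mul]
      ring
    rw [this]
    have h2n : (2 : ℝ) ^ n ≠ 0 := by positivity
    field_simp
    norm_num
  rw [h11] at h10
  have h12 : D0 ^ 2 * (1 / 2) * (1 / (9 * d ^ 2)) = D0 ^ 2 * (1 / (36 * d ^ 2)) * 2 := by
    field_simp
    norm_num
  rw [h12] at h10
  have h13 : 0 < D0 ^ 2 * (1 / (36 * d ^ 2)) := by positivity
  linarith

end Pool.Agent.R333.LQ
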