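import Mathlib
import Pool.Agent.TH813.Rough

/-!
# Sums of the weights `w ^ Ω(n)`
-/

set_option autoImplicit false

namespace Pool.Agent.R333.Om

open Finset

/-- the weight `w ^ Ω(n)` -/
noncomputable def f (w : ℝ) (n : ℕ) : ℝ := w ^ (ArithmeticFunction.cardFactors n)

lemma f_nonneg {w : ℝ} (hw : 0 ≤ w) (n : ℕ) : 0 ≤ f w n := pow_nonneg hw _

lemma f_pos {w : ℝ} (hw : 0 < w) (n : ℕ) : 0 < f w n := pow_pos hw _

lemma f_le_one {w : ℝ} (hw : 0 ≤ w) (hw1 : w ≤ 1) (n : ℕ) : f w n ≤ 1 := pow_le_one₀ hw hw1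

lemma f_mul (w : ℝ) {a b : ℕ} (ha : a ≠ 0) (hb : b ≠ 0) : f w (a * b) = f w a * f w b := by
  unfold f
  rw [ArithmeticFunction.cardFactors_mul ha hb, pow_add]

lemma f_prime (w : ℝ) {p : ℕ} (hp : p.Prime) : f w p = w := by
  unfold f
  rw [ArithmeticFunction.cardFactors_apply_prime hp, pow_one]

lemma f_one (w : ℝ) : f w 1 = 1 := by
  unfold f
  rw [ArithmeticFunction.cardFactors_one, pow_zero]

lemma om_le (n : ℕ) : TH813.Rough.om 2 n ≤ ArithmeticFunction.cardFactors n := by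
  unfold TH813.Rough.om
  rw [ArithmeticFunction.cardFactors_apply]
  calc (n.primeFactors.filter (fun p => 2 ≤ p)).card ≤ n.primeFactors.card :=
        card_le_card (filter_subset _ _)
    _ ≤ n.primeFactorsList.length := List.toFinset_card_le _

lemma f_le_wt {w : ℝ} (hw : 0 < w) (hw1 : w ≤ 1) (n : ℕ) : f w n ≤ TH813.Rough.wt w 2 n :=
  pow_le_pow_of_le_one hw.le hw1 (om_le n)

/-- the logarithmic scale -/
noncomputable def ell (x : ℕ) : ℝ := 1 + Real.log x

lemma ell_ge (x : ℕ) : 1 ≤ ell x := by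
  unfold ell
  have := Real.log_natCast_nonneg x
  linarith

lemma ell_mono {x y : ℕ} (hx : 1 ≤ x) (h : x ≤ y) : ell x ≤ ell y := by
  unfold ell
  have : Real.log x ≤ Real.log y :=
    Real.log_le_log (by exact_mod_cast hx) (by exact_mod_cast h)
  linarith

/-- the logarithmic mean -/
theorem log_mean {w : ℝ} (hw : 0 < w) (hw1 : w ≤ 1) : ∃ C : ℝ, 0 ≤ C ∧ ∀ x : ℕ, 1 ≤ x →
    ∑ m ∈ Icc 1 x, TH813.Rough.wt w 2 m / (m : ℝ) ≤ C * ell x ^ w := by
  obtain ⟨C, hC0, hC⟩ := TH813.Rough.wt_sum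
  refine ⟨max 1 (Real.exp (Real.log (Real.log 2) + C + w * C)), by positivity, fun x hx => ?_⟩
  rcases Nat.lt_or_ge x 2 with h | h
  · have h1 : x = 1 := by omega
    subst h1
    have h2 : (1 : ℝ) ≤ ell 1 ^ w := Real.one_le_rpow (ell_ge 1) hw.le
    rw [Icc_self, sum_singleton]
    have h3 : TH813.Rough.wt w 2 1 = 1 := by
      unfold TH813.Rough.wt; rw [TH813.Rough.om_one, pow_zero]
    rw [h3]
    have h4 : (1 : ℝ) ≤ max 1 (Real.exp (Real.log (Real.log 2) + C + w * C)) := le_max_left _ _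
    have : (1 : ℝ) / ((1 : ℕ) : ℝ) = 1 := by norm_num
    rw [this]
    nlinarith
  · have h1 := hC w hw hw1 2 x le_rfl h
    refine h1.trans ?_
    have hlx : 0 < Real.log x := Real.log_pos (by exact_mod_cast (by omega : 1 < x))
    have h2 : Real.exp (Real.log (Real.log ((2 : ℕ) : ℝ)) + C + w * (Real.log (Real.log x) + C)) =
        Real.exp (Real.log (Real.log 2) + C + w * C) * Real.log x ^ w := by
      rw [Real.rpow_def_of_pos hlx, ← Real.exp_add]
      congr 1
      push_cast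
      ring
    rw [h2]
    have h3 : Real.log x ^ w ≤ ell x ^ w := by
      apply Real.rpow_le_rpow hlx.le _ hw.le
      unfold ell; linarith
    exact mul_le_mul (le_max_right _ _) h3 (by positivity) (by positivity)

/-- the upper bound for the summatory function -/
theorem mean {w : ℝ} (hw : 0 < w) (hw1 : w ≤ 1) : ∃ C : ℝ, 0 < C ∧ ∀ x : ℕ, 1 ≤ x →
    ∑ n ∈ Icc 1 x, f w n ≤ C * x * ell x ^ (w - 1) := by
  obtain ⟨C, hC0, hC⟩ := log_mean hw hw1
  set c1 : ℝ := Real.log 4 + 4 with hc1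
  have hc1' : 0 < c1 := by
    have : 0 ≤ Real.log 4 := Real.log_nonneg (by norm_num)
    rw [hc1]; linarith
  refine ⟨(c1 + 2) * C + 1, by positivity, fun x hx => ?_⟩
  have hx0 : (0 : ℝ) < x := by exact_mod_cast hx
  have hell := ell_ge x
  -- `ell x` times the sum
  have h1 : (∑ n ∈ Icc 1 x, f w n) * ell x ≤ ((c1 + 2) * C) * x * ell x ^ w := by
    have h2 := TH813.Rough.hall hw hw1 2 x
    have hIcc : Ioc 0 x = Icc 1 x := rfl
    rw [hIcc] at h2
    have h3 := hC x hx
    set M := ∑ m ∈ Icc 1 x, TH813.Rough.wt w 2 m / (m : ℝ) with hM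
    have h4 : (∑ n ∈ Icc 1 x, f w n) * ell x ≤
        ∑ n ∈ Icc 1 x, (TH813.Rough.wt w 2 n * Real.log n + 2 * x * (TH813.Rough.wt w 2 n / n)) := by
      rw [sum_mul]
      refine sum_le_sum fun n hn => ?_
      rw [mem_Icc] at hn
      have hn0 : (0 : ℝ) < n := by exact_mod_cast hn.1
      have h5 := f_le_wt hw hw1 n
      have h6 : ell x ≤ Real.log n + 2 * x / n := by
        unfold ell
        have h7 : Real.log x = Real.log n + Real.log (x / n) := by
          rw [Real.log_div hx0.ne' hn0.ne']; ring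
        have h8 : Real.log ((x : ℝ) / n) ≤ x / n - 1 := Real.log_le_sub_one_of_pos (by positivity)
        have h9 : (0 : ℝ) ≤ x / n := by positivity
        have h10 : 2 * (x : ℝ) / n = x / n + x / n := by ring
        rw [h7, h10]
        linarith
      have h11 := TH813.Rough.wt_nonneg hw 2 n
      calc f w n * ell x ≤ TH813.Rough.wt w 2 n * ell x :=
            mul_le_mul_of_nonneg_right h5 (by linarith)
        _ ≤ TH813.Rough.wt w 2 n * (Real.log n + 2 * x / n) := mul_le_mul_of_nonneg_left h6 h11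
        _ = _ := by ring
    rw [sum_add_distrib, ← mul_sum, ← hM] at h4
    calc (∑ n ∈ Icc 1 x, f w n) * ell x ≤ c1 * x * M + 2 * x * M := by linarith
      _ = ((c1 + 2) * x) * M := by ring
      _ ≤ ((c1 + 2) * x) * (C * ell x ^ w) := mul_le_mul_of_nonneg_left h3 (by positivity)
      _ = _ := by ring
  have h2 : ell x ^ (w - 1) * ell x = ell x ^ w := by
    rw [Real.rpow_sub_one (by positivity)]
    field_simp
  have h3 : (∑ n ∈ Icc 1 x, f w n) * ell x ≤ (((c1 + 2) * C + 1) * x * ell x ^ (w - 1)) * ell x := by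
    rw [mul_assoc (((c1 + 2) * C + 1) * (x : ℝ)), h2]
    refine h1.trans ?_
    have : (0 : ℝ) ≤ x * ell x ^ w := by positivity
    nlinarith
  exact le_of_mul_le_mul_right h3 (by linarith)

/-! ### Lower bounds for `2 ^ (-Ω(n))` -/

/-- the lower bound of Chebyshev -/
theorem theta_low : ∃ c : ℝ, 0 < c ∧ ∀ n : ℕ, 2 ≤ n → c * n ≤ Chebyshev.theta n := by
  have hl2 := Real.log_two_gt_d9
  have hl2' := Real.log_two_lt_d9
  refine ⟨1 / 10 ^ 8, by norm_num, fun n hn => ?_⟩
  have hn0 : (0 : ℝ) < n := by exact_mod_cast (by omega : 0 < n)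
  rcases Nat.lt_or_ge n (10 ^ 7) with h | h
  · have h1 : Real.log 2 ≤ Chebyshev.theta n := by
      have h2 : Chebyshev.theta ((2 : ℕ) : ℝ) ≤ Chebyshev.theta n :=
        Chebyshev.theta_mono (by exact_mod_cast hn)
      have h3 : Chebyshev.theta ((2 : ℕ) : ℝ) = Real.log 2 := by
        rw [Chebyshev.theta_eq_log_primorial, Nat.floor_natCast]
        norm_num [primorial]
        have : (Finset.filter Nat.Prime (range 3)) = {2} := by decide
        rw [this]; simp
      linarith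
    have h4 : (n : ℝ) < 10 ^ 7 := by exact_mod_cast h
    have : (1 : ℝ) / 10 ^ 8 * n ≤ 0.1 := by
      rw [div_mul_eq_mul_div, div_le_iff₀ (by norm_num)]
      linarith
    linarith
  · have h1 := Chebyshev.theta_ge n
    have h4 : (10 : ℝ) ^ 7 ≤ n := by exact_mod_cast h
    -- `s = n^{1/4}`
    set s : ℝ := Real.sqrt (Real.sqrt n) with hs
    have hs4 : s ^ 4 = n := by
      have h5 : s ^ 2 = Real.sqrt n := Real.sq_sqrt (Real.sqrt_nonneg _)
      have h6 : Real.sqrt n ^ 2 = n := Real.sq_sqrt hn0.le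
      calc s ^ 4 = (s ^ 2) ^ 2 := by ring
        _ = (n : ℝ) := by rw [h5, h6]
    have hs0 : 0 < s := Real.sqrt_pos.2 (Real.sqrt_pos.2 hn0)
    have hs56 : 56 < s := by
      by_contra hlt
      push Not at hlt
      have : s ^ 4 ≤ 56 ^ 4 := pow_le_pow_left₀ hs0.le hlt 4
      rw [hs4] at this
      norm_num at this
      linarith
    have hsq : Real.sqrt n = s ^ 2 := (Real.sq_sqrt (Real.sqrt_nonneg _)).symm
    have hlog : Real.log n ≤ 4 * (s - 1) := by
      rw [← hs4, Real.log_pow]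
      have := Real.log_le_sub_one_of_pos hs0
      push_cast
      linarith
    have hlog1 : Real.log ((n : ℝ) + 1) ≤ Real.log n + 1 := by
      have h7 : (n : ℝ) + 1 ≤ n * 2 := by linarith
      have h8 : Real.log ((n : ℝ) + 1) ≤ Real.log (n * 2) := Real.log_le_log (by linarith) h7
      rw [Real.log_mul hn0.ne' (by norm_num)] at h8
      linarith
    rw [hsq] at h1
    have h9 : 2 * s ^ 2 * Real.log n ≤ 2 * s ^ 2 * (4 * (s - 1)) :=
      mul_le_mul_of_nonneg_left hlog (by positivity)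
    have h10 : (n : ℝ) * Real.log 2 ≥ s ^ 4 * 0.69 := by
      rw [← hs4]
      exact mul_le_mul_of_nonneg_left (by linarith) (by positivity)
    have h11 : (1 : ℝ) / 10 ^ 8 * n ≤ s ^ 4 * 0.01 := by
      rw [← hs4]
      have : 0 < s ^ 4 := by positivity
      nlinarith
    have h12 : s ^ 4 * 0.68 ≥ s ^ 3 * 38 := by
      have : 0 < s ^ 3 := by positivity
      nlinarith
    have h13 : s ^ 3 ≥ s := by nlinarith [mul_pos hs0 hs0]
    nlinarith [mul_pos hs0 hs0]

/-- `h(n) = 2 ^ (-Ω(n))` -/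
noncomputable abbrev h (n : ℕ) : ℝ := f (1 / 2) n

lemma h_conv {s : ℕ} (hs : Squarefree s) :
    ∑ x ∈ s.divisorsAntidiagonal, h x.1 * h x.2 = 1 := by
  have hs0 : s ≠ 0 := hs.ne_zero
  have h1 : ∀ x ∈ s.divisorsAntidiagonal, h x.1 * h x.2 = h s := by
    intro x hx
    rw [Nat.mem_divisorsAntidiagonal] at hx
    have ha : x.1 ≠ 0 := by rintro h0; rw [h0, zero_mul] at hx; exact hx.2 hx.1.symm
    have hb : x.2 ≠ 0 := by rintro h0; rw [h0, mul_zero] at hx; exact hx.2 hx.1.symm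
    rw [← f_mul _ ha hb, hx.1]
  rw [sum_congr rfl h1, Nat.sum_divisorsAntidiagonal (fun _ _ => h s), sum_const,
    Nat.card_divisors hs0]
  have h2 : ∏ x ∈ s.primeFactors, (s.factorization x + 1) = 2 ^ s.primeFactors.card := by
    rw [prod_congr rfl (fun p hp => by
      rw [Nat.factorization_eq_one_of_squarefree hs (Nat.prime_of_mem_primeFactors hp)
        (Nat.dvd_of_mem_primeFactors hp)] :
        ∀ p ∈ s.primeFactors, s.factorization p + 1 = 1 + 1), prod_const]
  have h3 : ArithmeticFunction.cardFactors s = s.primeFactors.card := by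
    rw [← (ArithmeticFunction.cardDistinctFactors_eq_cardFactors_iff_squarefree hs0).2 hs,
      ArithmeticFunction.cardDistinctFactors_apply]
    rfl
  rw [h2, nsmul_eq_mul]
  unfold h f
  rw [h3]
  push_cast
  rw [← mul_pow]
  norm_num

/-- a sum over a set covered by the image of a map -/
lemma sum_le_cover {α β : Type*} [DecidableEq α] (S : Finset α) (T : Finset β) (g : β → α)
    (F : α → ℝ) (hF : ∀ y ∈ T, 0 ≤ F (g y)) (hc : ∀ x ∈ S, ∃ y ∈ T, g y = x) :
    ∑ x ∈ S, F x ≤ ∑ y ∈ T, F (g y) := by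
  classical
  have h1 : S ⊆ T.image g := by
    intro x hx
    obtain ⟨y, hy, rfl⟩ := hc x hx
    exact mem_image_of_mem g hy
  have h2 : ∑ x ∈ T.image g, F x ≤ ∑ y ∈ T, F (g y) := by
    rw [← sum_fiberwise_of_maps_to (s := T) (t := T.image g) (g := g)
      (fun y hy => mem_image_of_mem g hy) (fun y => F (g y))]
    refine sum_le_sum fun x hx => ?_
    obtain ⟨y, hy, rfl⟩ := mem_image.1 hx
    refine single_le_sum (f := fun y => F (g y)) (s := T.filter (fun i => g i = g y)) (fun z hz => ?_)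
      (mem_filter.2 ⟨hy, rfl⟩)
    exact hF z (mem_filter.1 hz).1
  refine (sum_le_sum_of_subset_of_nonneg h1 fun x hx _ => ?_).trans h2
  obtain ⟨y, hy, rfl⟩ := mem_image.1 hx
  exact hF y hy

lemma sum_sq_inv (y : ℕ) : ∑ d ∈ Icc 1 y, 1 / (d : ℝ) ^ 2 ≤ 2 := by
  have h : ∀ y : ℕ, 1 ≤ y → ∑ d ∈ Icc 1 y, 1 / (d : ℝ) ^ 2 ≤ 2 - 1 / (y : ℝ) := by
    intro y hy
    induction y, hy using Nat.le_induction with
    | base => norm_num
    | succ n hn ih =>
      rw [sum_Icc_succ_top (by omega)]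
      have hn0 : (0 : ℝ) < n := by exact_mod_cast hn
      have e : (1 : ℝ) / ((n + 1 : ℕ) : ℝ) ^ 2 ≤ 1 / n - 1 / ((n + 1 : ℕ) : ℝ) := by
        push_cast
        rw [div_sub_div _ _ hn0.ne' (by positivity), div_le_div_iff₀ (by positivity) (by positivity)]
        nlinarith
      linarith
  rcases Nat.eq_zero_or_pos y with h0 | h0
  · subst h0; norm_num
  · have := h y h0
    have h1 : (0 : ℝ) ≤ 1 / (y : ℝ) := by positivity
    linarith

lemma sqfree_harm (y : ℕ) :
    Real.log ((y : ℝ) + 1) / 2 ≤ ∑ s ∈ (Icc 1 y).filter Squarefree, 1 / (s : ℝ) := by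
  have h1 : Real.log ((y : ℝ) + 1) ≤ ∑ n ∈ Icc 1 y, 1 / (n : ℝ) := by
    have h2 := log_add_one_le_harmonic y
    rw [harmonic_eq_sum_Icc] at h2
    push_cast at h2
    simpa using h2
  have h2 : ∑ n ∈ Icc 1 y, 1 / (n : ℝ) ≤
      ∑ x ∈ (Icc 1 y) ×ˢ ((Icc 1 y).filter Squarefree), 1 / ((x.1 ^ 2 * x.2 : ℕ) : ℝ) := by
    refine sum_le_cover (Icc 1 y) _ (fun x : ℕ × ℕ => x.1 ^ 2 * x.2) (fun n => 1 / (n : ℝ)) ?_ ?_
    · intro x _; positivity
    · intro n hn
      rw [mem_Icc] at hn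
      obtain ⟨a, b, hab, ha⟩ := Nat.sq_mul_squarefree n
      have ha0 : a ≠ 0 := ha.ne_zero
      have hb0 : b ≠ 0 := by rintro rfl; rw [zero_pow (by norm_num), zero_mul] at hab; omega
      refine ⟨(b, a), ?_, hab⟩
      rw [mem_product, mem_filter, mem_Icc, mem_Icc]
      have h3 : b ≤ b ^ 2 := Nat.le_self_pow (by norm_num) b
      have h4 : b ^ 2 ≤ b ^ 2 * a := Nat.le_mul_of_pos_right _ (Nat.pos_of_ne_zero ha0)
      have h5 : a ≤ b ^ 2 * a := Nat.le_mul_of_pos_left _ (by positivity)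
      exact ⟨⟨by omega, by omega⟩, ⟨by omega, by omega⟩, ha⟩
  have h3 : ∑ x ∈ (Icc 1 y) ×ˢ ((Icc 1 y).filter Squarefree), 1 / ((x.1 ^ 2 * x.2 : ℕ) : ℝ) =
      (∑ d ∈ Icc 1 y, 1 / (d : ℝ) ^ 2) * ∑ s ∈ (Icc 1 y).filter Squarefree, 1 / (s : ℝ) := by
    rw [sum_mul_sum, sum_product]
    refine sum_congr rfl fun d _ => sum_congr rfl fun s _ => ?_
    push_cast
    rw [div_mul_div_comm, one_mul]
  rw [h3] at h2
  have h4 := sum_sq_inv y
  have h5 : 0 ≤ ∑ s ∈ (Icc 1 y).filter Squarefree, 1 / (s : ℝ) := sum_nonneg fun s _ => by positivity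
  nlinarith

/-- lower bound for the logarithmic mean of `h` -/
theorem log_mean_low (y : ℕ) (hy : 1 ≤ y) :
    (ell y) ^ (1 / 2 : ℝ) / 2 ≤ ∑ m ∈ Icc 1 y, h m / (m : ℝ) := by
  set M := ∑ m ∈ Icc 1 y, h m / (m : ℝ) with hM
  have hnn : ∀ m : ℕ, 0 ≤ h m / (m : ℝ) := fun m => div_nonneg (f_nonneg (by norm_num) m) (by positivity)
  have h1 : 1 ≤ M := by
    have : h 1 / ((1 : ℕ) : ℝ) ≤ M := single_le_sum (f := fun m : ℕ => h m / (m : ℝ))
      (fun m _ => hnn m) (mem_Icc.2 ⟨le_rfl, hy⟩)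
    rw [show h 1 = 1 from f_one _] at this
    simpa using this
  have h2 : ∑ s ∈ (Icc 1 y).filter Squarefree, 1 / (s : ℝ) ≤ M * M := by
    have h3 : ∑ s ∈ (Icc 1 y).filter Squarefree, 1 / (s : ℝ) =
        ∑ s ∈ (Icc 1 y).filter Squarefree, ∑ x ∈ s.divisorsAntidiagonal,
          (h x.1 / (x.1 : ℝ)) * (h x.2 / (x.2 : ℝ)) := by
      refine sum_congr rfl fun s hs => ?_
      have h4 := h_conv (mem_filter.1 hs).2
      rw [← h4, sum_div]
      refine sum_congr rfl fun x hx => ?_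
      rw [Nat.mem_divisorsAntidiagonal] at hx
      rw [← hx.1]
      push_cast
      rw [mul_div_mul_comm]
    have hdis : Set.PairwiseDisjoint (((Icc 1 y).filter Squarefree : Finset ℕ) : Set ℕ)
        Nat.divisorsAntidiagonal := by
      intro a _ b _ hab
      refine disjoint_left.2 fun x hx hx' => hab ?_
      rw [Nat.mem_divisorsAntidiagonal] at hx hx'
      rw [← hx.1, hx'.1]
    rw [h3, ← sum_biUnion hdis, hM, sum_mul_sum, ← sum_product']
    refine sum_le_sum_of_subset_of_nonneg ?_ fun x _ _ => mul_nonneg (hnn _) (hnn _)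
    intro x hx
    rw [mem_biUnion] at hx
    obtain ⟨s, hs, hx⟩ := hx
    rw [mem_filter, mem_Icc] at hs
    rw [Nat.mem_divisorsAntidiagonal] at hx
    have ha : x.1 ≠ 0 := by rintro h0; rw [h0, zero_mul] at hx; exact hx.2 hx.1.symm
    have hb : x.2 ≠ 0 := by rintro h0; rw [h0, mul_zero] at hx; exact hx.2 hx.1.symm
    have h5 : x.1 ≤ x.1 * x.2 := Nat.le_mul_of_pos_right _ (Nat.pos_of_ne_zero hb)
    have h6 : x.2 ≤ x.1 * x.2 := Nat.le_mul_of_pos_left _ (Nat.pos_of_ne_zero ha)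
    rw [mem_product, mem_Icc, mem_Icc]
    constructor <;> constructor <;> omega
  have h3 := sqfree_harm y
  have hy0 : (0 : ℝ) < y := by exact_mod_cast hy
  have h4 : Real.log y ≤ Real.log ((y : ℝ) + 1) := Real.log_le_log hy0 (by linarith)
  have h5 : ell y / 4 ≤ M ^ 2 := by
    unfold ell
    nlinarith
  have h6 : ((ell y) ^ (1 / 2 : ℝ) / 2) ^ 2 ≤ M ^ 2 := by
    rw [div_pow, ← Real.sqrt_eq_rpow, Real.sq_sqrt (by linarith [ell_ge y])]
    norm_num
    exact h5
  exact abs_le_of_sq_le_sq' h6 (by linarith) |>.2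

/-- lower bound for the mean of `h` -/
theorem mean_low : ∃ c : ℝ, 0 < c ∧ ∀ x : ℕ, 1 ≤ x →
    c * x * ell x ^ (-(1 / 2) : ℝ) ≤ ∑ n ∈ Icc 1 x, h n := by
  obtain ⟨c, hc, hθ⟩ := theta_low
  have hhn : ∀ n, 0 ≤ h n := fun n => f_nonneg (by norm_num) n
  refine ⟨min 1 (c / 32), by positivity, fun x hx => ?_⟩
  have hx0 : (0 : ℝ) < x := by exact_mod_cast hx
  rcases Nat.lt_or_ge x 2 with h2 | h2
  · have h1 : x = 1 := by omega
    subst h1
    rw [Icc_self, sum_singleton, show h 1 = 1 from f_one _]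
    have h3 : ell 1 = 1 := by unfold ell; simp
    rw [h3, Real.one_rpow]
    simp
  -- the main inequality
  have hlog : (c / 32) * x * ell x ^ (1 / 2 : ℝ) ≤ (∑ n ∈ Icc 1 x, h n) * Real.log x := by
    let G : ArithmeticFunction ℝ := ⟨fun m => if m = 0 then 0 else h m, by simp⟩
    let K : ArithmeticFunction ℝ := ⟨fun m => ArithmeticFunction.vonMangoldt m * h m, by simp⟩
    have hG : ∀ m, m ≠ 0 → G m = h m := fun m hm => by
      change (if m = 0 then 0 else h m) = _
      rw [if_neg hm]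
    have hK : ∀ m, K m = ArithmeticFunction.vonMangoldt m * h m := fun m => rfl
    have h1 := ArithmeticFunction.sum_Ioc_mul_eq_sum_sum G K x
    have h3 : ∀ n ∈ Ioc 0 x, (G * K) n = h n * Real.log n := by
      intro n hn
      rw [mem_Ioc] at hn
      rw [ArithmeticFunction.mul_apply, ← ArithmeticFunction.vonMangoldt_sum, mul_sum,
        ← Nat.sum_divisorsAntidiagonal' (fun a b => h n * ArithmeticFunction.vonMangoldt b)]
      refine sum_congr rfl fun y hy => ?_
      rw [Nat.mem_divisorsAntidiagonal] at hy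
      have ha : y.1 ≠ 0 := by rintro h0; rw [h0, zero_mul] at hy; omega
      have hb : y.2 ≠ 0 := by rintro h0; rw [h0, mul_zero] at hy; omega
      rw [hG _ ha, hK, ← hy.1, show h (y.1 * y.2) = h y.1 * h y.2 from f_mul _ ha hb]
      ring
    have h4 : ∑ n ∈ Ioc 0 x, h n * Real.log n ≤ (∑ n ∈ Icc 1 x, h n) * Real.log x := by
      rw [sum_mul]
      refine sum_le_sum fun n hn => ?_
      rw [mem_Ioc] at hn
      refine mul_le_mul_of_nonneg_left ?_ (hhn n)
      exact Real.log_le_log (by exact_mod_cast hn.1) (by exact_mod_cast hn.2)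
    rw [sum_congr rfl h3] at h1
    rw [h1] at h4
    refine le_trans ?_ h4
    -- restrict to `m ≤ x / 2`
    have h5 : ∑ m ∈ Icc 1 (x / 2), (c / 4) * x * (h m / m) ≤
        ∑ m ∈ Ioc 0 x, G m * ∑ k ∈ Ioc 0 (x / m), K k := by
      have h6 : ∀ m ∈ Ioc 0 x, 0 ≤ G m * ∑ k ∈ Ioc 0 (x / m), K k := by
        intro m hm
        rw [mem_Ioc] at hm
        rw [hG m (by omega)]
        refine mul_nonneg (hhn m) (sum_nonneg fun k _ => ?_)
        rw [hK]
        exact mul_nonneg ArithmeticFunction.vonMangoldt_nonneg (hhn k)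
      have hsub : Icc 1 (x / 2) ⊆ Ioc 0 x := by
        intro m hm
        rw [mem_Icc] at hm
        rw [mem_Ioc]
        omega
      refine le_trans (sum_le_sum fun m hm => ?_)
        (sum_le_sum_of_subset_of_nonneg hsub fun m hm _ => h6 m hm)
      rw [mem_Icc] at hm
      rw [hG m (by omega)]
      have hm0 : (0 : ℝ) < m := by exact_mod_cast (by omega : 0 < m)
      have h7 : 2 ≤ x / m := by
        rw [Nat.le_div_iff_mul_le (by omega)]
        have := Nat.div_mul_le_self x 2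
        have := Nat.mul_le_mul_right 2 hm.2
        omega
      have h8 : Chebyshev.theta ((x / m : ℕ) : ℝ) / 2 ≤ ∑ k ∈ Ioc 0 (x / m), K k := by
        rw [Chebyshev.theta, Nat.floor_natCast, sum_div]
        refine le_trans (le_of_eq ?_) (sum_le_sum_of_subset_of_nonneg
          (filter_subset Nat.Prime (Ioc 0 (x / m))) fun k _ _ => by
            rw [hK]; exact mul_nonneg ArithmeticFunction.vonMangoldt_nonneg (hhn k))
        refine sum_congr rfl fun p hp => ?_
        have hp := (mem_filter.1 hp).2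
        rw [hK, ArithmeticFunction.vonMangoldt_apply_prime hp, show h p = 1 / 2 from f_prime _ hp]
        ring
      have h9 := hθ (x / m) h7
      have h10 : (x : ℝ) / m ≤ 2 * ((x / m : ℕ) : ℝ) := by
        rw [div_le_iff₀ hm0]
        have h11 : x < (x / m + 1) * m := by
          have := Nat.lt_mul_div_succ x (show 0 < m by omega)
          rwa [mul_comm] at this
        have h12 : (x : ℝ) < ((x / m : ℕ) + 1) * m := by exact_mod_cast h11
        have h13 : (1 : ℝ) ≤ ((x / m : ℕ) : ℝ) := by exact_mod_cast (by omega : 1 ≤ x / m)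
        nlinarith
      calc c / 4 * x * (h m / m) = h m * (c / 4 * (x / m)) := by ring
        _ ≤ h m * (c / 4 * (2 * ((x / m : ℕ) : ℝ))) :=
            mul_le_mul_of_nonneg_left (mul_le_mul_of_nonneg_left h10 (by positivity)) (hhn m)
        _ = h m * (c * ((x / m : ℕ) : ℝ) / 2) := by ring
        _ ≤ h m * ∑ k ∈ Ioc 0 (x / m), K k := mul_le_mul_of_nonneg_left (by linarith) (hhn m)
    refine le_trans ?_ h5
    rw [← mul_sum]
    have h6 := log_mean_low (x / 2) (by omega)
    have h7 : ell x / 4 ≤ ell (x / 2) := by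
      have h8 : (x : ℝ) / 4 ≤ ((x / 2 : ℕ) : ℝ) := by
        have h9 : x ≤ 4 * (x / 2) := by omega
        have h10 : (x : ℝ) ≤ 4 * ((x / 2 : ℕ) : ℝ) := by exact_mod_cast h9
        linarith
      have h9 : Real.log x - Real.log 4 ≤ Real.log ((x / 2 : ℕ) : ℝ) := by
        rw [← Real.log_div hx0.ne' (by norm_num)]
        exact Real.log_le_log (by positivity) h8
      have h10 : Real.log 4 = 2 * Real.log 2 := by
        rw [show (4 : ℝ) = 2 ^ 2 by norm_num, Real.log_pow]; norm_num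
      have h11 := Real.log_two_lt_d9
      have h12 := ell_ge (x / 2)
      unfold ell at h12 ⊢
      rcases le_total (Real.log x) 3 with h13 | h13 <;> linarith
    have h8 : ell x ^ (1 / 2 : ℝ) / 2 ≤ ell (x / 2) ^ (1 / 2 : ℝ) := by
      rw [← Real.sqrt_eq_rpow, ← Real.sqrt_eq_rpow]
      have h9 : Real.sqrt (ell x / 4) ≤ Real.sqrt (ell (x / 2)) := Real.sqrt_le_sqrt h7
      rw [Real.sqrt_div (by linarith [ell_ge x]), show (4 : ℝ) = 2 ^ 2 by norm_num,
        Real.sqrt_sq (by norm_num)] at h9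
      exact h9
    calc c / 32 * x * ell x ^ (1 / 2 : ℝ) = c / 8 * x * (ell x ^ (1 / 2 : ℝ) / 2 / 2) := by ring
      _ ≤ c / 8 * x * (ell (x / 2) ^ (1 / 2 : ℝ) / 2) := by
          apply mul_le_mul_of_nonneg_left _ (by positivity)
          linarith
      _ ≤ c / 4 * x * (ell (x / 2) ^ (1 / 2 : ℝ) / 2) := by
          have : 0 ≤ x * ell (x / 2) ^ (1 / 2 : ℝ) := by
            have := ell_ge (x / 2)
            positivity
          nlinarith
      _ ≤ c / 4 * x * ∑ m ∈ Icc 1 (x / 2), h m / m := by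
          exact mul_le_mul_of_nonneg_left h6 (by positivity)
  have hell := ell_ge x
  have hlogx : 0 < Real.log x := Real.log_pos (by exact_mod_cast (by omega : 1 < x))
  have h3 : Real.log x ≤ ell x := by unfold ell; linarith
  have h4 : ell x ^ (-(1 / 2) : ℝ) * Real.log x ≤ ell x ^ (1 / 2 : ℝ) := by
    have h5 : ell x ^ (-(1 / 2) : ℝ) * ell x = ell x ^ (1 / 2 : ℝ) := by
      conv_lhs => rw [show ell x ^ (-(1 / 2) : ℝ) * ell x = ell x ^ (-(1 / 2) : ℝ) * ell x ^ (1 : ℝ) by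
        rw [Real.rpow_one]]
      rw [← Real.rpow_add (by linarith)]
      norm_num
    rw [← h5]
    exact mul_le_mul_of_nonneg_left h3 (by positivity)
  have h5 : (min 1 (c / 32) * x * ell x ^ (-(1 / 2) : ℝ)) * Real.log x ≤
      (∑ n ∈ Icc 1 x, h n) * Real.log x := by
    refine le_trans ?_ hlog
    calc (min 1 (c / 32) * x * ell x ^ (-(1 / 2) : ℝ)) * Real.log x
        = min 1 (c / 32) * x * (ell x ^ (-(1 / 2) : ℝ) * Real.log x) := by ring
      _ ≤ (c / 32) * x * ell x ^ (1 / 2 : ℝ) := by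
          refine mul_le_mul ?_ h4 (by positivity) (by positivity)
          exact mul_le_mul_of_nonneg_right (min_le_right _ _) hx0.le
  exact le_of_mul_le_mul_right h5 hlogx

end Pool.Agent.R333.Om
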