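import Mathlib

set_option linter.style.haveILetI false
set_option linter.unusedSectionVars false

open Matrix

namespace Pool.Agent.R333.PS

variable {K : Type*} [Field K] (p : ℕ) [hp : Fact p.Prime] [CharP K p]

/-- The subfield of elements with `x ^ (p ^ e) = x`. -/
def FF (K : Type*) [Field K] (p : ℕ) [Fact p.Prime] [CharP K p] (e : ℕ) : Subfield K :=
  (iterateFrobenius K p e).eqLocusField (RingHom.id K)

lemma mem_FF {e : ℕ} {x : K} : x ∈ FF K p e ↔ x ^ (p ^ e) = x := by
  unfold FF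
  rw [RingHom.mem_eqLocusField, iterateFrobenius_def, RingHom.id_apply]

lemma gcd_fixed {a b : ℕ} {x : K} (ha : x ^ (p ^ a) = x) (hb : x ^ (p ^ b) = x) :
    x ^ (p ^ (a.gcd b)) = x := by
  have h1 : Function.IsPeriodicPt (frobenius K p) a x := by
    show (frobenius K p)^[a] x = x
    rw [iterate_frobenius, ha]
  have h2 : Function.IsPeriodicPt (frobenius K p) b x := by
    show (frobenius K p)^[b] x = x
    rw [iterate_frobenius, hb]
  have h3 : (frobenius K p)^[a.gcd b] x = x := h1.gcd h2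
  rwa [iterate_frobenius] at h3

lemma inter_FF {a b : ℕ} (hab : a.Coprime b) {x : K} (ha : x ∈ FF K p a) (hb : x ∈ FF K p b) :
    x ^ p = x := by
  have h := gcd_fixed p ((mem_FF p).1 ha) ((mem_FF p).1 hb)
  rwa [hab, pow_one] at h

lemma prime_field {x : K} (hx : x ^ p = x) : ∃ k : ℕ, x = (k : K) := by
  classical
  set P : Polynomial K := Polynomial.X ^ p - Polynomial.X with hP
  have hp1 : 1 < p := hp.out.one_lt
  have hP0 : P ≠ 0 := FiniteField.X_pow_card_sub_X_ne_zero K hp1
  have hdeg : P.natDegree = p := FiniteField.X_pow_card_sub_X_natDegree_eq K hp1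
  set S : Finset K := (Finset.range p).image (fun k : ℕ => (k : K)) with hS
  have hScard : S.card = p := by
    rw [hS, Finset.card_image_of_injOn, Finset.card_range]
    intro a ha b hb hab
    have ha' := Finset.mem_range.1 ha
    have hb' := Finset.mem_range.1 hb
    exact CharP.natCast_injOn_Iio K p ha' hb' hab
  have hroot : ∀ y : K, y ^ p = y → y ∈ P.roots.toFinset := by
    intro y hy
    rw [Multiset.mem_toFinset, Polynomial.mem_roots hP0, Polynomial.IsRoot, hP,
      Polynomial.eval_sub, Polynomial.eval_pow, Polynomial.eval_X, hy, sub_self]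
  have hsub : S ⊆ P.roots.toFinset := by
    intro y hy
    obtain ⟨k, _, rfl⟩ := Finset.mem_image.1 hy
    apply hroot
    have := map_natCast (frobenius K p) k
    rwa [frobenius_def] at this
  have hcard : P.roots.toFinset.card ≤ S.card := by
    rw [hScard]
    calc P.roots.toFinset.card ≤ P.roots.card := Multiset.toFinset_card_le _
      _ ≤ P.natDegree := P.card_roots'
      _ = p := hdeg
  have heq : S = P.roots.toFinset := Finset.eq_of_subset_of_card_le hsub hcard
  have hxS : x ∈ S := by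
    rw [heq]
    exact hroot x hx
  obtain ⟨k, _, hk⟩ := Finset.mem_image.1 hxS
  exact ⟨k, hk.symm⟩

/-- `p ^ e - 1 > 2 (p - 1)` and `> 4` for odd `e > 1`, `p` an odd prime. -/
lemma size_bound (hp2 : p ≠ 2) {e : ℕ} (he : 1 < e) (hodd : Odd e) :
    2 * (p - 1) < p ^ e - 1 ∧ 4 < p ^ e - 1 := by
  have hp3 : 3 ≤ p := by
    have := hp.out.two_le
    omega
  have he3 : 3 ≤ e := by
    obtain ⟨k, hk⟩ := hodd
    omega
  have h1 : p ^ 3 ≤ p ^ e := Nat.pow_le_pow_right (by omega) he3
  have h2 : 9 * p ≤ p ^ 3 := by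
    have : 3 * 3 ≤ p * p := Nat.mul_le_mul hp3 hp3
    calc 9 * p = 3 * 3 * p := by ring
      _ ≤ p * p * p := Nat.mul_le_mul_right p this
      _ = p ^ 3 := by ring
  constructor <;> omega

/-- The element `j + 1 / j` is nonzero and its square is not in the prime field. -/
lemma omega_props (hp2 : p ≠ 2) {e : ℕ} (he : 1 < e) (hodd : Odd e) {j : K}
    (hj : orderOf j = p ^ e - 1) :
    j + j⁻¹ ≠ 0 ∧ j ∈ FF K p e ∧ ((j + j⁻¹) ^ 2) ^ p ≠ (j + j⁻¹) ^ 2 := by
  obtain ⟨hb1, hb2⟩ := size_bound p hp2 he hodd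
  have hpe : 1 ≤ p ^ e := Nat.one_le_pow _ _ hp.out.pos
  have hj0 : j ≠ 0 := by
    intro h0
    rw [h0, orderOf_zero] at hj
    omega
  have hjpow : j ^ (p ^ e - 1) = 1 := by
    rw [← hj]
    exact pow_orderOf_eq_one j
  have hjF : j ^ (p ^ e) = j := by
    have : p ^ e = (p ^ e - 1) + 1 := by omega
    rw [this, pow_succ, hjpow, one_mul]
  refine ⟨?_, (mem_FF p).2 hjF, ?_⟩
  · intro h0
    have h1 : j ^ 2 = -1 := by
      have : j * (j + j⁻¹) = 0 := by rw [h0, mul_zero]
      rw [mul_add, mul_inv_cancel₀ hj0] at this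
      linear_combination this
    have h2 : j ^ 4 = 1 := by
      calc j ^ 4 = (j ^ 2) ^ 2 := by ring
        _ = 1 := by rw [h1]; ring
    have h3 := orderOf_dvd_of_pow_eq_one h2
    rw [hj] at h3
    have := Nat.le_of_dvd (by norm_num) h3
    omega
  · intro hw
    set u := j ^ 2 with hu
    have hu0 : u ≠ 0 := pow_ne_zero 2 hj0
    have hw2 : (j + j⁻¹) ^ 2 = u + u⁻¹ + 2 := by
      rw [hu]
      field_simp
      ring
    rw [hw2] at hw
    have hadd : ∀ a b : K, (a + b) ^ p = a ^ p + b ^ p := by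
      intro a b
      have := map_add (frobenius K p) a b
      rwa [frobenius_def, frobenius_def, frobenius_def] at this
    have h2p : (2 : K) ^ p = 2 := by
      have := map_natCast (frobenius K p) 2
      rw [frobenius_def] at this
      exact_mod_cast this
    rw [hadd, hadd, h2p, inv_pow] at hw
    have hup0 : u ^ p ≠ 0 := pow_ne_zero p hu0
    have h1 : (u ^ p - u) * (u ^ p * u - 1) = 0 := by
      have h2 : u ^ p + (u ^ p)⁻¹ = u + u⁻¹ := by linear_combination hw
      have h3 : (u ^ p + (u ^ p)⁻¹) * (u ^ p * u) = (u + u⁻¹) * (u ^ p * u) := by rw [h2]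
      have h4 : (u ^ p + (u ^ p)⁻¹) * (u ^ p * u) = u ^ p * u ^ p * u + u := by
        field_simp
      have h5 : (u + u⁻¹) * (u ^ p * u) = u * u * u ^ p + u ^ p := by
        field_simp
      rw [h4, h5] at h3
      linear_combination h3
    have h2 : u ^ (p ^ 2) = u := by
      rcases mul_eq_zero.1 h1 with h | h
      · have h3 : u ^ p = u := sub_eq_zero.1 h
        rw [pow_two, pow_mul, h3, h3]
      · have h3 : u ^ p = u⁻¹ := by
          exact eq_inv_of_mul_eq_one_left (sub_eq_zero.1 h)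
        rw [pow_two, pow_mul, h3, inv_pow, h3, inv_inv]
    have huF : u ^ (p ^ e) = u := by
      rw [hu, ← pow_mul, mul_comm, pow_mul, hjF]
    have hgcd : Nat.gcd 2 e = 1 := by
      have : Nat.Coprime 2 e := (Nat.coprime_two_left).2 hodd
      exact this
    have h3 : u ^ p = u := by
      have := gcd_fixed p h2 huF
      rwa [hgcd, pow_one] at this
    have h4 : u ^ (p - 1) = 1 := by
      have hpp : p = (p - 1) + 1 := by have := hp.out.pos; omega
      have : u ^ (p - 1) * u = 1 * u := by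
        rw [← pow_succ, ← hpp, h3, one_mul]
      exact mul_right_cancel₀ hu0 this
    rw [hu, ← pow_mul] at h4
    have h5 := orderOf_dvd_of_pow_eq_one h4
    rw [hj] at h5
    have h6 := Nat.le_of_dvd (by have := hp.out.two_le; omega) h5
    omega

/-- The key fact: `r / (w1 w2)` is not a sum of elements of the two subfields. -/
lemma key (hp2 : p ≠ 2) {e1 e2 : ℕ} (hcop : e1.Coprime e2) {w1 w2 y : K}
    (h1 : w1 ∈ FF K p e1) (h2 : w2 ∈ FF K p e2) (hw1 : w1 ≠ 0) (hw2 : w2 ≠ 0)
    (hn1 : (w1 ^ 2) ^ p ≠ w1 ^ 2) (hn2 : (w2 ^ 2) ^ p ≠ w2 ^ 2)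
    (hy : y ^ 2 = 1 - 4 / w1 ^ 2 - 4 / w2 ^ 2) (f1 f2 : K) (hf1 : f1 ∈ FF K p e1)
    (hf2 : f2 ∈ FF K p e2) (hsum : y = f1 + f2) : False := by
  have h2ne : (2 : K) ≠ 0 := by
    intro h0
    have h3 : ((2 : ℕ) : K) = 0 := by exact_mod_cast h0
    rw [CharP.cast_eq_zero_iff K p] at h3
    have := (Nat.prime_dvd_prime_iff_eq hp.out Nat.prime_two).1 h3
    exact hp2 this
  have h4F1 : (4 : K) ∈ FF K p e1 := by
    have := natCast_mem (FF K p e1) 4
    exact_mod_cast this
  have h4F2 : (4 : K) ∈ FF K p e2 := by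
    have := natCast_mem (FF K p e2) 4
    exact_mod_cast this
  have h4ne : (4 : K) ≠ 0 := by
    have : (4 : K) = 2 * 2 := by norm_num
    rw [this]
    exact mul_ne_zero h2ne h2ne
  set g1 : K := -4 / w1 ^ 2 - f1 ^ 2 with hg1
  set g2 : K := 1 - 4 / w2 ^ 2 - f2 ^ 2 with hg2
  have hg1F : g1 ∈ FF K p e1 :=
    sub_mem (div_mem (neg_mem h4F1) (pow_mem h1 2)) (pow_mem hf1 2)
  have hg2F : g2 ∈ FF K p e2 :=
    sub_mem (sub_mem (one_mem _) (div_mem h4F2 (pow_mem h2 2))) (pow_mem hf2 2)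
  have hprod : 2 * f1 * f2 = g1 + g2 := by
    rw [hg1, hg2]
    rw [hsum] at hy
    linear_combination hy
  set φ := iterateFrobenius K p e2 with hφ
  have hφF2 : ∀ x ∈ FF K p e2, φ x = x := by
    intro x hx
    rw [hφ, iterateFrobenius_def]
    exact (mem_FF p).1 hx
  have hφF1 : ∀ x ∈ FF K p e1, φ x ∈ FF K p e1 := by
    intro x hx
    rw [hφ, iterateFrobenius_def]
    exact pow_mem hx _
  have happ : 2 * φ f1 * f2 = φ g1 + g2 := by
    have := congrArg φ hprod
    rw [map_mul, map_mul, map_add, hφF2 f2 hf2, hφF2 g2 hg2F, map_ofNat] at this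
    exact this
  have hdiff : 2 * (φ f1 - f1) * f2 = φ g1 - g1 := by linear_combination happ - hprod
  by_cases hfix : φ f1 = f1
  · -- `f1` in both subfields
    have hf1' : f1 ∈ FF K p e2 := by
      rw [mem_FF, ← iterateFrobenius_def]
      exact hfix
    have hyF : y ∈ FF K p e2 := by
      rw [hsum]
      exact add_mem hf1' hf2
    have h5 : w1 ^ 2 ∈ FF K p e2 := by
      have h6 : 4 / w1 ^ 2 = 1 - 4 / w2 ^ 2 - y ^ 2 := by linear_combination hy
      have h7 : 4 / w1 ^ 2 ∈ FF K p e2 := by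
        rw [h6]
        exact sub_mem (sub_mem (one_mem _) (div_mem h4F2 (pow_mem h2 2))) (pow_mem hyF 2)
      have h8 : w1 ^ 2 = 4 / (4 / w1 ^ 2) := by
        field_simp
      rw [h8]
      exact div_mem h4F2 h7
    exact hn1 (inter_FF p hcop (pow_mem h1 2) h5)
  · have hne : 2 * (φ f1 - f1) ≠ 0 := mul_ne_zero h2ne (sub_ne_zero.2 hfix)
    have h2F1 : (2 : K) ∈ FF K p e1 := by
      have := natCast_mem (FF K p e1) 2
      exact_mod_cast this
    have hf2' : f2 ∈ FF K p e1 := by
      have h6 : f2 = (φ g1 - g1) / (2 * (φ f1 - f1)) := by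
        rw [eq_div_iff hne]
        linear_combination hdiff
      rw [h6]
      exact div_mem (sub_mem (hφF1 g1 hg1F) hg1F)
        (mul_mem h2F1 (sub_mem (hφF1 f1 hf1) hf1))
    have hyF : y ∈ FF K p e1 := by
      rw [hsum]
      exact add_mem hf1 hf2'
    have h5 : w2 ^ 2 ∈ FF K p e1 := by
      have h6 : 4 / w2 ^ 2 = 1 - 4 / w1 ^ 2 - y ^ 2 := by linear_combination hy
      have h7 : 4 / w2 ^ 2 ∈ FF K p e1 := by
        rw [h6]
        exact sub_mem (sub_mem (one_mem _) (div_mem h4F1 (pow_mem h1 2))) (pow_mem hyF 2)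
      have h8 : w2 ^ 2 = 4 / (4 / w2 ^ 2) := by
        field_simp
      rw [h8]
      exact div_mem h4F1 h7
    exact hn2 (inter_FF p hcop h5 (pow_mem h2 2))

end Pool.Agent.R333.PS
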