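import Mathlib

/-!
# Walks of linear recurrences

Elementary facts on the `(α, β)`-walks `w 1 = a`, `w 2 = b`, `w (k + 2) = α w (k + 1) + β w k`.
-/

set_option autoImplicit false

namespace Pool.Agent.R333.Slow

/-- The `(α, β)`-walk with starting values `a`, `b`: `w 1 = a`, `w 2 = b` and
`w (k + 2) = α w (k + 1) + β w k` for `k ≥ 1` (the value at `0` is not used). -/
def w (α β a b : ℕ) : ℕ → ℕ
  | 0 => 0
  | 1 => a
  | 2 => b
  | (k + 3) => α * w α β a b (k + 2) + β * w α β a b (k + 1)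

/-- `s α β n`: the largest index `k ≥ 1` at which some `(α, β)`-walk with positive starting values
takes the value `n`. -/
noncomputable def s (α β n : ℕ) : ℕ :=
  sSup {k : ℕ | 1 ≤ k ∧ ∃ a b : ℕ, 1 ≤ a ∧ 1 ≤ b ∧ w α β a b k = n}

/-- The larger root of `x² = α x + β`. -/
noncomputable def gam (α β : ℕ) : ℝ := ((α : ℝ) + √((α : ℝ) ^ 2 + 4 * β)) / 2

/-- `s_T(n) = max {s α β n : (α, β) ∈ T}` -/
noncomputable def sT (T : Set (ℕ × ℕ)) (n : ℕ) : ℕ := sSup ((fun p => s p.1 p.2 n) '' T)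

/-- `S_T(n)`: the pairs `(α, β) ∈ T` with `s α β n = s_T(n)` -/
def ST (T : Set (ℕ × ℕ)) (n : ℕ) : Set (ℕ × ℕ) := {p | p ∈ T ∧ s p.1 p.2 n = sT T n}

/-- `Γ_T = min {γ_{α,β} : (α, β) ∈ T}` -/
noncomputable def GamT (T : Set (ℕ × ℕ)) : ℝ := sInf ((fun p => gam p.1 p.2) '' T)

lemma w_succ (α β a b k : ℕ) :
    w α β a b (k + 3) = α * w α β a b (k + 2) + β * w α β a b (k + 1) := rfl

lemma w_pos {α β a b : ℕ} (hα : 1 ≤ α) (ha : 1 ≤ a) (hb : 1 ≤ b) :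
    ∀ k, 1 ≤ k → 1 ≤ w α β a b k := by
  have h : ∀ k, 1 ≤ w α β a b (k + 1) ∧ 1 ≤ w α β a b (k + 2) := by
    intro k
    induction k with
    | zero => exact ⟨ha, hb⟩
    | succ k ih =>
      refine ⟨ih.2, ?_⟩
      rw [show k + 1 + 2 = k + 3 from rfl, w_succ]
      nlinarith [ih.1, ih.2]
  intro k hk
  obtain ⟨j, rfl⟩ : ∃ j, k = j + 1 := ⟨k - 1, by omega⟩
  exact (h j).1

lemma w_lt {α β a b : ℕ} (hα : 1 ≤ α) (hβ : 1 ≤ β) (ha : 1 ≤ a) (hb : 1 ≤ b) (k : ℕ)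
    (hk : 2 ≤ k) : w α β a b k < w α β a b (k + 1) := by
  obtain ⟨j, rfl⟩ : ∃ j, k = j + 2 := ⟨k - 2, by omega⟩
  rw [show j + 2 + 1 = j + 3 from rfl, w_succ]
  have h1 := w_pos (β := β) hα ha hb (j + 1) (by omega)
  have h2 := w_pos (β := β) hα ha hb (j + 2) (by omega)
  nlinarith

lemma w_lt_of_lt {α β a b : ℕ} (hα : 1 ≤ α) (hβ : 1 ≤ β) (ha : 1 ≤ a) (hb : 1 ≤ b) {k l : ℕ}
    (hk : 2 ≤ k) (hkl : k < l) : w α β a b k < w α β a b l := by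
  induction l, hkl using Nat.le_induction with
  | base => exact w_lt hα hβ ha hb k hk
  | succ l hl ih => exact ih.trans (w_lt hα hβ ha hb l (by omega))

lemma le_w {α β a b : ℕ} (hα : 1 ≤ α) (hβ : 1 ≤ β) (ha : 1 ≤ a) (hb : 1 ≤ b) (k : ℕ) (hk : 1 ≤ k) :
    k ≤ w α β a b k + 1 := by
  rcases Nat.lt_or_ge k 2 with h | h
  · omega
  induction k, h using Nat.le_induction with
  | base => show 2 ≤ b + 1; omega
  | succ k h ih =>
    have := w_lt hα hβ ha hb k h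
    have := ih (by omega)
    omega

/-- the walk is monotone in the starting values -/
lemma w_mono {α β a b : ℕ} (ha : 1 ≤ a) (hb : 1 ≤ b) (k : ℕ) :
    w α β 1 1 k ≤ w α β a b k := by
  have h : ∀ k, w α β 1 1 (k + 1) ≤ w α β a b (k + 1) ∧ w α β 1 1 (k + 2) ≤ w α β a b (k + 2) := by
    intro k
    induction k with
    | zero => exact ⟨ha, hb⟩
    | succ k ih =>
      refine ⟨ih.2, ?_⟩
      rw [show k + 1 + 2 = k + 3 from rfl, w_succ, w_succ]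
      exact Nat.add_le_add (Nat.mul_le_mul_left _ ih.2) (Nat.mul_le_mul_left _ ih.1)
  rcases k with _ | k
  · exact le_rfl
  · exact (h k).1

lemma bddAbove {α β : ℕ} (hα : 1 ≤ α) (hβ : 1 ≤ β) (n : ℕ) :
    BddAbove {k : ℕ | 1 ≤ k ∧ ∃ a b : ℕ, 1 ≤ a ∧ 1 ≤ b ∧ w α β a b k = n} := by
  refine ⟨n + 1, ?_⟩
  rintro k ⟨hk, a, b, ha, hb, h⟩
  have := le_w hα hβ ha hb k hk
  omega

lemma le_s {α β : ℕ} (hα : 1 ≤ α) (hβ : 1 ≤ β) {n k a b : ℕ} (hk : 1 ≤ k) (ha : 1 ≤ a)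
    (hb : 1 ≤ b) (h : w α β a b k = n) : k ≤ s α β n :=
  le_csSup (bddAbove hα hβ n) ⟨hk, a, b, ha, hb, h⟩

lemma s_mem {α β : ℕ} (hα : 1 ≤ α) (hβ : 1 ≤ β) {n : ℕ} (hn : 1 ≤ n) :
    1 ≤ s α β n ∧ ∃ a b : ℕ, 1 ≤ a ∧ 1 ≤ b ∧ w α β a b (s α β n) = n := by
  have hne : {k : ℕ | 1 ≤ k ∧ ∃ a b : ℕ, 1 ≤ a ∧ 1 ≤ b ∧ w α β a b k = n}.Nonempty :=
    ⟨1, le_rfl, n, 1, hn, le_rfl, rfl⟩
  exact Nat.sSup_mem hne (bddAbove hα hβ n)

/-- shifting the walk -/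
lemma w_shift (α β a b j : ℕ) (hj : 1 ≤ j) (k : ℕ) :
    w α β (w α β a b j) (w α β a b (j + 1)) (k + 1) = w α β a b (j + k) := by
  have h : ∀ k, w α β (w α β a b j) (w α β a b (j + 1)) (k + 1) = w α β a b (j + k) ∧
      w α β (w α β a b j) (w α β a b (j + 1)) (k + 2) = w α β a b (j + k + 1) := by
    intro k
    induction k with
    | zero => exact ⟨rfl, rfl⟩
    | succ k ih =>
      refine ⟨ih.2, ?_⟩
      rw [show k + 1 + 2 = k + 3 from rfl, w_succ, ih.1, ih.2]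
      obtain ⟨i, rfl⟩ : ∃ i, j = i + 1 := ⟨j - 1, by omega⟩
      rw [show i + 1 + (k + 1) + 1 = (i + k) + 3 by omega, w_succ,
        show i + 1 + k + 1 = i + k + 2 by omega, show i + 1 + k = i + k + 1 by omega]
  exact (h k).1

/-- if `n` is not taken at the index `t + 1`, it is not taken at any later index -/
lemma s_le {α β : ℕ} (hα : 1 ≤ α) (hβ : 1 ≤ β) {n t : ℕ} (hn : 1 ≤ n)
    (h : ∀ a b : ℕ, 1 ≤ a → 1 ≤ b → w α β a b (t + 1) ≠ n) : s α β n ≤ t := by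
  by_contra hcon
  push Not at hcon
  obtain ⟨h1, a, b, ha, hb, hw⟩ := s_mem hα hβ hn
  set k := s α β n with hk
  obtain ⟨j, hj⟩ : ∃ j, k = j + 1 + t := ⟨k - 1 - t, by omega⟩
  apply h (w α β a b (j + 1)) (w α β a b (j + 1 + 1)) (w_pos hα ha hb _ (by omega))
    (w_pos hα ha hb _ (by omega))
  rw [w_shift α β a b (j + 1) (by omega) t, ← hj, hw]

/-- the value of the walk with starting values `1`, `1` is not taken later -/
lemma s_one_one {α β : ℕ} (hα : 1 ≤ α) (hβ : 1 ≤ β) (k : ℕ) (hk : 2 ≤ k) :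
    s α β (w α β 1 1 k) ≤ k := by
  apply s_le hα hβ (w_pos hα le_rfl le_rfl k (by omega))
  intro a b ha hb h
  have h1 := w_mono (α := α) (β := β) ha hb (k + 1)
  have h2 := w_lt hα hβ le_rfl le_rfl (a := 1) (b := 1) k hk
  omega

lemma sT_pair (p q : ℕ × ℕ) (n : ℕ) : sT {p, q} n = max (s p.1 p.2 n) (s q.1 q.2 n) := by
  unfold sT
  rw [Set.image_pair, csSup_pair]

lemma GamT_pair (p q : ℕ × ℕ) : GamT {p, q} = min (gam p.1 p.2) (gam q.1 q.2) := by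
  unfold GamT
  rw [Set.image_pair, csInf_pair]

end Pool.Agent.R333.Slow
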