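import Pool.Agent.R333.SubR

/-!
# Fractional parts of `α b ^ m` do not converge exponentially fast
-/

set_option autoImplicit false

open Finset Filter Topology

namespace Pool.Agent.R333.SubR

lemma lin_rel {α : ℝ} (hα : Irrational α) {p q : ℤ} (h : (p : ℝ) + q * α = 0) : p = 0 ∧ q = 0 := by
  have hq : q = 0 := by
    by_contra hq
    apply hα
    refine ⟨-(p : ℚ) / q, ?_⟩
    have hq' : (q : ℝ) ≠ 0 := by exact_mod_cast hq
    push_cast
    rw [div_eq_iff hq']
    linarith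
  subst hq
  refine ⟨?_, rfl⟩
  simpa using h

lemma coef_zero {b : ℕ} (hb : 2 ≤ b) (A K : ℝ) (h : ∃ᶠ m : ℕ in atTop, |A| * (b : ℝ) ^ m ≤ K) :
    A = 0 := by
  by_contra hA
  have hA' : 0 < |A| := abs_pos.2 hA
  have hb1 : (1 : ℝ) < b := by exact_mod_cast (by omega : 1 < b)
  have h1 : Tendsto (fun m : ℕ => |A| * (b : ℝ) ^ m) atTop atTop :=
    (tendsto_pow_atTop_atTop_of_one_lt hb1).const_mul_atTop hA'
  obtain ⟨m, hm1, hm2⟩ := (h.and_eventually (h1.eventually_gt_atTop K)).exists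
  linarith

lemma rp0 (b m : ℕ) : (b : ℝ) ^ ((0 : ℝ) * m) = 1 := by rw [zero_mul, Real.rpow_zero]

lemma rp1 (b m : ℕ) : (b : ℝ) ^ ((1 : ℝ) * m) = (b : ℝ) ^ m := by rw [one_mul, Real.rpow_natCast]

lemma rp2 (b m : ℕ) : (b : ℝ) ^ ((2 : ℝ) * m) = ((b : ℝ) ^ m) ^ 2 := by
  rw [show (2 : ℝ) * m = ((m * 2 : ℕ) : ℝ) by push_cast; ring, Real.rpow_natCast, pow_mul]

lemma rpm (b m : ℕ) : (b : ℝ) ^ ((-1 : ℝ) * m) = ((b : ℝ) ^ m)⁻¹ := by
  rw [show (-1 : ℝ) * m = -(m : ℝ) by ring, Real.rpow_neg (Nat.cast_nonneg b), Real.rpow_natCast]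

/-- the fractional part -/
noncomputable def s (α : ℝ) (b m : ℕ) : ℝ := α * (b : ℝ) ^ m - (⌊α * (b : ℝ) ^ m⌋ : ℝ)

lemma s_nonneg (α : ℝ) (b m : ℕ) : 0 ≤ s α b m := sub_nonneg.2 (Int.floor_le _)

lemma s_lt (α : ℝ) (b m : ℕ) : s α b m < 1 := by
  unfold s
  have := Int.lt_floor_add_one (α * (b : ℝ) ^ m)
  linarith

lemma s_abs (α : ℝ) (b m : ℕ) : |s α b m| ≤ 1 := by
  rw [abs_of_nonneg (s_nonneg _ _ _)]; exact (s_lt _ _ _).le

lemma floor_eq (α : ℝ) (b m : ℕ) : (⌊α * (b : ℝ) ^ m⌋ : ℝ) = α * (b : ℝ) ^ m - s α b m := by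
  unfold s; ring

/-- a rational relation between `b ^ m`, `1` and `[α b ^ m]` for infinitely many `m` is trivial -/
lemma rel3 {b : ℕ} (hb : 2 ≤ b) {α : ℝ} (hα : Irrational α) (p q r : ℤ)
    (h : ∃ᶠ m : ℕ in atTop, (p : ℝ) * (b : ℝ) ^ m + q + r * (⌊α * (b : ℝ) ^ m⌋ : ℝ) = 0) :
    p = 0 ∧ q = 0 ∧ r = 0 := by
  have h1 : (p : ℝ) + r * α = 0 := by
    apply coef_zero hb _ (|(q : ℝ)| + |(r : ℝ)|)
    refine h.mono fun m hm => ?_
    rw [floor_eq] at hm
    have e : ((p : ℝ) + r * α) * (b : ℝ) ^ m = r * s α b m - q := by linear_combination hm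
    have e2 : |(p : ℝ) + r * α| * (b : ℝ) ^ m = |r * s α b m - q| := by
      rw [← e, abs_mul, abs_of_nonneg (by positivity : (0 : ℝ) ≤ (b : ℝ) ^ m)]
    rw [e2]
    refine (abs_sub _ _).trans ?_
    rw [abs_mul]
    have h3 := mul_le_mul_of_nonneg_left (s_abs α b m) (abs_nonneg (r : ℝ))
    linarith
  obtain ⟨rfl, rfl⟩ := lin_rel hα h1
  obtain ⟨m, hm⟩ := h.exists
  simp only [Int.cast_zero, zero_mul, zero_add, add_zero] at hm
  exact ⟨rfl, by exact_mod_cast hm, rfl⟩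

/-- the fractional part of `α b ^ m` is not exponentially close to a fixed algebraic number -/
theorem no_const {b : ℕ} (hb : 2 ≤ b) {α σ : ℝ} (hα : Irrational α) (hα2 : IsAlgebraic ℚ α)
    (hσ : IsAlgebraic ℚ σ) (K : ℝ) : ¬ ∃ᶠ m : ℕ in atTop, |s α b m - σ| * (b : ℝ) ^ m ≤ K := by
  intro hP
  have hb0 : (0 : ℝ) < b := by exact_mod_cast (by omega : 0 < b)
  have hK : 0 ≤ K := by
    obtain ⟨m, hm⟩ := hP.exists
    exact le_trans (by positivity) hm
  have h0 : IsAlgebraic ℚ (0 : ℝ) := isAlgebraic_zero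
  have h1 : IsAlgebraic ℚ (1 : ℝ) := isAlgebraic_one
  obtain ⟨y, hy, hfr⟩ := sub_real (n := 3) (by norm_num) b hb
    (Matrix.of ![![1, 0, 0], ![0, 1, 0], ![α, -σ, -1]])
    (by
      intro i j
      fin_cases i <;> fin_cases j <;> simp [h0, h1, hα2, hσ.neg, h1.neg])
    (by
      intro i j hij
      fin_cases i <;> fin_cases j <;> simp at hij ⊢)
    (by intro i; fin_cases i <;> simp)
    (fun m => |s α b m - σ| * (b : ℝ) ^ m ≤ K) hP
    (fun m => ![(b : ℤ) ^ m, 1, ⌊α * (b : ℝ) ^ m⌋])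
    (by
      intro m _ h
      have h2 := congrFun h 1
      simp at h2)
    (fun m => ![b ^ m, 1, 1]) 1
    (by
      intro m l _
      fin_cases l <;> simp)
    (by
      intro m l _
      fin_cases l <;> simp)
    ![1, 0, -1] (K + 1) (by positivity)
    (by
      intro m l hm
      have hB : (1 : ℝ) ≤ (b : ℝ) ^ m := one_le_pow₀ (by exact_mod_cast (by omega : 1 ≤ b))
      fin_cases l
      · simp only [Fin.zero_eta, Fin.isValue, Matrix.of_apply, Fin.sum_univ_three, Matrix.cons_val_zero,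
          Matrix.cons_val_one, Matrix.cons_val]
        rw [rp1]
        push_cast
        rw [one_mul, zero_mul, zero_mul, add_zero, add_zero, abs_of_nonneg (by linarith)]
        nlinarith
      · simp only [Fin.mk_one, Fin.isValue, Matrix.of_apply, Fin.sum_univ_three, Matrix.cons_val_zero,
          Matrix.cons_val_one, Matrix.cons_val]
        rw [rp0]
        push_cast
        rw [zero_mul, zero_mul, one_mul, zero_add, add_zero, abs_one]
        linarith
      · simp only [Fin.reduceFinMk, Fin.isValue, Matrix.of_apply, Fin.sum_univ_three,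
          Matrix.cons_val_zero, Matrix.cons_val_one, Matrix.cons_val]
        rw [rpm]
        push_cast
        have e : α * (b : ℝ) ^ m + -σ * 1 + -1 * (⌊α * (b : ℝ) ^ m⌋ : ℝ) = s α b m - σ := by
          unfold s; ring
        rw [e, ← div_eq_mul_inv, le_div_iff₀ (by linarith)]
        linarith)
    1 one_pos
    (by
      intro m _
      simp only [Fin.sum_univ_three, Matrix.cons_val_zero, Matrix.cons_val_one, Matrix.cons_val]
      push_cast
      rw [Real.log_pow, Real.log_one]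
      linarith)
  have h2 := rel3 hb hα (y 0) (y 1) (y 2) (hfr.mono fun m hm => by
    have h3 := hm.2
    simp only [Fin.sum_univ_three, Matrix.cons_val_zero, Matrix.cons_val_one, Matrix.cons_val] at h3
    have h4 : (((y 0 * (b : ℤ) ^ m + y 1 * 1 + y 2 * ⌊α * (b : ℝ) ^ m⌋ : ℤ)) : ℝ) = 0 := by
      rw [h3]; norm_num
    push_cast at h4
    linarith)
  apply hy
  funext l
  fin_cases l
  · exact h2.1
  · exact h2.2.1
  · exact h2.2.2

end Pool.Agent.R333.SubR
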