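import Mathlib
import Pool.Agent.TH419.WI.Rel

/-!
# The subspace theorem with real algebraic forms, for integer points with coordinates divisible by
divisors of powers of `b`
-/

set_option autoImplicit false

open Finset Filter Topology

namespace Pool.Agent.R333.SubR

open Pool.Agent.TH419.WI

/-- the primes dividing `b` -/
noncomputable def gp (b : ℕ) (v : Fin b.primeFactors.card) : ℕ := b.primeFactors.orderEmbOfFin rfl v

lemma gp_mem (b : ℕ) (v : Fin b.primeFactors.card) : gp b v ∈ b.primeFactors :=
  Finset.orderEmbOfFin_mem _ _ _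

lemma gp_pos (b : ℕ) (v : Fin b.primeFactors.card) : 0 < gp b v :=
  (Nat.prime_of_mem_primeFactors (gp_mem b v)).pos

/-- a divisor of a power of `b` is a product of powers of the primes of `b` -/
lemma mon_fact (b D k : ℕ) (hb : b ≠ 0) (hD : D ∣ b ^ k) :
    mon (gp b) (fun v => D.factorization (gp b v)) = (D : ℤ) := by
  have hD0 : D ≠ 0 := by
    rintro rfl
    exact (pow_ne_zero k hb) (Nat.eq_zero_of_zero_dvd hD)
  unfold mon
  have h1 : ∏ v, ((gp b v : ℕ) : ℤ) ^ D.factorization (gp b v) =
      ∏ p ∈ b.primeFactors, (p : ℤ) ^ D.factorization p := by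
    have h2 := Finset.prod_map (Finset.univ : Finset (Fin b.primeFactors.card))
      (b.primeFactors.orderEmbOfFin rfl).toEmbedding (fun p : ℕ => (p : ℤ) ^ D.factorization p)
    rw [Finset.map_orderEmbOfFin_univ] at h2
    rw [h2]
    rfl
  rw [h1]
  have h3 : ∏ p ∈ b.primeFactors, p ^ D.factorization p = D := by
    conv_rhs => rw [← Nat.prod_factorization_pow_eq_self hD0]
    rw [Finsupp.prod]
    symm
    apply Finset.prod_subset
    · intro p hp
      rw [Nat.support_factorization] at hp
      have hp1 := Nat.prime_of_mem_primeFactors hp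
      have hp2 := Nat.dvd_of_mem_primeFactors hp
      exact Nat.mem_primeFactors.2 ⟨hp1, hp1.dvd_of_dvd_pow (hp2.trans hD), hb⟩
    · intro p _ hp
      rw [Finsupp.notMem_support_iff] at hp
      rw [hp, pow_zero]
  exact_mod_cast h3

/-- the subspace theorem for lower triangular real algebraic forms `M`; the conditions are assumed
for the `m` satisfying `P`, and the relation holds for infinitely many of them -/
theorem sub_real {n : ℕ} (hn : 1 ≤ n) (b : ℕ) (hb : 2 ≤ b) (M : Matrix (Fin n) (Fin n) ℝ)
    (halg : ∀ i j, IsAlgebraic ℚ (M i j)) (htri : ∀ i j, i < j → M i j = 0)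
    (hdiag : ∀ i, M i i ≠ 0)
    (P : ℕ → Prop) (hP : ∃ᶠ m in atTop, P m)
    (x : ℕ → Fin n → ℤ) (hx : ∀ m, P m → x m ≠ 0)
    (D : ℕ → Fin n → ℕ) (κ : ℕ) (hD : ∀ m l, P m → D m l ∣ b ^ (κ * m))
    (hdiv : ∀ m l, P m → (D m l : ℤ) ∣ x m l)
    (a : Fin n → ℝ) (C : ℝ) (hC : 0 < C)
    (hsmall : ∀ m l, P m → |∑ j, M l j * x m j| ≤ C * (b : ℝ) ^ (a l * m))
    (γ : ℝ) (hγ : 0 < γ)
    (hsum : ∀ m, P m → (∑ l, a l + γ) * m * Real.log b ≤ ∑ l, Real.log (D m l)) :
    ∃ y : Fin n → ℤ, y ≠ 0 ∧ ∃ᶠ m in atTop, P m ∧ ∑ l, y l * x m l = 0 := by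
  classical
  have hb0 : (0 : ℝ) < b := by exact_mod_cast (by omega : 0 < b)
  have hb1 : (1 : ℝ) < b := by exact_mod_cast (by omega : 1 < b)
  set Lb : ℝ := Real.log b with hLb
  have hLb0 : 0 < Lb := Real.log_pos hb1
  -- the subsequence
  obtain ⟨m, hmono, hPm⟩ := Filter.extraction_of_frequently_atTop hP
  have hmt : Tendsto m atTop atTop := hmono.tendsto_atTop
  -- the number field
  set F : IntermediateField ℚ ℝ :=
    IntermediateField.adjoin ℚ (Set.range fun p : Fin n × Fin n => M p.1 p.2) with hFdef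
  have hF : FiniteDimensional ℚ F := by
    apply IntermediateField.finiteDimensional_adjoin
    rintro x ⟨i, rfl⟩
    exact (halg i.1 i.2).isIntegral
  have : NumberField F := { to_charZero := inferInstance, to_finiteDimensional := hF }
  let c : Fin n × Fin n → F := fun i =>
    ⟨M i.1 i.2, IntermediateField.subset_adjoin ℚ _ ⟨i, rfl⟩⟩
  obtain ⟨Nn, hNn⟩ := IsLocalization.exist_integer_multiples_of_finite
    (nonZeroDivisors (NumberField.RingOfIntegers F)) c
  have hN0 : (Nn : NumberField.RingOfIntegers F) ≠ 0 := nonZeroDivisors.ne_zero Nn.2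
  have hN' : ∀ i, ∃ M : NumberField.RingOfIntegers F,
      algebraMap (NumberField.RingOfIntegers F) F M
        = algebraMap (NumberField.RingOfIntegers F) F (Nn : NumberField.RingOfIntegers F)
          * c i := by
    intro i
    obtain ⟨M, hM⟩ := hNn i
    refine ⟨M, ?_⟩
    rw [hM, Algebra.smul_def]
  choose d hd using hN'
  have hinj : Function.Injective (algebraMap (NumberField.RingOfIntegers F) F) :=
    IsFractionRing.injective _ _
  set ψ : NumberField.RingOfIntegers F →+* ℝ :=
    (algebraMap F ℝ).comp (algebraMap (NumberField.RingOfIntegers F) F) with hψ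
  set φ : NumberField.RingOfIntegers F →+* ℂ := Complex.ofRealHom.comp ψ with hφ
  set ν : ℝ := ψ (Nn : NumberField.RingOfIntegers F) with hν
  have hψinj : Function.Injective ψ := (algebraMap F ℝ).injective.comp hinj
  have hν0 : ν ≠ 0 := by
    intro h
    apply hN0
    apply hψinj
    rw [map_zero]
    exact h
  have hνp : 0 < |ν| := abs_pos.2 hν0
  have hψd : ∀ i, ψ (d i) = ν * M i.1 i.2 := by
    intro i
    have h1 := congrArg (algebraMap F ℝ) (hd i)
    rw [map_mul] at h1
    exact h1
  set M0 : Matrix (Fin n) (Fin n) (NumberField.RingOfIntegers F) := fun i j => d (i, j) with hM0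
  have hdet : M0.det ≠ 0 := by
    rw [Matrix.det_of_isLowerTriangular]
    · refine Finset.prod_ne_zero_iff.2 fun i _ => ?_
      intro h0
      have h1 := hψd (i, i)
      rw [show d (i, i) = M0 i i from rfl, h0, map_zero] at h1
      exact (mul_ne_zero hν0 (hdiag i)) h1.symm
    · intro i j hij
      simp only [OrderDual.toDual_lt_toDual] at hij
      apply hψinj
      rw [map_zero, show M0 i j = d (i, j) from rfl, hψd]
      simp only
      rw [htri i j hij, mul_zero]
  have hre : ∀ z, ‖φ z‖ = |ψ z| := by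
    intro z
    rw [hφ, RingHom.comp_apply, Complex.ofRealHom_eq_coe, Complex.norm_real, Real.norm_eq_abs]
  -- the constants
  set K : ℝ := |Real.log (|ν| * C)| with hK
  set c0 : ℝ := 1 + K + ∑ l, |a l| * Lb + (n : ℝ) * κ * Lb with hc0
  have hsa : 0 ≤ ∑ l, |a l| * Lb := Finset.sum_nonneg fun l _ => by positivity
  have hlogA : ∀ (t : ℕ) (l : Fin n), Real.log (|ν| * C * (b : ℝ) ^ (a l * m t)) =
      Real.log (|ν| * C) + a l * m t * Lb := by
    intro t l
    rw [Real.log_mul (by positivity) (by positivity), Real.log_rpow hb0]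
  have hmon : ∀ t l, mon (gp b) (fun v => (D (m t) l).factorization (gp b v)) = (D (m t) l : ℤ) :=
    fun t l => mon_fact b _ _ (by omega) (hD _ l (hPm t))
  have hmR : Tendsto (fun t => (m t : ℝ)) atTop atTop := tendsto_natCast_atTop_atTop.comp hmt
  have hev1 : ∀ᶠ t in atTop, (1 : ℝ) ≤ m t := hmR.eventually_ge_atTop 1
  have hev2 : ∀ᶠ t in atTop, (n : ℝ) * Real.log (|ν| * C) ≤ γ * Lb / 2 * m t := by
    have h1 : Tendsto (fun t => γ * Lb / 2 * (m t : ℝ)) atTop atTop :=
      hmR.const_mul_atTop (by positivity)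
    exact h1.eventually_ge_atTop _
  have hDpos : ∀ t l, (1 : ℝ) ≤ D (m t) l := by
    intro t l
    have h1 := hD _ l (hPm t)
    have h2 : D (m t) l ≠ 0 := by
      intro h0
      rw [h0] at h1
      exact (pow_ne_zero _ (by omega : b ≠ 0)) (Nat.eq_zero_of_zero_dvd h1)
    exact_mod_cast Nat.one_le_iff_ne_zero.2 h2
  have hDle : ∀ t l, Real.log (D (m t) l) ≤ κ * m t * Lb := by
    intro t l
    have h1 := Nat.le_of_dvd (by positivity) (hD _ l (hPm t))
    have h2 : (D (m t) l : ℝ) ≤ (b : ℝ) ^ (κ * m t) := by exact_mod_cast h1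
    have h3 := Real.log_le_log (by linarith [hDpos t l]) h2
    rw [Real.log_pow] at h3
    push_cast at h3
    exact h3
  have key := subDiag (NumberField.RingOfIntegers F) φ hn (gp b) (gp_pos b) M0 hdet
    (fun i j => by
      rw [hφ, RingHom.comp_apply]
      exact Complex.ofReal_im _)
    c0 (γ * Lb / 2) (by
      have : 0 ≤ (n : ℝ) * κ * Lb := by positivity
      have : 0 ≤ K := abs_nonneg _
      linarith) (by positivity) (fun t => (m t : ℝ)) hmR
    (fun t l v => (D (m t) l).factorization (gp b v))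
    (fun t l => |ν| * C * (b : ℝ) ^ (a l * m t))
    (fun t l => x (m t) l / (D (m t) l : ℤ))
    (by
      filter_upwards [hev1] with t ht
      simp only [hmon]
      have h1 : ∑ l, Real.log (((D (m t) l : ℕ) : ℤ) : ℝ) ≤ ∑ _l : Fin n, κ * m t * Lb := by
        refine Finset.sum_le_sum fun l _ => ?_
        have := hDle t l
        simpa using this
      rw [Finset.sum_const, Finset.card_univ, Fintype.card_fin, nsmul_eq_mul] at h1
      have h2 : (n : ℝ) * (κ * m t * Lb) ≤ c0 * m t := by
        have h3 : (n : ℝ) * κ * Lb ≤ c0 := by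
          have : 0 ≤ K := abs_nonneg _
          linarith
        calc (n : ℝ) * (κ * m t * Lb) = (n * κ * Lb) * m t := by ring
          _ ≤ c0 * m t := mul_le_mul_of_nonneg_right h3 (by linarith)
      exact h1.trans h2)
    (by
      filter_upwards with t l
      positivity)
    (by
      filter_upwards [hev1] with t ht l
      rw [hlogA]
      have h1 : |a l| * Lb ≤ ∑ l, |a l| * Lb :=
        Finset.single_le_sum (f := fun l => |a l| * Lb) (fun l _ => by positivity) (Finset.mem_univ l)
      have hK0 : 0 ≤ K := abs_nonneg _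
      have h2 : 0 ≤ (n : ℝ) * κ * Lb := by positivity
      calc |Real.log (|ν| * C) + a l * m t * Lb| ≤ K + |a l * m t * Lb| := abs_add_le _ _
        _ = K * 1 + |a l| * Lb * m t := by
            rw [abs_mul, abs_mul, abs_of_nonneg (by linarith : (0 : ℝ) ≤ m t), abs_of_pos hLb0]
            ring
        _ ≤ K * m t + (∑ l, |a l| * Lb) * m t := by
            refine add_le_add (mul_le_mul_of_nonneg_left ht hK0) ?_
            exact mul_le_mul_of_nonneg_right h1 (by linarith)
        _ ≤ c0 * m t := by
            rw [hc0]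
            have h3 : 0 ≤ (1 + (n : ℝ) * κ * Lb) * m t := mul_nonneg (by linarith) (by linarith)
            nlinarith)
    (by
      filter_upwards [hev1, hev2] with t ht ht2
      simp only [hmon, hlogA]
      rw [Finset.sum_add_distrib, Finset.sum_const, Finset.card_univ, Fintype.card_fin,
        nsmul_eq_mul]
      have h1 := hsum (m t) (hPm t)
      have h2 : ∑ l, Real.log (((D (m t) l : ℕ) : ℤ) : ℝ) = ∑ l, Real.log (D (m t) l) := by
        refine Finset.sum_congr rfl fun l _ => ?_
        simp
      rw [h2]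
      have h3 : ∑ l, a l * m t * Lb = (∑ l, a l) * m t * Lb := by
        rw [Finset.sum_mul, Finset.sum_mul]
      rw [h3]
      nlinarith)
    (by
      filter_upwards with t h0
      apply hx (m t) (hPm t)
      funext l
      have h1 := congrFun h0 l
      simp only [Pi.zero_apply] at h1
      have h2 := Int.ediv_mul_cancel (hdiv (m t) l (hPm t))
      rw [h1, zero_mul] at h2
      rw [Pi.zero_apply]
      exact h2.symm)
    (by
      filter_upwards with t l
      simp only [hmon]
      have h1 : ∀ j, (D (m t) j : ℤ) * (x (m t) j / (D (m t) j : ℤ)) = x (m t) j := fun j =>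
        Int.mul_ediv_cancel' (hdiv (m t) j (hPm t))
      simp only [h1]
      rw [hre, map_sum]
      have h2 : ∑ j, ψ (M0 l j * ((x (m t) j : ℤ) : NumberField.RingOfIntegers F)) =
          ν * ∑ j, M l j * x (m t) j := by
        rw [Finset.mul_sum]
        refine Finset.sum_congr rfl fun j _ => ?_
        rw [map_mul, map_intCast, show M0 l j = d (l, j) from rfl, hψd]
        ring
      rw [h2, abs_mul, mul_assoc]
      exact mul_le_mul_of_nonneg_left (hsmall (m t) l (hPm t)) (abs_nonneg _))
  obtain ⟨y, hy, hfr⟩ := key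
  refine ⟨y, hy, ?_⟩
  refine hmt.frequently (hfr.mono fun t ht => ⟨hPm t, ?_⟩)
  rw [← ht]
  refine Finset.sum_congr rfl fun l _ => ?_
  rw [hmon, Int.mul_ediv_cancel' (hdiv (m t) l (hPm t))]

end Pool.Agent.R333.SubR
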