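import Mathlib
import Pool.Agent.TH809.TP.Band

set_option autoImplicit false

/-!
# Total positivity of the coefficients of polynomials in `1/(1-X)`
-/

namespace Pool.Agent.R333.ZG

open Polynomial Finset
open Pool.Agent.TH809.TP

theorem TP_ones (m : ℕ) : TP m (fun _ => (1 : ℝ)) := by
  intro k hkm r c hr hc
  clear hkm m
  induction k with
  | zero => simp [mnr]
  | succ k ih =>
    rcases Nat.eq_zero_or_pos k with hk | hk
    · subst hk
      unfold mnr
      rw [Matrix.det_succ_column_zero]
      simp [ent]
    unfold mnr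
    by_cases h0 : r 0 ≤ c 0
    · by_cases h1 : r ⟨1, by omega⟩ ≤ c 0
      · have hne : (0 : Fin (k + 1)) ≠ ⟨1, by omega⟩ := by
          intro h
          have := congrArg Fin.val h
          simp at this
        refine le_of_eq (Eq.symm (Matrix.det_zero_of_row_eq hne ?_))
        funext q
        have hq : c 0 ≤ c q := hc.monotone (Fin.zero_le q)
        simp only [Matrix.of_apply, ent]
        rw [if_pos (h0.trans hq), if_pos (h1.trans hq)]
      · rw [Matrix.det_succ_column_zero, Fin.sum_univ_succ]
        have hz : ∀ i : Fin k, (Matrix.of fun p q => ent (fun _ => (1 : ℝ)) (r p) (c q)) i.succ 0 = 0 := by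
          intro i
          simp only [Matrix.of_apply, ent]
          rw [if_neg]
          have : r ⟨1, by omega⟩ ≤ r i.succ := hr.monotone (by
            rw [Fin.le_def]
            simp)
          omega
        have hz' : ∑ i : Fin k, (-1 : ℝ) ^ (i.succ : ℕ) *
            (Matrix.of fun p q => ent (fun _ => (1 : ℝ)) (r p) (c q)) i.succ 0 *
            ((Matrix.of fun p q => ent (fun _ => (1 : ℝ)) (r p) (c q)).submatrix
              i.succ.succAbove Fin.succ).det = 0 := by
          apply Finset.sum_eq_zero
          intro i _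
          rw [hz i]
          ring
        rw [hz', add_zero]
        have h2 : ent (fun _ => (1 : ℝ)) (r 0) (c 0) = 1 := by
          unfold ent
          rw [if_pos h0]
        have := ih (fun p => r p.succ) (fun q => c q.succ)
          (fun a b h => hr (Fin.succ_lt_succ_iff.2 h)) (fun a b h => hc (Fin.succ_lt_succ_iff.2 h))
        simpa [mnr, Matrix.submatrix, h2] using this
    · refine le_of_eq (Eq.symm (Matrix.det_eq_zero_of_column_eq_zero 0 ?_))
      intro i
      simp only [Matrix.of_apply, ent]
      rw [if_neg]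
      have : r 0 ≤ r i := hr.monotone (Fin.zero_le i)
      omega

/-- all minors of the Toeplitz matrix of the coefficients are nonnegative -/
def TPS (A : PowerSeries ℝ) : Prop := ∀ m, TP m (fun n => PowerSeries.coeff n A)

theorem TPS.mul {A B : PowerSeries ℝ} (hA : TPS A) (hB : TPS B) : TPS (A * B) := by
  intro m
  have := (hA m).conv (hB m)
  have e : (fun n => PowerSeries.coeff n (A * B)) =
      Pool.Agent.TH809.TP.conv (fun n => PowerSeries.coeff n A) (fun n => PowerSeries.coeff n B) := by
    funext n
    rw [PowerSeries.coeff_mul]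
    rfl
  rw [e]
  exact this

/-- the power series `1/(1-X)` -/
noncomputable def W : PowerSeries ℝ := PowerSeries.mk (fun _ => 1)

theorem W_mul : W * (1 - PowerSeries.X) = 1 := PowerSeries.mk_one_mul_one_sub_eq_one ℝ

theorem TPS_W : TPS W := by
  intro m
  have : (fun n => PowerSeries.coeff n W) = (fun _ => (1 : ℝ)) := by
    funext n
    simp [W]
  rw [this]
  exact TP_ones m

theorem TPS_lin {s t : ℝ} (hs : 0 ≤ s) (ht : 0 ≤ t) :
    TPS (PowerSeries.C s + PowerSeries.C t * PowerSeries.X) := by
  intro m
  have : (fun n => PowerSeries.coeff n (PowerSeries.C s + PowerSeries.C t * PowerSeries.X)) =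
      lin s t := by
    funext n
    rcases n with _ | _ | n
    · simp [lin]
    · simp [lin, PowerSeries.coeff_C]
    · simp [lin, PowerSeries.coeff_C, PowerSeries.coeff_X]
  rw [this]
  exact TP_lin hs ht m

theorem TPS_C {s : ℝ} (hs : 0 ≤ s) : TPS (PowerSeries.C s) := by
  have := TPS_lin hs le_rfl
  simpa using this

theorem TPS_sub {r : ℝ} (h0 : 0 ≤ r) (h1 : r ≤ 1) : TPS (W - PowerSeries.C r) := by
  have e : W - PowerSeries.C r =
      W * (PowerSeries.C (1 - r) + PowerSeries.C r * PowerSeries.X) := by
    have := W_mul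
    rw [map_sub, map_one]
    linear_combination (PowerSeries.C r) * this
  rw [e]
  exact TPS_W.mul (TPS_lin (by linarith) h0)

theorem TPS_prod (s : Multiset ℝ) (hs : ∀ r ∈ s, 0 ≤ r ∧ r ≤ 1) :
    TPS ((s.map fun r => W - PowerSeries.C r).prod) := by
  induction s using Multiset.induction_on with
  | empty => simpa using TPS_C (zero_le_one)
  | cons a s ih =>
    rw [Multiset.map_cons, Multiset.prod_cons]
    have ha := hs a (Multiset.mem_cons_self a s)
    exact (TPS_sub ha.1 ha.2).mul (ih fun r hr => hs r (Multiset.mem_cons_of_mem hr))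

/-- Evaluation at `1/(1-X)` of a real-rooted polynomial with all zeros in `[0,1]`. -/
theorem TPS_aeval (Q : ℝ[X]) (hl : 0 ≤ Q.leadingCoeff) (hc : Multiset.card Q.roots = Q.natDegree)
    (hr : ∀ r ∈ Q.roots, 0 ≤ r ∧ r ≤ 1) : TPS (aeval W Q) := by
  have e := C_leadingCoeff_mul_prod_multiset_X_sub_C hc
  have e2 : aeval W Q = PowerSeries.C Q.leadingCoeff *
      ((Q.roots.map fun r => W - PowerSeries.C r).prod) := by
    conv_lhs => rw [← e]
    rw [map_mul, aeval_C, map_multiset_prod, Multiset.map_map]
    congr 2
    apply Multiset.map_congr rfl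
    intro r _
    simp only [Function.comp_apply, map_sub, aeval_X, aeval_C]
    rfl
  rw [e2]
  exact (TPS_C hl).mul (TPS_prod _ hr)

/-! ### The recursion -/

/-- the operator `x d/dx - c` in the variable `w = 1/(1-x)` -/
noncomputable def step (c : ℝ) (Q : ℝ[X]) : ℝ[X] :=
  -(X * (1 - X)) * derivative Q - C c * Q

theorem X_dW : PowerSeries.X * PowerSeries.derivative ℝ W = - (W * (1 - W)) := by
  have h1 := W_mul
  have h2 : PowerSeries.derivative ℝ W * (1 - PowerSeries.X) - W = 0 := by
    have := congrArg (PowerSeries.derivative ℝ) h1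
    rw [Derivation.leibniz, map_sub, PowerSeries.derivative_X] at this
    simp only [smul_eq_mul, map_one_eq_zero, Derivation.map_one_eq_zero] at this
    linear_combination this
  have h3 : PowerSeries.derivative ℝ W = W ^ 2 := by
    linear_combination (W) * h2 - (PowerSeries.derivative ℝ W) * h1
  rw [h3]
  linear_combination (-W) * h1

theorem coeff_step (c : ℝ) (Q : ℝ[X]) (k : ℕ) :
    PowerSeries.coeff k (aeval W (step c Q)) = (k - c) * PowerSeries.coeff k (aeval W Q) := by
  have e : aeval W (step c Q) = PowerSeries.X * PowerSeries.derivative ℝ (aeval W Q) -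
      PowerSeries.C c * aeval W Q := by
    rw [Derivation.map_aeval, step]
    simp only [map_sub, map_mul, map_neg, aeval_X, aeval_C, map_one, smul_eq_mul]
    have := X_dW
    rw [show (algebraMap ℝ (PowerSeries ℝ)) c = PowerSeries.C c from rfl]
    linear_combination (-(aeval W (derivative Q))) * this
  rw [e, map_sub]
  have h2 : PowerSeries.coeff k (PowerSeries.C c * aeval W Q) =
      c * PowerSeries.coeff k (aeval W Q) := by
    rw [PowerSeries.coeff_C_mul]
  have h1 : PowerSeries.coeff k (PowerSeries.X * PowerSeries.derivative ℝ (aeval W Q)) =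
      k * PowerSeries.coeff k (aeval W Q) := by
    cases k with
    | zero => simp
    | succ k =>
      rw [PowerSeries.coeff_succ_X_mul, PowerSeries.coeff_derivative]
      push_cast
      ring
  rw [h1, h2]
  ring

theorem deg_step (c : ℝ) (Q : ℝ[X]) (d : ℕ) (hd : 1 ≤ d) (h1 : Q.natDegree = d)
    (h2 : 0 < Q.leadingCoeff) :
    (step c Q).natDegree = d + 1 ∧ 0 < (step c Q).leadingCoeff := by
  obtain ⟨e, rfl⟩ : ∃ e, d = e + 1 := ⟨d - 1, by omega⟩
  have hz : Q.coeff (e + 2) = 0 := coeff_eq_zero_of_natDegree_lt (by omega)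
  have hco : (step c Q).coeff (e + 1 + 1) = (e + 1) * Q.coeff (e + 1) := by
    have : step c Q = X * (X * derivative Q) - X * derivative Q - C c * Q := by
      rw [step]; ring
    rw [this, coeff_sub, coeff_sub, coeff_X_mul, coeff_X_mul, coeff_X_mul, coeff_derivative,
      coeff_derivative, coeff_C_mul, show e + 1 + 1 = e + 2 by ring, hz]
    ring
  have hq : 0 < Q.coeff (e + 1) := by
    have := h2
    rwa [leadingCoeff, h1] at this
  have hpos : 0 < (step c Q).coeff (e + 1 + 1) := by
    rw [hco]; positivity
  have hle : (step c Q).natDegree ≤ e + 1 + 1 := by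
    rw [step]
    refine (natDegree_sub_le _ _).trans (max_le ?_ ?_)
    · refine natDegree_mul_le.trans ?_
      have a1 : (-(X * (1 - X)) : ℝ[X]).natDegree ≤ 2 := by
        rw [natDegree_neg]
        refine natDegree_mul_le.trans ?_
        have := natDegree_sub_le (1 : ℝ[X]) X
        simp only [natDegree_one, natDegree_X] at this ⊢
        omega
      have a2 : (derivative Q).natDegree ≤ e := by
        refine (natDegree_derivative_le Q).trans ?_
        omega
      omega
    · refine (natDegree_C_mul_le _ _).trans ?_
      omega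
  have hn : (step c Q).natDegree = e + 1 + 1 :=
    natDegree_eq_of_le_of_coeff_ne_zero hle hpos.ne'
  refine ⟨hn, ?_⟩
  rw [leadingCoeff, hn]
  exact hpos

/-! ### Evaluation -/

theorem eval_aux {z : ℝ} (hz : |z| < 1) (Q : ℝ[X]) :
    Summable (fun k => ‖PowerSeries.coeff k (aeval W Q) * z ^ k‖) ∧
      ∑' k, PowerSeries.coeff k (aeval W Q) * z ^ k = Q.eval (1 / (1 - z)) := by
  have hg : Summable (fun k => ‖z ^ k‖) := by
    simpa [norm_pow] using summable_geometric_of_lt_one (abs_nonneg z) hz
  have hgs : ∑' k, z ^ k = 1 / (1 - z) := by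
    rw [tsum_geometric_of_abs_lt_one hz, one_div]
  induction Q using Polynomial.induction_on with
  | C a =>
    have e : ∀ k, PowerSeries.coeff k (aeval W (C a)) * z ^ k = if k = 0 then a else 0 := by
      intro k
      rw [aeval_C, show (algebraMap ℝ (PowerSeries ℝ)) a = PowerSeries.C a from rfl,
        PowerSeries.coeff_C]
      split_ifs with h
      · simp [h]
      · simp
    simp_rw [e]
    constructor
    · apply summable_of_ne_finset_zero (s := {0})
      intro b hb
      simp at hb
      simp [hb]
    · rw [tsum_ite_eq]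
      simp
  | add p q hp hq =>
    have e : ∀ k, PowerSeries.coeff k (aeval W (p + q)) * z ^ k =
        PowerSeries.coeff k (aeval W p) * z ^ k + PowerSeries.coeff k (aeval W q) * z ^ k := by
      intro k
      rw [map_add, map_add]
      ring
    simp_rw [e]
    constructor
    · exact (hp.1.add hq.1).of_nonneg_of_le (fun _ => norm_nonneg _) (fun _ => norm_add_le _ _)
    · rw [hp.1.of_norm.tsum_add hq.1.of_norm, hp.2, hq.2, eval_add]
  | monomial n a ih =>
    have e : ∀ k, PowerSeries.coeff k (aeval W (C a * X ^ (n + 1))) * z ^ k =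
        ∑ kl ∈ antidiagonal k, (PowerSeries.coeff kl.1 (aeval W (C a * X ^ n)) * z ^ kl.1) *
          z ^ kl.2 := by
      intro k
      have : aeval W (C a * X ^ (n + 1)) = aeval W (C a * X ^ n) * W := by
        rw [pow_succ, ← mul_assoc, map_mul, aeval_X]
      rw [this, PowerSeries.coeff_mul, Finset.sum_mul]
      apply Finset.sum_congr rfl
      intro kl hkl
      have hkl' : kl.1 + kl.2 = k := Finset.HasAntidiagonal.mem_antidiagonal.1 hkl
      rw [← hkl', pow_add]
      have hW : PowerSeries.coeff kl.2 W = 1 := by simp [W]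
      rw [hW]
      ring
    have e' : (fun k => PowerSeries.coeff k (aeval W (C a * X ^ (n + 1))) * z ^ k) =
        fun k => ∑ kl ∈ antidiagonal k, (PowerSeries.coeff kl.1 (aeval W (C a * X ^ n)) * z ^ kl.1) *
          z ^ kl.2 := funext e
    have a1 := summable_norm_sum_mul_antidiagonal_of_summable_norm
      (f := fun k => PowerSeries.coeff k (aeval W (C a * X ^ n)) * z ^ k) (g := fun k => z ^ k)
      ih.1 hg
    have a2 := tsum_mul_tsum_eq_tsum_sum_antidiagonal_of_summable_norm
      (f := fun k => PowerSeries.coeff k (aeval W (C a * X ^ n)) * z ^ k) (g := fun k => z ^ k)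
      ih.1 hg
    rw [ih.2, hgs] at a2
    constructor
    · have e'' : (fun k => ‖PowerSeries.coeff k (aeval W (C a * X ^ (n + 1))) * z ^ k‖) =
          fun k => ‖∑ kl ∈ antidiagonal k, (PowerSeries.coeff kl.1 (aeval W (C a * X ^ n)) *
            z ^ kl.1) * z ^ kl.2‖ := funext fun k => by rw [e k]
      rw [e'']
      exact a1
    · rw [e', ← a2]
      simp only [eval_mul, eval_C, eval_pow, eval_X]
      ring

end Pool.Agent.R333.ZG
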