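import Mathlib
import Pool.Agent.R333.ZG1

set_option autoImplicit false

/-!
# Counting zeros with Rolle's theorem
-/

namespace Pool.Agent.R333.ZG

open Polynomial Finset

theorem rolle_count (v g : ℝ → ℝ) (a b : ℝ) (hv : ContinuousOn v (Set.Ico a b))
    (hd : ∀ x ∈ Set.Ioo a b, HasDerivAt v (g x) x) (S : Finset ℝ) :
    (∀ x ∈ S, x ∈ Set.Ico a b ∧ v x = 0) →
    ∃ T : Finset ℝ, (∀ y ∈ T, g y = 0 ∧ (∃ x ∈ S, x < y) ∧ (∃ x ∈ S, y < x)) ∧
      S.card ≤ T.card + 1 := by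
  induction S using Finset.induction_on_max with
  | empty => intro _; exact ⟨∅, by simp, by simp⟩
  | insert m s hm ih =>
    intro hS
    obtain ⟨T, hT, hc⟩ := ih fun x hx => hS x (Finset.mem_insert_of_mem hx)
    have hms : m ∉ s := fun h => lt_irrefl _ (hm m h)
    rcases s.eq_empty_or_nonempty with he | hne
    · subst he
      refine ⟨∅, by simp, by simp⟩
    · set l := s.max' hne with hl
      have hls : l ∈ s := Finset.max'_mem s hne
      have hlm : l < m := hm l hls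
      obtain ⟨hl1, hl2⟩ := hS l (Finset.mem_insert_of_mem hls)
      obtain ⟨hm1, hm2⟩ := hS m (Finset.mem_insert_self m s)
      obtain ⟨y, hy, hy0⟩ := exists_hasDerivAt_eq_zero (f := v) (f' := g) hlm
        (hv.mono fun x hx => ⟨hl1.1.trans hx.1, hx.2.trans_lt hm1.2⟩) (by rw [hl2, hm2])
        (fun x hx => hd x ⟨hl1.1.trans_lt hx.1, hx.2.trans hm1.2⟩)
      have hyT : y ∉ T := by
        intro h
        obtain ⟨_, _, x, hx, hyx⟩ := hT y h
        have : x ≤ l := Finset.le_max' s x hx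
        linarith [hy.1]
      refine ⟨insert y T, ?_, ?_⟩
      · intro z hz
        rcases Finset.mem_insert.1 hz with h | h
        · subst h
          exact ⟨hy0, ⟨l, Finset.mem_insert_of_mem hls, hy.1⟩, ⟨m, Finset.mem_insert_self m s, hy.2⟩⟩
        · obtain ⟨h1, ⟨x1, hx1, h2⟩, ⟨x2, hx2, h3⟩⟩ := hT z h
          exact ⟨h1, ⟨x1, Finset.mem_insert_of_mem hx1, h2⟩, ⟨x2, Finset.mem_insert_of_mem hx2, h3⟩⟩
      · rw [Finset.card_insert_of_notMem hms, Finset.card_insert_of_notMem hyT]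
        omega

/-- The function `(w/(1-w))^c Q(w)`. -/
noncomputable def vv (c : ℝ) (Q : ℝ[X]) (w : ℝ) : ℝ := (w / (1 - w)) ^ c * Q.eval w

theorem vv_deriv (c : ℝ) (Q : ℝ[X]) {w : ℝ} (h0 : 0 < w) (h1 : w < 1) :
    HasDerivAt (vv c Q) ((w / (1 - w)) ^ c / (w * (1 - w)) * (-(step c Q).eval w)) w := by
  have hw1 : 0 < 1 - w := by linarith
  have hq : 0 < w / (1 - w) := div_pos h0 hw1
  have hA : HasDerivAt (fun x : ℝ => x / (1 - x)) (1 / (1 - w) ^ 2) w := by
    have h3 : HasDerivAt (fun x : ℝ => 1 - x) (-1) w := by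
      simpa using (hasDerivAt_id w).const_sub 1
    have := (hasDerivAt_id w).fun_div h3 hw1.ne'
    refine this.congr_deriv ?_
    simp only [id]
    congr 1
    ring
  have hB := hA.rpow_const (p := c) (Or.inl hq.ne')
  have hC := hB.mul (Q.hasDerivAt w)
  have hD : (w / (1 - w)) ^ (c - 1) = (w / (1 - w)) ^ c / (w / (1 - w)) := by
    rw [Real.rpow_sub hq, Real.rpow_one]
  refine HasDerivAt.congr_deriv (f := vv c Q) hC ?_
  rw [hD]
  simp only [step, eval_sub, eval_mul, eval_neg, eval_X, eval_one, eval_C]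
  field_simp
  ring

theorem vv_cont {c : ℝ} (hc : 0 ≤ c) (Q : ℝ[X]) : ContinuousOn (vv c Q) (Set.Ico 0 1) := by
  unfold vv
  refine ContinuousOn.mul ?_ Q.continuous.continuousOn
  refine ContinuousOn.rpow_const ?_ (fun x hx => Or.inr hc)
  refine ContinuousOn.div continuousOn_id (continuousOn_const.sub continuousOn_id) ?_
  intro x hx
  have := hx.2
  have h3 : (0 : ℝ) < 1 - x := by linarith
  exact h3.ne'

theorem vv_zero {c : ℝ} (hc : c ≠ 0) (Q : ℝ[X]) : vv c Q 0 = 0 := by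
  unfold vv
  simp [Real.zero_rpow hc]

/-- the polynomials of the sequences `k ^ m` -/
noncomputable def Eu (m : ℕ) : ℝ[X] := (step 0)^[m] X

theorem Eu_succ (m : ℕ) : Eu (m + 1) = step 0 (Eu m) := by
  unfold Eu
  rw [Function.iterate_succ_apply']

theorem Eu_deg (m : ℕ) : (Eu m).natDegree = m + 1 ∧ 0 < (Eu m).leadingCoeff := by
  induction m with
  | zero => simp [Eu]
  | succ m ih =>
    rw [Eu_succ]
    exact deg_step 0 _ _ (by omega) ih.1 ih.2

theorem step_eval (c : ℝ) (Q : ℝ[X]) (w : ℝ) :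
    (step c Q).eval w = -(w * (1 - w)) * (derivative Q).eval w - c * Q.eval w := by
  simp [step]

theorem Eu_zero (m : ℕ) : (Eu m).eval 0 = 0 := by
  induction m with
  | zero => simp [Eu]
  | succ m ih => rw [Eu_succ, step_eval, ih]; ring

theorem Eu_one (m : ℕ) : (Eu (m + 1)).eval 1 = 0 := by
  rw [Eu_succ, step_eval]; ring

theorem Eu_zeros (m : ℕ) : ∃ S : Finset ℝ, (∀ x ∈ S, x ∈ Set.Ioo (0 : ℝ) 1 ∧ (Eu (m + 1)).eval x = 0) ∧
    m ≤ S.card := by
  induction m with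
  | zero => exact ⟨∅, by simp, by simp⟩
  | succ m ih =>
    obtain ⟨S, hS, hc⟩ := ih
    obtain ⟨T, hT, hTc⟩ := rolle_count (fun x => (Eu (m + 1)).eval x)
      (fun x => (derivative (Eu (m + 1))).eval x) 0 2 (Eu (m + 1)).continuous.continuousOn
      (fun x _ => (Eu (m + 1)).hasDerivAt x) (insert 0 (insert 1 S)) (by
        intro x hx
        rcases Finset.mem_insert.1 hx with h | h
        · subst h; exact ⟨by norm_num, Eu_zero _⟩
        rcases Finset.mem_insert.1 h with h | h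
        · subst h; exact ⟨by norm_num, Eu_one _⟩
        · obtain ⟨h1, h2⟩ := hS x h
          exact ⟨⟨h1.1.le, by linarith [h1.2]⟩, h2⟩)
    have h1S : (1 : ℝ) ∉ S := fun h => lt_irrefl _ (hS 1 h).1.2
    have h0S : (0 : ℝ) ∉ insert 1 S := by
      intro h
      rcases Finset.mem_insert.1 h with h | h
      · norm_num at h
      · exact lt_irrefl _ (hS 0 h).1.1
    rw [Finset.card_insert_of_notMem h0S, Finset.card_insert_of_notMem h1S] at hTc
    have hle : ∀ x ∈ insert 0 (insert 1 S), (0 : ℝ) ≤ x ∧ x ≤ 1 := by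
      intro x hx
      rcases Finset.mem_insert.1 hx with h | h
      · subst h; norm_num
      rcases Finset.mem_insert.1 h with h | h
      · subst h; norm_num
      · exact ⟨(hS x h).1.1.le, (hS x h).1.2.le⟩
    refine ⟨T, ?_, by omega⟩
    intro y hy
    obtain ⟨h1, ⟨x1, hx1, h2⟩, ⟨x2, hx2, h3⟩⟩ := hT y hy
    refine ⟨⟨by linarith [(hle x1 hx1).1], by linarith [(hle x2 hx2).2]⟩, ?_⟩
    rw [Eu_succ, step_eval, h1]
    ring

/-- one step with a positive parameter keeps the number of zeros -/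
theorem step_zeros {c : ℝ} (hc : 0 < c) (Q : ℝ[X]) (S : Finset ℝ)
    (hS : ∀ x ∈ S, x ∈ Set.Ioo (0 : ℝ) 1 ∧ Q.eval x = 0) :
    ∃ T : Finset ℝ, (∀ x ∈ T, x ∈ Set.Ioo (0 : ℝ) 1 ∧ (step c Q).eval x = 0) ∧ S.card ≤ T.card := by
  obtain ⟨T, hT, hTc⟩ := rolle_count (vv c Q) _ 0 1 (vv_cont hc.le Q)
    (fun x hx => vv_deriv c Q hx.1 hx.2) (insert 0 S) (by
        intro x hx
        rcases Finset.mem_insert.1 hx with h | h
        · subst h; exact ⟨by norm_num, vv_zero hc.ne' _⟩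
        · obtain ⟨h1, h2⟩ := hS x h
          refine ⟨⟨h1.1.le, h1.2⟩, ?_⟩
          unfold vv
          rw [h2, mul_zero])
  have h0S : (0 : ℝ) ∉ S := fun h => lt_irrefl _ (hS 0 h).1.1
  rw [Finset.card_insert_of_notMem h0S] at hTc
  have hle : ∀ x ∈ insert 0 S, (0 : ℝ) ≤ x ∧ x < 1 := by
    intro x hx
    rcases Finset.mem_insert.1 hx with h | h
    · subst h; norm_num
    · exact ⟨(hS x h).1.1.le, (hS x h).1.2⟩
  refine ⟨T, ?_, by omega⟩
  intro y hy
  obtain ⟨h1, ⟨x1, hx1, h2⟩, ⟨x2, hx2, h3⟩⟩ := hT y hy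
  have hy0 : 0 < y := by linarith [(hle x1 hx1).1]
  have hy1 : y < 1 := by linarith [(hle x2 hx2).2]
  refine ⟨⟨hy0, hy1⟩, ?_⟩
  have hp : 0 < (y / (1 - y)) ^ c / (y * (1 - y)) := by
    have : 0 < 1 - y := by linarith
    positivity
  rcases mul_eq_zero.1 h1 with h | h
  · exact absurd h hp.ne'
  · linarith

/-- two additional zeros -/
theorem step_zeros_extra {c : ℝ} (hc : 0 < c) (Q : ℝ[X]) (S : Finset ℝ)
    (hS : ∀ x ∈ S, x ∈ Set.Ioo (0 : ℝ) 1 ∧ Q.eval x = 0) (σ w1 w2 : ℝ)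
    (h01 : 0 < w1) (h12 : w1 < w2) (h2 : w2 < 1) (hpos : ∀ w ∈ Set.Icc w1 w2, 0 < σ * Q.eval w)
    (hs1 : 0 < σ * (step c Q).eval w1) (hs2 : σ * (step c Q).eval w2 < 0) :
    ∃ T : Finset ℝ, (∀ x ∈ T, x ∈ Set.Ioo (0 : ℝ) 1 ∧ (step c Q).eval x = 0) ∧
      S.card + 2 ≤ T.card := by
  classical
  set v := vv c Q with hvdef
  set g : ℝ → ℝ := fun w => (w / (1 - w)) ^ c / (w * (1 - w)) * (-(step c Q).eval w) with hg
  have hpre : ∀ y : ℝ, 0 < y → y < 1 → 0 < (y / (1 - y)) ^ c / (y * (1 - y)) := by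
    intro y h0 h1
    have : 0 < 1 - y := by linarith
    positivity
  have hcont := vv_cont hc.le Q
  have hder : ∀ x ∈ Set.Ioo (0 : ℝ) 1, HasDerivAt v (g x) x := fun x hx => vv_deriv c Q hx.1 hx.2
  have hvpos : ∀ w ∈ Set.Icc w1 w2, 0 < σ * v w := by
    intro w hw
    have h1 := hpos w hw
    have h0w : 0 < w := h01.trans_le hw.1
    have h1w : 0 < 1 - w := by linarith [hw.2]
    have : 0 < (w / (1 - w)) ^ c := by positivity
    rw [hvdef]
    unfold vv
    have := mul_pos this h1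
    linarith
  set S0 : Finset ℝ := insert 0 S with hS0
  have h0S : (0 : ℝ) ∉ S := fun h => lt_irrefl _ (hS 0 h).1.1
  have hS0c : S0.card = S.card + 1 := Finset.card_insert_of_notMem h0S
  have hS0' : ∀ x ∈ S0, x ∈ Set.Ico (0 : ℝ) 1 ∧ v x = 0 := by
    intro x hx
    rcases Finset.mem_insert.1 hx with h | h
    · subst h; exact ⟨by norm_num, vv_zero hc.ne' _⟩
    · obtain ⟨h1, h2⟩ := hS x h
      refine ⟨⟨h1.1.le, h1.2⟩, ?_⟩
      rw [hvdef]
      unfold vv
      rw [h2, mul_zero]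
  have hsplit : ∀ x ∈ S0, x < w1 ∨ w2 < x := by
    intro x hx
    by_contra hcon
    push Not at hcon
    have := hvpos x ⟨hcon.1, hcon.2⟩
    rw [(hS0' x hx).2] at this
    simp at this
  set Lo := S0.filter (fun x => x < w1) with hLo
  set Hi := S0.filter (fun x => ¬ x < w1) with hHi
  have hcard : Lo.card + Hi.card = S.card + 1 := by
    rw [← hS0c]
    exact Finset.card_filter_add_card_filter_not _
  have hHi2 : ∀ x ∈ Hi, w2 < x := by
    intro x hx
    obtain ⟨h1, h2⟩ := Finset.mem_filter.1 hx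
    exact (hsplit x h1).resolve_left h2
  have hLo2 : ∀ x ∈ Lo, x < w1 := fun x hx => (Finset.mem_filter.1 hx).2
  obtain ⟨TL, hTL, hTLc⟩ := rolle_count v g 0 1 hcont hder Lo
    (fun x hx => hS0' x (Finset.mem_filter.1 hx).1)
  obtain ⟨TH, hTH, hTHc⟩ := rolle_count v g 0 1 hcont hder Hi
    (fun x hx => hS0' x (Finset.mem_filter.1 hx).1)
  have hLone : Lo.Nonempty := ⟨0, Finset.mem_filter.2 ⟨Finset.mem_insert_self _ _, h01⟩⟩
  set l := Lo.max' hLone with hl
  have hlLo : l ∈ Lo := Finset.max'_mem _ _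
  have hlw : l < w1 := hLo2 l hlLo
  obtain ⟨hl1, hl2⟩ := hS0' l (Finset.mem_filter.1 hlLo).1
  have hcP : Continuous fun x => σ * (step c Q).eval x :=
    continuous_const.mul (step c Q).continuous
  -- the zero between l and w1
  have hy1 : ∃ y, l < y ∧ y < w1 ∧ (step c Q).eval y = 0 := by
    obtain ⟨ξ, hξ, hξ2⟩ := exists_hasDerivAt_eq_slope v g hlw
      (hcont.mono fun x hx => ⟨hl1.1.trans hx.1, by linarith [hx.2]⟩)
      (fun x hx => hder x ⟨hl1.1.trans_lt hx.1, by linarith [hx.2]⟩)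
    have hξ0 : 0 < ξ := hl1.1.trans_lt hξ.1
    have hξ1 : ξ < 1 := by linarith [hξ.2]
    have hgp : 0 < σ * g ξ := by
      rw [hξ2, hl2, sub_zero, ← mul_div_assoc]
      exact div_pos (hvpos w1 ⟨le_rfl, h12.le⟩) (by linarith)
    have hneg : σ * (step c Q).eval ξ < 0 := by
      have hp := hpre ξ hξ0 hξ1
      have : σ * g ξ = (ξ / (1 - ξ)) ^ c / (ξ * (1 - ξ)) * (-(σ * (step c Q).eval ξ)) := by
        rw [hg]; ring
      rw [this] at hgp
      have := (mul_pos_iff_of_pos_left hp).1 hgp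
      linarith
    obtain ⟨y, hy, hy0⟩ := intermediate_value_Ioo hξ.2.le hcP.continuousOn ⟨hneg, hs1⟩
    refine ⟨y, hξ.1.trans hy.1, hy.2, ?_⟩
    rcases mul_eq_zero.1 hy0 with h | h
    · rw [h] at hs1; simp at hs1
    · exact h
  have hσ : σ ≠ 0 := by
    intro h
    rw [h] at hs1; simp at hs1
  have hy2 : ∃ y, w1 < y ∧ y < w2 ∧ (step c Q).eval y = 0 := by
    obtain ⟨y, hy, hy0⟩ := intermediate_value_Ioo' h12.le hcP.continuousOn ⟨hs2, hs1⟩
    exact ⟨y, hy.1, hy.2, (mul_eq_zero.1 hy0).resolve_left hσ⟩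
  obtain ⟨y1, hy1a, hy1b, hy1c⟩ := hy1
  obtain ⟨y2, hy2a, hy2b, hy2c⟩ := hy2
  have hgz : ∀ y, 0 < y → y < 1 → g y = 0 → (step c Q).eval y = 0 := by
    intro y h0 h1 h
    rcases mul_eq_zero.1 h with h | h
    · exact absurd h (hpre y h0 h1).ne'
    · linarith
  have hTL' : ∀ y ∈ TL, y < l ∧ y ∈ Set.Ioo (0 : ℝ) 1 ∧ (step c Q).eval y = 0 := by
    intro y hy
    obtain ⟨h1, ⟨x1, hx1, h2⟩, ⟨x2, hx2, h3⟩⟩ := hTL y hy
    have a1 : x2 ≤ l := Finset.le_max' _ _ hx2
    have a2 := (hS0' x1 (Finset.mem_filter.1 hx1).1).1.1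
    have a3 : 0 < y := by linarith
    have a4 : y < 1 := by linarith
    exact ⟨by linarith, ⟨a3, a4⟩, hgz y a3 a4 h1⟩
  have hy2TL : y2 ∉ TL := fun h => by linarith [(hTL' y2 h).1]
  have hy1TL : y1 ∉ insert y2 TL := by
    intro h
    rcases Finset.mem_insert.1 h with h | h
    · linarith
    · linarith [(hTL' y1 h).1]
  have hcL : (insert y1 (insert y2 TL)).card = TL.card + 2 := by
    rw [Finset.card_insert_of_notMem hy1TL, Finset.card_insert_of_notMem hy2TL]
  have hL' : ∀ y ∈ insert y1 (insert y2 TL), y < w2 ∧ y ∈ Set.Ioo (0 : ℝ) 1 ∧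
      (step c Q).eval y = 0 := by
    intro y hy
    rcases Finset.mem_insert.1 hy with h | h
    · subst h
      exact ⟨by linarith, ⟨by linarith [hl1.1], by linarith⟩, hy1c⟩
    rcases Finset.mem_insert.1 h with h | h
    · subst h
      exact ⟨by linarith, ⟨by linarith [hl1.1], by linarith⟩, hy2c⟩
    · obtain ⟨a1, a2, a3⟩ := hTL' y h
      exact ⟨by linarith, a2, a3⟩
  rcases Hi.eq_empty_or_nonempty with hHe | hHne
  · refine ⟨insert y1 (insert y2 TL), fun y hy => (hL' y hy).2, ?_⟩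
    rw [hcL]
    rw [hHe] at hcard
    simp at hcard
    omega
  · set h := Hi.min' hHne with hh
    have hhHi : h ∈ Hi := Finset.min'_mem _ _
    have hhw : w2 < h := hHi2 h hhHi
    obtain ⟨hh1, hh2⟩ := hS0' h (Finset.mem_filter.1 hhHi).1
    have hy3 : ∃ y, w2 < y ∧ y < h ∧ (step c Q).eval y = 0 := by
      obtain ⟨ξ, hξ, hξ2⟩ := exists_hasDerivAt_eq_slope v g hhw
        (hcont.mono fun x hx => ⟨by linarith [hx.1], by linarith [hx.2, hh1.2]⟩)
        (fun x hx => hder x ⟨by linarith [hx.1], by linarith [hx.2, hh1.2]⟩)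
      have hξ0 : 0 < ξ := by linarith [hξ.1]
      have hξ1 : ξ < 1 := by linarith [hξ.2, hh1.2]
      have hgp : σ * g ξ < 0 := by
        rw [hξ2, hh2, zero_sub, ← mul_div_assoc]
        refine div_neg_of_neg_of_pos ?_ (by linarith)
        have := hvpos w2 ⟨h12.le, le_rfl⟩
        linarith
      have hneg : 0 < σ * (step c Q).eval ξ := by
        have hp := hpre ξ hξ0 hξ1
        have e : -(σ * g ξ) = (ξ / (1 - ξ)) ^ c / (ξ * (1 - ξ)) * (σ * (step c Q).eval ξ) := by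
          rw [hg]; ring
        have e2 : 0 < -(σ * g ξ) := by linarith
        rw [e] at e2
        exact (mul_pos_iff_of_pos_left hp).1 e2
      obtain ⟨y, hy, hy0⟩ := intermediate_value_Ioo hξ.1.le hcP.continuousOn ⟨hs2, hneg⟩
      exact ⟨y, hy.1, hy.2.trans hξ.2, (mul_eq_zero.1 hy0).resolve_left hσ⟩
    obtain ⟨y3, hy3a, hy3b, hy3c⟩ := hy3
    have hTH' : ∀ y ∈ TH, h < y ∧ y ∈ Set.Ioo (0 : ℝ) 1 ∧ (step c Q).eval y = 0 := by
      intro y hy
      obtain ⟨h1, ⟨x1, hx1, h2⟩, ⟨x2, hx2, h3⟩⟩ := hTH y hy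
      have a1 : h ≤ x1 := Finset.min'_le _ _ hx1
      have a2 := (hS0' x2 (Finset.mem_filter.1 hx2).1).1.2
      have a3 : 0 < y := by linarith [hh1.1]
      have a4 : y < 1 := by linarith
      exact ⟨by linarith, ⟨a3, a4⟩, hgz y a3 a4 h1⟩
    have hy3TH : y3 ∉ TH := fun hx => by linarith [(hTH' y3 hx).1]
    have hR' : ∀ y ∈ insert y3 TH, w2 < y ∧ y ∈ Set.Ioo (0 : ℝ) 1 ∧
        (step c Q).eval y = 0 := by
      intro y hy
      rcases Finset.mem_insert.1 hy with hx | hx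
      · subst hx
        exact ⟨by linarith, ⟨by linarith, by linarith [hh1.2]⟩, hy3c⟩
      · obtain ⟨a1, a2, a3⟩ := hTH' y hx
        exact ⟨by linarith, a2, a3⟩
    have hdis : Disjoint (insert y1 (insert y2 TL)) (insert y3 TH) := by
      rw [Finset.disjoint_left]
      intro y hy hy'
      linarith [(hL' y hy).1, (hR' y hy').1]
    refine ⟨(insert y1 (insert y2 TL)) ∪ (insert y3 TH), ?_, ?_⟩
    · intro y hy
      rcases Finset.mem_union.1 hy with hx | hx
      · exact (hL' y hx).2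
      · exact (hR' y hx).2
    · rw [Finset.card_union_of_disjoint hdis, hcL, Finset.card_insert_of_notMem hy3TH]
      have : 1 ≤ Hi.card := Finset.card_pos.2 hHne
      have : 1 ≤ Lo.card := Finset.card_pos.2 hLone
      omega

end Pool.Agent.R333.ZG
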