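import Mathlib
import Pool.Agent.R333.ZG2

set_option autoImplicit false

/-!
# Dominance of two terms and the sign conditions
-/

namespace Pool.Agent.R333.ZG

open Polynomial Finset Filter Topology

theorem coeff_Eu (m k : ℕ) : PowerSeries.coeff k (aeval W (Eu m)) = (k : ℝ) ^ m := by
  induction m with
  | zero => simp [Eu, W]
  | succ m ih =>
    rw [Eu_succ, coeff_step, ih]
    ring

/-- ratio to the dominating terms -/
noncomputable def bb (K k : ℕ) : ℝ :=
  if k < K then (k / K : ℝ) * Real.exp (1 - k / K)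
  else if k ≤ K + 1 then 0 else (k / (K + 1) : ℝ) * Real.exp (1 - k / (K + 1))

theorem texp_lt {t : ℝ} (h0 : 0 ≤ t) (h1 : t ≠ 1) : t * Real.exp (1 - t) < 1 := by
  have h2 : t < Real.exp (t - 1) := by
    have := Real.add_one_lt_exp (x := t - 1) (by
      intro h; apply h1; linarith)
    linarith
  have h3 : Real.exp (1 - t) = (Real.exp (t - 1))⁻¹ := by
    rw [← Real.exp_neg]; congr 1; ring
  rw [h3, ← div_eq_mul_inv, div_lt_one (Real.exp_pos _)]
  exact h2

theorem bb_nonneg (K k : ℕ) : 0 ≤ bb K k := by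
  unfold bb
  split_ifs <;> positivity

theorem bb_lt (K k : ℕ) (hK : 1 ≤ K) : bb K k < 1 := by
  have hK0 : (0 : ℝ) < K := by exact_mod_cast hK
  unfold bb
  split_ifs with h1 h2
  · apply texp_lt (by positivity)
    have : (k : ℝ) < K := by exact_mod_cast h1
    rw [Ne, div_eq_one_iff_eq hK0.ne']
    exact this.ne
  · norm_num
  · apply texp_lt (by positivity)
    have : (K : ℝ) + 1 < k := by
      push Not at h2
      exact_mod_cast h2
    rw [Ne, div_eq_one_iff_eq (by positivity)]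
    exact this.ne'

noncomputable def qq (K k : ℕ) : ℝ := (k : ℝ) ^ 2 + (K + 1) ^ 2 + 1

theorem qq_pos (K k : ℕ) : 0 < qq K k := by
  unfold qq; positivity

theorem bb_summable (K : ℕ) : Summable fun k => qq K k * bb K k := by
  -- compare with `(k^3 + ..) r^k`
  set r : ℝ := Real.exp (-(1 / ((K : ℝ) + 1))) with hr
  have hr0 : 0 ≤ r := (Real.exp_pos _).le
  have hr1 : r < 1 := by
    rw [hr, Real.exp_lt_one_iff]
    have : 0 < 1 / ((K : ℝ) + 1) := by positivity
    linarith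
  have hs : ∀ n : ℕ, Summable fun k : ℕ => (k : ℝ) ^ n * r ^ k := fun n =>
    summable_pow_mul_geometric_of_norm_lt_one n (by
      rw [Real.norm_of_nonneg hr0]; exact hr1)
  have hsum : Summable fun k : ℕ => Real.exp 1 * ((k : ℝ) ^ 3 * r ^ k) +
      Real.exp 1 * (((K : ℝ) + 1) ^ 2 + 1) * ((k : ℝ) ^ 1 * r ^ k) :=
    ((hs 3).mul_left _).add ((hs 1).mul_left _)
  rw [← summable_nat_add_iff (K + 2)]
  rw [← summable_nat_add_iff (K + 2)] at hsum
  refine Summable.of_nonneg_of_le (fun k => mul_nonneg (qq_pos _ _).le (bb_nonneg _ _)) ?_ hsum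
  intro k
  have h1 : ¬ (k + (K + 2) < K) := by omega
  have h2 : ¬ (k + (K + 2) ≤ K + 1) := by omega
  have e : bb K (k + (K + 2)) = ((k + (K + 2) : ℕ) / (K + 1) : ℝ) *
      Real.exp (1 - ((k + (K + 2) : ℕ) : ℝ) / (K + 1)) := by
    unfold bb
    rw [if_neg h1, if_neg h2]
  rw [e]
  set j := k + (K + 2) with hj
  have e2 : Real.exp (1 - (j : ℝ) / (K + 1)) = Real.exp 1 * r ^ j := by
    rw [hr, ← Real.exp_nat_mul, ← Real.exp_add]
    congr 1
    ring
  rw [e2]
  unfold qq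
  have h3 : (j : ℝ) / (K + 1) ≤ j := by
    rw [div_le_iff₀ (by positivity)]
    have : (0 : ℝ) ≤ K := Nat.cast_nonneg _
    nlinarith [Nat.cast_nonneg (α := ℝ) j]
  have h4 : 0 ≤ Real.exp 1 * r ^ j := by positivity
  calc ((j : ℝ) ^ 2 + (K + 1) ^ 2 + 1) * ((j : ℝ) / (K + 1) * (Real.exp 1 * r ^ j))
      ≤ ((j : ℝ) ^ 2 + (K + 1) ^ 2 + 1) * ((j : ℝ) * (Real.exp 1 * r ^ j)) := by
        apply mul_le_mul_of_nonneg_left _ (by positivity)
        exact mul_le_mul_of_nonneg_right h3 h4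
    _ = _ := by ring

noncomputable def RR (K m : ℕ) : ℝ := ∑' k, qq K k * bb K k ^ m

theorem RR_summable (K m : ℕ) (hK : 1 ≤ K) (hm : 1 ≤ m) : Summable fun k => qq K k * bb K k ^ m := by
  refine Summable.of_nonneg_of_le (fun k => mul_nonneg (qq_pos _ _).le (pow_nonneg (bb_nonneg _ _) _))
    ?_ (bb_summable K)
  intro k
  apply mul_le_mul_of_nonneg_left _ (qq_pos _ _).le
  calc bb K k ^ m ≤ bb K k ^ 1 := pow_le_pow_of_le_one (bb_nonneg _ _) (bb_lt K k hK).le hm
    _ = bb K k := pow_one _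

theorem RR_tendsto (K : ℕ) (hK : 1 ≤ K) : Tendsto (RR K) atTop (𝓝 0) := by
  have h := tendsto_tsum_of_dominated_convergence (𝓕 := atTop) (f := fun m k => qq K k * bb K k ^ m)
    (g := fun _ => (0 : ℝ)) (bb_summable K) (by
      intro k
      have := (tendsto_pow_atTop_nhds_zero_of_lt_one (bb_nonneg K k) (bb_lt K k hK)).const_mul (qq K k)
      simpa using this) (by
      filter_upwards [eventually_ge_atTop 1] with m hm
      intro k
      rw [Real.norm_of_nonneg (mul_nonneg (qq_pos _ _).le (pow_nonneg (bb_nonneg _ _) _))]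
      apply mul_le_mul_of_nonneg_left _ (qq_pos _ _).le
      calc bb K k ^ m ≤ bb K k ^ 1 := pow_le_pow_of_le_one (bb_nonneg _ _) (bb_lt K k hK).le hm
        _ = bb K k := pow_one _)
  rw [tsum_zero] at h
  exact h

/-- the term `k ^ m x ^ k` -/
noncomputable def TT (m k : ℕ) (x : ℝ) : ℝ := (k : ℝ) ^ m * x ^ k

theorem TT_le {K m k : ℕ} (hK : 1 ≤ K) (hk1 : k ≠ K) (hk2 : k ≠ K + 1) {x : ℝ}
    (hx1 : Real.exp (-(m / K : ℝ)) ≤ x) (hx2 : x ≤ Real.exp (-(m / (K + 1) : ℝ))) :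
    TT m k x ≤ bb K k ^ m * (TT m K x + TT m (K + 1) x) := by
  have hK0 : (0 : ℝ) < K := by exact_mod_cast hK
  have hx0 : 0 < x := (Real.exp_pos _).trans_le hx1
  unfold TT
  have hKK : (0 : ℝ) ≤ (K : ℝ) ^ m * x ^ K := by positivity
  have hKK1 : (0 : ℝ) ≤ ((K + 1 : ℕ) : ℝ) ^ m * x ^ (K + 1) := by positivity
  rcases lt_or_ge k K with h | h
  · have e : bb K k = (k / K : ℝ) * Real.exp (1 - k / K) := by
      unfold bb; rw [if_pos h]
    have h1 : (k : ℝ) ^ m * x ^ k ≤ bb K k ^ m * ((K : ℝ) ^ m * x ^ K) := by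
      obtain ⟨j, hj⟩ : ∃ j, K = k + j := ⟨K - k, by omega⟩
      have hxj : Real.exp (-(m / K : ℝ)) ^ j ≤ x ^ j := pow_le_pow_left₀ (Real.exp_pos _).le hx1 j
      have e2 : bb K k ^ m * (K : ℝ) ^ m = (k : ℝ) ^ m * Real.exp (m / K * j) := by
        rw [e, ← mul_pow, show (k / K : ℝ) * Real.exp (1 - k / K) * K = k * Real.exp (1 - k / K) by
          field_simp, mul_pow, ← Real.exp_nat_mul]
        congr 2
        have : (K : ℝ) = k + j := by exact_mod_cast hj
        field_simp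
        rw [this]; ring
      have e3 : Real.exp (-(m / K : ℝ)) ^ j = (Real.exp (m / K * j))⁻¹ := by
        rw [← Real.exp_nat_mul, ← Real.exp_neg]
        congr 1; ring
      rw [← mul_assoc, e2, mul_assoc]
      apply mul_le_mul_of_nonneg_left _ (by positivity)
      have e4 : x ^ K = x ^ k * x ^ j := by rw [hj, pow_add]
      rw [e4]
      have h5 : 1 ≤ Real.exp (m / K * j) * x ^ j := by
        rw [e3] at hxj
        rwa [inv_le_iff_one_le_mul₀' (Real.exp_pos _)] at hxj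
      have h6 : 0 ≤ x ^ k := by positivity
      nlinarith
    have h2 : 0 ≤ bb K k ^ m := pow_nonneg (bb_nonneg _ _) _
    nlinarith [mul_nonneg h2 hKK1]
  · have h' : K + 1 < k := by omega
    have e : bb K k = (k / (K + 1) : ℝ) * Real.exp (1 - k / (K + 1)) := by
      unfold bb; rw [if_neg (by omega), if_neg (by omega)]
    have h1 : (k : ℝ) ^ m * x ^ k ≤ bb K k ^ m * (((K + 1 : ℕ) : ℝ) ^ m * x ^ (K + 1)) := by
      obtain ⟨j, hj⟩ : ∃ j, k = K + 1 + j := ⟨k - (K + 1), by omega⟩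
      have hxj : x ^ j ≤ Real.exp (-(m / (K + 1) : ℝ)) ^ j := pow_le_pow_left₀ hx0.le hx2 j
      have e2 : bb K k ^ m * ((K + 1 : ℕ) : ℝ) ^ m = (k : ℝ) ^ m * Real.exp (-(m / (K + 1) : ℝ)) ^ j := by
        rw [e, ← mul_pow, show (k / (K + 1) : ℝ) * Real.exp (1 - k / (K + 1)) * ((K + 1 : ℕ) : ℝ) =
          k * Real.exp (1 - k / (K + 1)) by
            push_cast
            field_simp, mul_pow, ← Real.exp_nat_mul, ← Real.exp_nat_mul]
        congr 2
        have : (k : ℝ) = K + 1 + j := by exact_mod_cast hj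
        field_simp
        rw [this]; ring
      rw [← mul_assoc, e2, mul_assoc]
      apply mul_le_mul_of_nonneg_left _ (by positivity)
      have e4 : x ^ k = x ^ j * x ^ (K + 1) := by rw [hj, pow_add]; ring
      rw [e4]
      exact mul_le_mul_of_nonneg_right hxj (by positivity)
    have h2 : 0 ≤ bb K k ^ m := pow_nonneg (bb_nonneg _ _) _
    nlinarith [mul_nonneg h2 hKK]

/-- The two dominating terms. -/
theorem dom {K m : ℕ} (hK : 1 ≤ K) (hm : 1 ≤ m) {x : ℝ}
    (hx1 : Real.exp (-(m / K : ℝ)) ≤ x) (hx2 : x ≤ Real.exp (-(m / (K + 1) : ℝ)))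
    (Q : ℝ[X]) (p : ℝ → ℝ) (hp : ∀ k : ℕ, |p k| ≤ qq K k)
    (hQ : ∀ k, PowerSeries.coeff k (aeval W Q) = (k : ℝ) ^ m * p k) :
    |Q.eval (1 / (1 + x)) - (-1) ^ K * (TT m K x * p K - TT m (K + 1) x * p (K + 1))| ≤
      RR K m * (TT m K x + TT m (K + 1) x) := by
  have hK0 : (0 : ℝ) < K := by exact_mod_cast hK
  have hm0 : (0 : ℝ) < m := by exact_mod_cast hm
  have hx0 : 0 < x := (Real.exp_pos _).trans_le hx1
  have hxl : x < 1 := by
    refine hx2.trans_lt ?_
    rw [Real.exp_lt_one_iff]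
    have : 0 < (m / (K + 1) : ℝ) := by positivity
    linarith
  obtain ⟨hs, he⟩ := eval_aux (z := -x) (by rw [abs_neg, abs_of_pos hx0]; exact hxl) Q
  rw [sub_neg_eq_add] at he
  set F : ℕ → ℝ := fun k => PowerSeries.coeff k (aeval W Q) * (-x) ^ k with hF
  have hFk : ∀ k, F k = (-1) ^ k * (TT m k x * p k) := by
    intro k
    rw [hF]
    simp only [hQ, TT]
    rw [neg_pow]
    ring
  have hS : Summable F := hs.of_norm
  set S2 : Finset ℕ := {K, K + 1} with hS2
  have hsum := hS.sum_add_tsum_compl (s := S2)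
  have hS2s : ∑ k ∈ S2, F k = (-1) ^ K * (TT m K x * p K - TT m (K + 1) x * p (K + 1)) := by
    rw [hS2, Finset.sum_pair (by omega), hFk, hFk, pow_succ]
    push_cast
    ring
  rw [← he, ← hsum, hS2s]
  rw [add_sub_cancel_left]
  set A := TT m K x + TT m (K + 1) x with hA
  have hA0 : 0 ≤ A := by
    rw [hA]; unfold TT; positivity
  have hRs := RR_summable K m hK hm
  have hle : ∀ k : ((S2 : Set ℕ)ᶜ : Set ℕ), ‖F k‖ ≤ (qq K k * bb K k ^ m) * A := by
    rintro ⟨k, hk⟩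
    have hk' : k ≠ K ∧ k ≠ K + 1 := by
      simpa [hS2] using hk
    simp only
    rw [hFk, norm_mul, norm_pow, norm_neg, norm_one, one_pow, one_mul, norm_mul]
    have t1 := TT_le hK hk'.1 hk'.2 hx1 hx2
    have t0 : 0 ≤ TT m k x := by unfold TT; positivity
    rw [Real.norm_of_nonneg t0, Real.norm_eq_abs]
    calc TT m k x * |p k| ≤ (bb K k ^ m * A) * qq K k :=
          mul_le_mul t1 (hp k) (abs_nonneg _) (mul_nonneg (pow_nonneg (bb_nonneg _ _) _) hA0)
      _ = _ := by ring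
  have hcs : Summable fun k : ((S2 : Set ℕ)ᶜ : Set ℕ) => (qq K k * bb K k ^ m) * A :=
    (hRs.subtype _).mul_right A
  have h1 : ‖∑' k : ((S2 : Set ℕ)ᶜ : Set ℕ), F k‖ ≤
      ∑' k : ((S2 : Set ℕ)ᶜ : Set ℕ), (qq K k * bb K k ^ m) * A :=
    tsum_of_norm_bounded hcs.hasSum hle
  have h2 : ∑' k : ((S2 : Set ℕ)ᶜ : Set ℕ), (qq K k * bb K k ^ m) * A ≤ RR K m * A := by
    rw [tsum_mul_right]
    apply mul_le_mul_of_nonneg_right _ hA0
    unfold RR
    exact hRs.tsum_subtype_le _ _ (fun k => mul_nonneg (qq_pos _ _).le (pow_nonneg (bb_nonneg _ _) _))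
  rw [← Real.norm_eq_abs]
  exact h1.trans h2

end Pool.Agent.R333.ZG
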